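import Pool.Agent.Lib.MP_d439b2_co.GT.SpecG

/-!
# MP_d439b2_co, grid theorem, module BigC: big components
-/

set_option autoImplicit false

namespace Pool.Agent.MPd439b2.GT

open Pool.Agent.MPd439b2

/-- a maximal big connected set avoiding `X` is closed -/
theorem pBigC : SBigC := by
  intro V _ _ G S w hH X hX
  classical
  obtain ⟨C₀, hC₀⟩ := hH X hX
  obtain ⟨C, hC, hmax⟩ := Finset.exists_max_image
    (Finset.univ.filter fun C : Finset V => Conn G (C : Set V) ∧ Disjoint X C ∧ Big S C)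
    Finset.card ⟨C₀, Finset.mem_filter.mpr ⟨Finset.mem_univ _, hC₀⟩⟩
  rw [Finset.mem_filter] at hC
  obtain ⟨-, h1, h2, h3⟩ := hC
  refine ⟨C, h1, h2, h3, ?_⟩
  intro u hu v huv
  by_contra hv
  rw [Finset.mem_union, not_or] at hv
  have h4 := hmax (insert v C) (by
    rw [Finset.mem_filter]
    refine ⟨Finset.mem_univ _, ?_, ?_, h3.mono (Finset.subset_insert _ _)⟩
    · rw [Finset.coe_insert]
      exact h1.insert ⟨u, Finset.mem_coe.mpr hu, huv⟩
    · rw [Finset.disjoint_insert_right]
      exact ⟨hv.2, h2⟩)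
  rw [Finset.card_insert_of_notMem hv.1] at h4
  omega

end Pool.Agent.MPd439b2.GT
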