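import Pool.Agent.Lib.MP_d439b2_co.GT.SpecG

set_option autoImplicit false

/-!
# MP_d439b2_co, grid theorem: the core
-/

namespace Pool.Agent.MPd439b2.GT

open Pool.Agent.MPd439b2

/-- A connected set which avoids `X` and whose inner edges are not deleted is on one side. -/
private theorem Core_side {V : Type} [DecidableEq V] {H : SimpleGraph V} {W L X : Finset V}
    {e₁ e₂ : V} (hW : Conn H (W : Set V)) (hX : Disjoint W X) (he : ¬ (e₁ ∈ W ∧ e₂ ∈ W))
    (hfar : ∀ u, u ∈ L → ∀ v, H.Adj u v → ¬ (u = e₁ ∧ v = e₂) → ¬ (u = e₂ ∧ v = e₁) → v ∈ L ∪ X)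
    {w : V} (hw : w ∈ W) : (w ∈ L → W ⊆ L) ∧ (w ∉ L → Disjoint W L) := by
  have key : ∀ w', w' ∈ W → w' ∈ L → W ⊆ L := by
    intro w' hw' hwL
    have h1 : ((W ∩ L : Finset V) : Set V) = (W : Set V) := by
      apply hW.eq_of_nb
      · intro v hv
        exact Finset.mem_coe.2 (Finset.mem_inter.1 (Finset.mem_coe.1 hv)).1
      · exact ⟨w', Finset.mem_coe.2 (Finset.mem_inter.2 ⟨hw', hwL⟩)⟩
      · intro v hv hv'
        obtain ⟨h2, a, ha, hav⟩ := hv'
        have ha' := Finset.mem_inter.1 (Finset.mem_coe.1 ha)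
        have hvW : v ∈ W := Finset.mem_coe.1 hv
        have h3 := hfar a ha'.2 v hav (fun h => he ⟨h.1 ▸ ha'.1, h.2 ▸ hvW⟩)
          (fun h => he ⟨h.2 ▸ hvW, h.1 ▸ ha'.1⟩)
        rcases Finset.mem_union.1 h3 with h4 | h4
        · exact h2 (Finset.mem_coe.2 (Finset.mem_inter.2 ⟨hvW, h4⟩))
        · exact Finset.disjoint_left.1 hX hvW h4
    intro v hv
    have h2 : v ∈ ((W ∩ L : Finset V) : Set V) := by
      rw [h1]; exact Finset.mem_coe.2 hv
    exact (Finset.mem_inter.1 (Finset.mem_coe.1 h2)).2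
  refine ⟨key w hw, fun h => ?_⟩
  rw [Finset.disjoint_left]
  intro w' h1 h2
  exact h (key w' h1 h2 hw)

/-- **The core of the grid theorem.** -/
theorem pCore (h1 : SCutj) : SCore := by
  intro V _ _ G H A B R D b a M P hM hconn hdis hHG hin hmin n q hq h v hh hv hmeet
  have hb : 1 ≤ b := by
    have := (h 0).isLt
    omega
  obtain ⟨g, hg⟩ : ∃ g, g = (D + 1) * b + 1 := ⟨_, rfl⟩
  have hg2 : 2 ≤ g := by
    rw [hg]
    have : 1 ≤ (D + 1) * b := Nat.one_le_iff_ne_zero.2 (Nat.mul_ne_zero (by omega) (by omega))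
    omega
  have hMg : M = (D + 1) * g := by rw [hM, hg]
  have hMd : ∀ d, d ≤ D → 1 + d * g < M := by
    intro d hd
    rw [hMg]
    have h2 : d * g ≤ D * g := Nat.mul_le_mul_right g hd
    have h3 : (D + 1) * g = D * g + g := by ring
    omega
  -- first positions
  have hF : ∀ i : Fin M, ∃ s, s ≤ n (h 0) ∧ q (h 0) s ∈ P (v i) ∧
      ∀ s', s' < s → q (h 0) s' ∉ P (v i) := by
    intro i
    classical
    have h2 := hmeet i 0
    have h3 : ∃ s, q (h 0) s ∈ P (v i) := by
      obtain ⟨s, -, hs⟩ := h2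
      exact ⟨s, hs⟩
    obtain ⟨s, hs1, hs2⟩ := h2
    refine ⟨Nat.find h3, (Nat.find_min' h3 hs2).trans hs1, Nat.find_spec h3, ?_⟩
    intro s' hs'
    exact Nat.find_min h3 hs'
  choose F hF1 hF2 hF3 using hF
  have hPd : ∀ i j : Fin M, ∀ x, x ∈ P (v i) → x ∈ P (v j) → i = j := by
    intro i j x hi hj
    by_contra hne
    exact Finset.disjoint_left.1 (hdis (v i) (v j) (fun hh => hne (hv hh))) hi hj
  have hFi : Function.Injective F := by
    intro i j hij
    apply hPd i j (q (h 0) (F i)) (hF2 i)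
    rw [hij]
    exact hF2 j
  obtain ⟨τ, hτ⟩ : ∃ τ : Equiv.Perm (Fin M), StrictMono (F ∘ τ) :=
    ⟨Tuple.sort F, (Tuple.monotone_sort F).strictMono_of_injective
      (hFi.comp (Tuple.sort F).injective)⟩
  have hτ' : ∀ i j : Fin M, F (τ i) < F (τ j) ↔ i < j := fun i j => hτ.lt_iff_lt
  -- connected in H
  have hconnH : ∀ i, Conn H (P i : Set V) := by
    intro i
    exact (hconn i).mono_graph (fun u hu w hw huw => hin i u w (Finset.mem_coe.1 hu)
      (Finset.mem_coe.1 hw) huw)
  -- the cuts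
  have hcut : ∀ d, ∃ (L X : Finset V) (c : Fin R → ℕ), d ≤ D → X.card < b ∧
      (∀ i, c i ≤ n (h i.succ)) ∧
      (∀ i s, s ≤ n (h i.succ) → (q (h i.succ) s ∈ X ↔ s = c i) ∧
        (q (h i.succ) s ∈ L ↔ s < c i)) ∧
      ∀ i : Fin M, Disjoint (P (v (τ i))) X → (i.val < 1 + d * g → P (v (τ i)) ⊆ L) ∧
        (1 + d * g ≤ i.val → Disjoint (P (v (τ i))) L) := by
    intro d
    by_cases hd : d ≤ D
    swap
    · exact ⟨∅, ∅, fun _ => 0, fun hh => absurd hh hd⟩
    obtain ⟨j, hj⟩ : ∃ j : Fin M, j.val = 1 + d * g := ⟨⟨1 + d * g, hMd d hd⟩, rfl⟩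
    have h0 : (⟨0, lt_of_le_of_lt (Nat.zero_le _) (hMd d hd)⟩ : Fin M) < j := by
      rw [Fin.lt_def, hj]
      simp
    have hf1 : 1 ≤ F (τ j) := by
      have := (hτ' _ _).2 h0
      omega
    have hnin : ∀ i, ¬ (q (h 0) (F (τ j) - 1) ∈ P i ∧ q (h 0) (F (τ j)) ∈ P i) := by
      rintro i ⟨h2, h3⟩
      have h4 : i = v (τ j) := by
        by_contra hne
        exact Finset.disjoint_left.1 (hdis i _ hne) h3 (hF2 (τ j))
      rw [h4] at h2
      exact hF3 (τ j) (F (τ j) - 1) (by omega) h2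
    have hadj : H.Adj (q (h 0) (F (τ j) - 1)) (q (h 0) (F (τ j))) := by
      have h2 := (hq.pth (h 0)).adj (F (τ j) - 1) (by have := hF1 (τ j); omega)
      rwa [Nat.sub_add_cancel hf1] at h2
    obtain ⟨L, X, hX1, hX2, hX3, hX4, hX5⟩ := h1 V H A B b n q hq (h 0) (F (τ j)) hf1
      (hF1 (τ j)) (hmin _ _ hadj hnin)
    have h5 : ∀ i : Fin R, ∃ c, c ≤ n (h i.succ) ∧ ∀ s, s ≤ n (h i.succ) →
        (q (h i.succ) s ∈ X ↔ s = c) ∧ (q (h i.succ) s ∈ L ↔ s < c) := by
      intro i
      apply hX5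
      intro h6
      exact (Fin.succ_ne_zero i) (hh h6)
    choose c hc1 hc2 using h5
    refine ⟨L, X, c, fun _ => ⟨hX1, hc1, hc2, ?_⟩⟩
    intro i hi
    have h7 := Core_side (e₁ := q (h 0) (F (τ j) - 1)) (e₂ := q (h 0) (F (τ j)))
      (hconnH (v (τ i))) hi (hnin (v (τ i))) hX3 (hF2 (τ i))
    have h8 := (hX4 (F (τ i)) (hF1 (τ i))).2
    constructor
    · intro h9
      apply h7.1
      rw [h8, hτ', Fin.lt_def, hj]
      exact h9
    · intro h9
      apply h7.2
      rw [h8, hτ', Fin.lt_def, hj]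
      omega
  choose L X c hc using hcut
  -- a set in every interval avoiding all cuts
  have hint : ∀ d, ∃ i : Fin M, d < D → 1 + d * g ≤ i.val ∧ i.val < 1 + (d + 1) * g ∧
      ∀ e, e ≤ D → Disjoint (P (v (τ i))) (X e) := by
    intro d
    by_cases hd : d < D
    swap
    · exact ⟨⟨0, lt_of_le_of_lt (Nat.zero_le _) (hMd D le_rfl)⟩, fun hh => absurd hh hd⟩
    by_contra hcon
    push Not at hcon
    have h2 : ∀ t : Fin g, ∃ x, x ∈ (Finset.range (D + 1)).biUnion X ∧
        ∃ ht : 1 + d * g + t.val < M, x ∈ P (v (τ ⟨1 + d * g + t.val, ht⟩)) := by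
      intro t
      have ht : 1 + d * g + t.val < M := by
        have h3 := hMd (d + 1) hd
        have h4 : (d + 1) * g = d * g + g := by ring
        have := t.isLt
        omega
      obtain ⟨h5, h6⟩ := hcon ⟨1 + d * g + t.val, ht⟩
      have h7 := h6 (by simp) (by
        have h4 : (d + 1) * g = d * g + g := by ring
        have := t.isLt
        simp only
        omega)
      obtain ⟨e, he, h8⟩ := h7
      rw [Finset.not_disjoint_iff] at h8
      obtain ⟨x, hx1, hx2⟩ := h8
      exact ⟨x, Finset.mem_biUnion.2 ⟨e, Finset.mem_range.2 (by omega), hx2⟩, ht, hx1⟩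
    choose x hx1 hx2 hx3 using h2
    have hxi : Function.Injective x := by
      intro t t' htt
      have h3 := hPd _ _ (x t) (hx3 t) (by rw [htt]; exact hx3 t')
      have h4 := τ.injective h3
      rw [Fin.mk.injEq] at h4
      exact Fin.ext (by omega)
    have h3 : g ≤ ((Finset.range (D + 1)).biUnion X).card := by
      calc g = (Finset.univ : Finset (Fin g)).card := by simp
        _ = (Finset.univ.image x).card := (Finset.card_image_of_injective _ hxi).symm
        _ ≤ _ := by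
          apply Finset.card_le_card
          intro y hy
          obtain ⟨t, -, rfl⟩ := Finset.mem_image.1 hy
          exact hx1 t
    have h4 : ((Finset.range (D + 1)).biUnion X).card ≤ (D + 1) * b := by
      calc _ ≤ (Finset.range (D + 1)).card * b := by
            apply Finset.card_biUnion_le_card_mul
            intro e he
            exact le_of_lt (hc e (by have := Finset.mem_range.1 he; omega)).1
        _ = _ := by rw [Finset.card_range]
    omega
  choose I hI using hint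
  refine ⟨fun d => P (v (τ (I d))), fun i d => c d i, ?_⟩
  have honly : ∀ (i : Fin R) (d : ℕ), d < D → ∀ s, s ≤ n (h i.succ) →
      q (h i.succ) s ∈ P (v (τ (I d))) → c d i < s ∧ s < c (d + 1) i := by
    intro i d hd s hs hsU
    obtain ⟨hI1, hI2, hI3⟩ := hI d hd
    obtain ⟨-, -, h4, h5⟩ := hc d (by omega)
    obtain ⟨-, -, h6, h7⟩ := hc (d + 1) (by omega)
    constructor
    · have h8 := (h5 (I d) (hI3 d (by omega))).2 hI1
      have h9 : q (h i.succ) s ∉ L d := fun hh => Finset.disjoint_left.1 h8 hsU hh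
      have h10 : q (h i.succ) s ∉ X d := fun hh =>
        Finset.disjoint_left.1 (hI3 d (by omega)) hsU hh
      rw [(h4 i s hs).2] at h9
      rw [(h4 i s hs).1] at h10
      omega
    · have h8 := (h7 (I d) (hI3 (d + 1) (by omega))).1 hI2
      exact (h6 i s hs).2.1 (h8 hsU)
  have hneq : ∀ d, d < D → ∀ e, e < D → d < e → I d ≠ I e := by
    intro d hd e he hde hh
    obtain ⟨hI1, hI2, -⟩ := hI d hd
    obtain ⟨hJ1, hJ2, -⟩ := hI e he
    rw [hh] at hI2
    have : (d + 1) * g ≤ e * g := Nat.mul_le_mul_right g (by omega)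
    omega
  refine ⟨?_, ?_, ?_, ?_, ?_, ?_, ?_⟩
  · have h2 := hq.sel (fun i : Fin R => h i.succ) (fun i j hij =>
      Fin.succ_injective R (hh hij))
    have h3 := h2.mono (G' := G) hHG (Finset.Subset.refl A) (Finset.Subset.refl B) le_rfl
    exact h3
  · intro d hd
    exact hconn _
  · intro d hd e he hde
    apply hdis
    intro h2
    have h3 := τ.injective (hv h2)
    rcases Nat.lt_or_gt_of_ne hde with h4 | h4
    · exact hneq d hd e he h4 h3
    · exact hneq e he d hd h4 h3.symm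
  · intro i d hd
    obtain ⟨s, hs1, hs2⟩ := hmeet (τ (I d)) i.succ
    have := honly i d hd s hs1 hs2
    exact this.1.trans this.2
  · intro i d hd
    exact (hc d hd).2.1 i
  · intro i d hd
    exact hmeet (τ (I d)) i.succ
  · intro i d hd s hs hsU
    have := honly i d hd s hs hsU
    exact ⟨this.1.le, this.2⟩

end Pool.Agent.MPd439b2.GT
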