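import Pool.Agent.Lib.MP_d439b2_co.GT.SpecG

/-!
# MP_d439b2_co, the grid theorem: the cut at an edge of a row
-/

set_option autoImplicit false

namespace Pool.Agent.MPd439b2.GT

open Pool.Agent.MPd439b2

private theorem Cutj_up {V : Type} [DecidableEq V] {L X B : Finset V} {n : ℕ} {p : ℕ → V}
    (hB : Disjoint B L) (hl : p n ∈ B) {s₀ : ℕ}
    (h : ∀ s, s₀ ≤ s → s < n → p s ∈ L → p (s + 1) ∈ L ∪ X)
    (hX : ∀ s, s₀ < s → s ≤ n → p s ∉ X) (hs : s₀ ≤ n) : p s₀ ∉ L := by
  intro h0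
  have h1 : ∀ s, s₀ ≤ s → s ≤ n → p s ∈ L := by
    intro s hs1
    induction s, hs1 using Nat.le_induction with
    | base => intro _; exact h0
    | succ s hs1 ih =>
      intro hs2
      rcases Finset.mem_union.1 (h s hs1 (by omega) (ih (by omega))) with h3 | h3
      · exact h3
      · exact absurd h3 (hX (s + 1) (by omega) hs2)
  exact Finset.disjoint_left.1 hB hl (h1 n hs le_rfl)

private theorem Cutj_down {V : Type} [DecidableEq V] {L X A : Finset V} {p : ℕ → V}
    (hA : A ⊆ L ∪ X) (hh : p 0 ∈ A) {f : ℕ}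
    (h : ∀ s, s + 1 < f → p s ∈ L → p (s + 1) ∈ L ∪ X)
    (hX : ∀ s, s < f → p s ∉ X) : ∀ s, s < f → p s ∈ L := by
  intro s
  induction s with
  | zero =>
    intro h2
    rcases Finset.mem_union.1 (hA hh) with h3 | h3
    · exact h3
    · exact absurd h3 (hX 0 h2)
  | succ s ih =>
    intro h2
    rcases Finset.mem_union.1 (h s h2 (ih (by omega))) with h3 | h3
    · exact h3
    · exact absurd h3 (hX (s + 1) h2)

theorem pCutj (h1 : SMen) : SCutj := by
  classical
  intro V _ _ H A B b n q hq x₀ f hf1 hf2 hno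
  obtain ⟨L, X, hc, hX⟩ : ∃ L X : Finset V,
      Cut (delE H (q x₀ (f - 1)) (q x₀ f)) A B L X ∧ X.card < b := by
    by_contra hcon
    push Not at hcon
    exact hno (h1 V (delE H (q x₀ (f - 1)) (q x₀ f)) A B b hcon)
  -- the other rows are paths without the deleted edge
  have hadj : ∀ x, x ≠ x₀ → ∀ s, s < n x →
      (delE H (q x₀ (f - 1)) (q x₀ f)).Adj (q x s) (q x (s + 1)) := by
    intro x hx s hs
    refine ⟨(hq.pth x).adj s hs, fun h => ?_, fun h => ?_⟩
    · exact hq.dis x x₀ hx s hs.le (f - 1) (by omega) h.1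
    · exact hq.dis x x₀ hx s hs.le f hf2 h.1
  have hpth : ∀ x, x ≠ x₀ → Pth (delE H (q x₀ (f - 1)) (q x₀ f)) A B (n x) (q x) :=
    fun x hx => ⟨(hq.pth x).inj, hadj x hx, (hq.pth x).head, (hq.pth x).last⟩
  have hcx : ∀ x, ∃ c, x ≠ x₀ → c ≤ n x ∧ q x c ∈ X := by
    intro x
    by_cases hx : x = x₀
    · exact ⟨0, fun h => absurd hx h⟩
    · obtain ⟨c, h2, h3⟩ := (hpth x hx).cross hc
      exact ⟨c, fun _ => ⟨h2, h3⟩⟩
  choose c hc' using hcx
  have himg : X = (Finset.univ.erase x₀).image fun x => q x (c x) := by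
    refine (Finset.eq_of_subset_of_card_le ?_ ?_).symm
    · intro v hv
      obtain ⟨x, hx, rfl⟩ := Finset.mem_image.1 hv
      exact (hc' x (Finset.ne_of_mem_erase hx)).2
    · rw [Finset.card_image_of_injOn, Finset.card_erase_of_mem (Finset.mem_univ _),
        Finset.card_univ, Fintype.card_fin]
      · omega
      · intro x hx y hy hxy
        by_contra hne
        have hx' := Finset.ne_of_mem_erase (Finset.mem_coe.1 hx)
        have hy' := Finset.ne_of_mem_erase (Finset.mem_coe.1 hy)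
        exact hq.dis x y hne _ (hc' x hx').1 _ (hc' y hy').1 hxy
  have hmem : ∀ v, v ∈ X → ∃ x, x ≠ x₀ ∧ v = q x (c x) := by
    intro v hv
    rw [himg] at hv
    obtain ⟨x, hx, rfl⟩ := Finset.mem_image.1 hv
    exact ⟨x, Finset.ne_of_mem_erase hx, rfl⟩
  have hx₀X : ∀ s, s ≤ n x₀ → q x₀ s ∉ X := by
    intro s hs hv
    obtain ⟨x, hx, h2⟩ := hmem _ hv
    exact hq.dis x₀ x (Ne.symm hx) s hs (c x) (hc' x hx).1 h2
  have hxX : ∀ x, x ≠ x₀ → ∀ s, s ≤ n x → (q x s ∈ X ↔ s = c x) := by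
    intro x hx s hs
    constructor
    · intro hv
      obtain ⟨y, hy, h2⟩ := hmem _ hv
      by_cases hxy : x = y
      · subst hxy
        exact (hq.pth x).inj s hs _ (hc' x hx).1 h2
      · exact absurd h2 (hq.dis x y hxy s hs (c y) (hc' y hy).1)
    · rintro rfl
      exact (hc' x hx).2
  refine ⟨L, X, hX, hc.dis, fun u hu v huv h2 h3 => hc.far u hu v ⟨huv, h2, h3⟩, ?_, ?_⟩
  · -- the row `x₀`
    have hadj0 : ∀ s, s < n x₀ → s + 1 ≠ f →
        (delE H (q x₀ (f - 1)) (q x₀ f)).Adj (q x₀ s) (q x₀ (s + 1)) := by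
      intro s hs hsf
      refine ⟨(hq.pth x₀).adj s hs, fun h => ?_, fun h => ?_⟩
      · have h2 := (hq.pth x₀).inj s hs.le (f - 1) (by omega) h.1
        omega
      · have h2 := (hq.pth x₀).inj s hs.le f hf2 h.1
        have h3 := (hq.pth x₀).inj (s + 1) hs (f - 1) (by omega) h.2
        omega
    have hdown := Cutj_down (p := q x₀) (f := f) hc.head (hq.pth x₀).head
      (fun s hs h2 => hc.far _ h2 _ (hadj0 s (by omega) (by omega)))
      (fun s hs => hx₀X s (by omega))
    intro s hs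
    refine ⟨hx₀X s hs, fun h2 => ?_, fun h2 => hdown s h2⟩
    by_contra hcon
    exact Cutj_up (p := q x₀) (X := X) hc.last (hq.pth x₀).last (s₀ := s)
      (fun t ht1 ht2 h3 => hc.far _ h3 _ (hadj0 t ht2 (by omega)))
      (fun t _ ht2 => hx₀X t ht2) hs h2
  · intro x hx
    refine ⟨c x, (hc' x hx).1, fun s hs => ⟨hxX x hx s hs, ?_⟩⟩
    have hcn := (hc' x hx).1
    have hdown := Cutj_down (p := q x) (f := c x) hc.head (hq.pth x).head
      (fun s hs h2 => hc.far _ h2 _ (hadj x hx s (by omega)))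
      (fun s hs h2 => by
        have := (hxX x hx s (by omega)).1 h2
        omega)
    refine ⟨fun h2 => ?_, fun h2 => hdown s h2⟩
    by_contra hcon
    rcases Nat.eq_or_lt_of_le (not_lt.1 hcon) with h3 | h3
    · exact Finset.disjoint_left.1 hc.dis h2 ((hxX x hx s hs).2 h3.symm)
    · exact Cutj_up (p := q x) (X := X) hc.last (hq.pth x).last (s₀ := s)
        (fun t ht1 ht2 h4 => hc.far _ h4 _ (hadj x hx t ht2))
        (fun t ht1 ht2 h4 => by
          have := (hxX x hx t ht2).1 h4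
          omega) hs h2

end Pool.Agent.MPd439b2.GT
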