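import Pool.Agent.Lib.MP_d439b2_co.GT.SpecG

/-!
# MP_d439b2_co, the grid theorem: depth of the mesh
-/

set_option autoImplicit false

namespace Pool.Agent.MPd439b2.GT

open Pool.Agent.MPd439b2

theorem Deep_allA_card {V : Type} [DecidableEq V] {m k : ℕ} {A : Fin m → Finset V}
    (h : ∀ i, (A i).card ≤ k) : (allA A).card ≤ m * k := by
  unfold allA
  have := Finset.card_biUnion_le_card_mul Finset.univ A k (fun i _ => h i)
  simpa using this

theorem pDeep (h1 : SBigC) : SDeep := by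
  intro V _ _ G S m k hH C T A hcfg hnb X₁ hX₁ Z hZ
  have hA := Deep_allA_card hcfg.card
  have hX₁c := Finset.card_le_card hX₁
  obtain ⟨D₁, hD1, hD2, hD3, hD4⟩ := h1 V G S _ hH Z (by omega)
  by_cases hne : (D₁ ∩ X₁).Nonempty
  · exact ⟨D₁, hD1, hD3, hD2, hne⟩
  exfalso
  rw [Finset.not_nonempty_iff_eq_empty] at hne
  obtain ⟨D₀, hE1, hE2, hE3, hE4⟩ := h1 V G S _ hH (allA A ∪ Z) (by
    have := Finset.card_union_le (allA A) Z
    omega)
  have hCcl : ∀ u, u ∈ C → ∀ v, G.Adj u v → v ∈ C ∪ allA A := by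
    intro u hu v huv
    by_cases hv : v ∈ C
    · exact Finset.mem_union_left _ hv
    · exact Finset.mem_union_right _ (mem_allA.2 ((hcfg.nbr v).1 ⟨hv, u, hu, huv⟩))
  have hE2' := Finset.disjoint_union_left.1 hE2
  have hDC : D₀ ⊆ C := sub_of_closed hCcl hE1 hE2'.1 (hcfg.big.inter hE3)
  have hDD : D₀ ⊆ D₁ := sub_of_closed hD4 hE1 hE2'.2 (hD3.inter hE3)
  have hmem : ∀ v, v ∈ X₁ → v ∉ D₁ := by
    intro v hv hv'
    have : v ∈ D₁ ∩ X₁ := Finset.mem_inter.2 ⟨hv', hv⟩
    rw [hne] at this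
    exact Finset.notMem_empty v this
  refine hnb X₁ hX₁ ((C ∪ X₁) \ (D₁ ∪ Z)) (Z ∩ (C ∪ X₁)) ⟨?_, ?_, ?_, ⟨D₀, hE1, hE3, ?_, ?_, ?_⟩, ?_⟩
  · rw [Finset.disjoint_left]
    intro v hv hv'
    simp only [Finset.mem_sdiff, Finset.mem_union, Finset.mem_inter] at hv hv'
    tauto
  · intro v hv
    simp only [Finset.mem_sdiff, Finset.mem_union, Finset.mem_inter] at hv ⊢
    tauto
  · intro u hu v huv
    obtain ⟨h2, h3, h4, -⟩ := huv
    have h5 : v ∉ D₁ := by
      intro hv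
      have h6 := hD4 v hv u h2.symm
      exact (Finset.mem_sdiff.1 hu).2 h6
    simp only [Finset.mem_sdiff, Finset.mem_union, Finset.mem_inter] at h4 ⊢
    tauto
  · rw [Finset.disjoint_union_right]
    refine ⟨hE2'.1.symm, ?_⟩
    exact (hE2'.2.symm).mono_right Finset.inter_subset_left
  · rw [Finset.disjoint_left]
    intro v hv hv'
    exact (Finset.mem_sdiff.1 hv').2 (Finset.mem_union_left _ (hDD hv))
  · intro u hu v huv
    have h2 := hE4 u hu v huv
    have h3 := hCcl u (hDC hu) v huv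
    simp only [Finset.mem_union, Finset.mem_inter] at h2 h3 ⊢
    tauto
  · have h2 : X₁ ∩ ((C ∪ X₁) \ (D₁ ∪ Z) ∪ Z ∩ (C ∪ X₁)) = X₁ := by
      ext v
      simp only [Finset.mem_sdiff, Finset.mem_union, Finset.mem_inter]
      constructor
      · exact fun h => h.1
      · intro hv
        have := hmem v hv
        tauto
    rw [h2]
    exact lt_of_le_of_lt (Finset.card_le_card Finset.inter_subset_left) hZ

end Pool.Agent.MPd439b2.GT
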