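import Pool.Agent.Lib.MP_d439b2_co.GT.SpecG

set_option autoImplicit false

namespace Pool.Agent.MPd439b2.GT

open Pool.Agent.MPd439b2

open Classical in
/-- the new tails -/
private noncomputable def ExtA_T {V : Type} [DecidableEq V] {m : ℕ} (T A : Fin m → Finset V)
    (i : Fin m) (y : V) (j : Fin m) : Finset V :=
  if j = i then (if (A i).Nonempty then insert y (T i) else {y}) else T j

open Classical in
/-- the new attachment sets -/
private noncomputable def ExtA_A {V : Type} [DecidableEq V] {m : ℕ} (G : SimpleGraph V)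
    (A : Fin m → Finset V) (C' : Finset V) (i : Fin m) (y : V) (j : Fin m) : Finset V :=
  (if j = i then insert y (A i) else A j).filter (fun v => ∃ u, u ∈ C' ∧ G.Adj u v)

private theorem ExtA_memA {V : Type} [DecidableEq V] {m : ℕ} {G : SimpleGraph V}
    {A : Fin m → Finset V} {C' : Finset V} {i : Fin m} {y : V} {j : Fin m} {v : V} :
    v ∈ ExtA_A G A C' i y j ↔
      ((v ∈ A j ∨ (j = i ∧ v = y)) ∧ ∃ u, u ∈ C' ∧ G.Adj u v) := by
  classical
  unfold ExtA_A
  rw [Finset.mem_filter]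
  by_cases h : j = i
  · subst h
    rw [if_pos rfl, Finset.mem_insert]
    constructor
    · rintro ⟨h1 | h1, h2⟩
      · exact ⟨Or.inr ⟨rfl, h1⟩, h2⟩
      · exact ⟨Or.inl h1, h2⟩
    · rintro ⟨h1 | h1, h2⟩
      · exact ⟨Or.inr h1, h2⟩
      · exact ⟨Or.inl h1.2, h2⟩
  · rw [if_neg h]
    constructor
    · rintro ⟨h1, h2⟩
      exact ⟨Or.inl h1, h2⟩
    · rintro ⟨h1 | h1, h2⟩
      · exact ⟨h1, h2⟩
      · exact absurd h1.1 h

private theorem ExtA_memT {V : Type} [DecidableEq V] {m : ℕ} {T A : Fin m → Finset V}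
    {i : Fin m} {y : V} {j : Fin m} {v : V} (h : v ∈ ExtA_T T A i y j) :
    v ∈ T j ∨ (j = i ∧ v = y) := by
  unfold ExtA_T at h
  by_cases hj : j = i
  · subst hj
    rw [if_pos rfl] at h
    split_ifs at h with h1
    · rcases Finset.mem_insert.1 h with h2 | h2
      · exact Or.inr ⟨rfl, h2⟩
      · exact Or.inl h2
    · exact Or.inr ⟨rfl, Finset.mem_singleton.1 h⟩
  · rw [if_neg hj] at h
    exact Or.inl h

private theorem ExtA_card {V : Type} [DecidableEq V] {m k : ℕ} {A : Fin m → Finset V}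
    (h : ∀ j, (A j).card ≤ k) {i : Fin m} (hi : (A i).card < k) : (allA A).card < m * k := by
  calc (allA A).card ≤ ∑ j, (A j).card := Finset.card_biUnion_le
    _ < ∑ _j : Fin m, k := Finset.sum_lt_sum (fun j _ => h j) ⟨i, Finset.mem_univ i, hi⟩
    _ = m * k := by simp

theorem pExtA (h1 : SBigC) : SExtA := by
  classical
  intro V _ _ G S m k hH C T A hc hex
  obtain ⟨i, hi⟩ := hex
  have hy : ∃ y, y ∈ C ∧ ((A i).Nonempty → ∃ x, x ∈ A i ∧ G.Adj x y) := by
    by_cases hA : (A i).Nonempty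
    · obtain ⟨x, hx⟩ := hA
      obtain ⟨-, u, hu, hux⟩ := (hc.nbr x).2 ⟨i, hx⟩
      exact ⟨u, hu, fun _ => ⟨x, hx, hux.symm⟩⟩
    · obtain ⟨y, hy⟩ := hc.conn.1
      exact ⟨y, Finset.mem_coe.1 hy, fun h => absurd h hA⟩
  obtain ⟨y, hyC, hyA⟩ := hy
  have hcard : (insert y (allA A)).card < 2 * (m * k) := by
    have h2 := ExtA_card hc.card hi
    have h3 := Finset.card_insert_le y (allA A)
    omega
  obtain ⟨C', hC1, hC2, hC3, hC4⟩ := h1 V G S _ hH _ hcard
  have hcl : ∀ u, u ∈ C → ∀ v, G.Adj u v → v ∈ C ∪ allA A := by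
    intro u hu v huv
    rw [Finset.mem_union, mem_allA]
    by_cases hv : v ∈ C
    · exact Or.inl hv
    · exact Or.inr ((hc.nbr v).1 ⟨hv, u, hu, huv⟩)
  have hsub : C' ⊆ C := by
    apply sub_of_closed hcl hC1
    · exact Finset.disjoint_of_subset_left (Finset.subset_insert _ _) hC2
    · exact hc.big.inter hC3
  have hyC' : y ∉ C' := fun h =>
    Finset.disjoint_left.1 hC2 (Finset.mem_insert_self y _) h
  have hyT : ∀ j, y ∉ T j := fun j h => Finset.disjoint_left.1 (hc.out j) h hyC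
  refine ⟨C', ExtA_T T A i y, ExtA_A G A C' i y, ⟨hC1, hC3, ?_, ?_, ?_, ?_, ?_, ?_⟩, ?_⟩
  · -- nbr
    intro v
    constructor
    · rintro ⟨hv, u, hu, huv⟩
      have h2 := hC4 u hu v huv
      rw [Finset.mem_union, Finset.mem_insert, mem_allA] at h2
      rcases h2 with h2 | h2 | ⟨j, h2⟩
      · exact absurd h2 hv
      · exact ⟨i, ExtA_memA.2 ⟨Or.inr ⟨rfl, h2⟩, u, hu, huv⟩⟩
      · exact ⟨j, ExtA_memA.2 ⟨Or.inl h2, u, hu, huv⟩⟩
    · rintro ⟨j, hj⟩
      rw [ExtA_memA] at hj
      obtain ⟨h2, h3⟩ := hj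
      refine ⟨fun hv => ?_, h3⟩
      rcases h2 with h2 | ⟨-, h2⟩
      · exact Finset.disjoint_left.1 hC2 (Finset.mem_insert_of_mem (mem_allA.2 ⟨j, h2⟩)) hv
      · subst h2
        exact hyC' hv
  · -- card
    intro j
    unfold ExtA_A
    refine (Finset.card_filter_le _ _).trans ?_
    split_ifs with hj
    · have h3 := Finset.card_insert_le y (A i)
      omega
    · exact hc.card j
  · -- sub
    intro j v hv
    rw [ExtA_memA] at hv
    obtain ⟨h2, -⟩ := hv
    unfold ExtA_T
    by_cases hj : j = i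
    · subst hj
      rw [if_pos rfl]
      rcases h2 with h2 | ⟨-, h2⟩
      · rw [if_pos ⟨v, h2⟩]
        exact Finset.mem_insert_of_mem (hc.sub j h2)
      · subst h2
        split_ifs
        · exact Finset.mem_insert_self _ _
        · exact Finset.mem_singleton_self _
    · rw [if_neg hj]
      rcases h2 with h2 | ⟨h2, -⟩
      · exact hc.sub j h2
      · exact absurd h2 hj
  · -- out
    intro j
    rw [Finset.disjoint_left]
    intro v hv hv'
    rcases ExtA_memT hv with h2 | ⟨-, h2⟩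
    · exact Finset.disjoint_left.1 (hc.out j) h2 (hsub hv')
    · subst h2
      exact hyC' hv'
  · -- dis
    intro j j' hjj
    rw [Finset.disjoint_left]
    intro v hv hv'
    rcases ExtA_memT hv with h2 | ⟨h2, h3⟩
    · rcases ExtA_memT hv' with h4 | ⟨-, h4⟩
      · exact Finset.disjoint_left.1 (hc.dis j j' hjj) h2 h4
      · subst h4
        exact hyT j h2
    · subst h3
      rcases ExtA_memT hv' with h4 | ⟨h4, -⟩
      · exact hyT j' h4
      · exact hjj (h2.trans h4.symm)
  · -- con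
    rintro j ⟨v, hv⟩
    rw [ExtA_memA] at hv
    obtain ⟨h2, -⟩ := hv
    unfold ExtA_T
    by_cases hj : j = i
    · subst hj
      rw [if_pos rfl]
      by_cases hA : (A j).Nonempty
      · rw [if_pos hA, Finset.coe_insert]
        obtain ⟨x, hx, hxy⟩ := hyA hA
        exact (hc.con j hA).insert ⟨x, Finset.mem_coe.2 (hc.sub j hx), hxy⟩
      · rw [if_neg hA, Finset.coe_singleton]
        exact Conn.singleton G y
    · rw [if_neg hj]
      rcases h2 with h2 | ⟨h2, -⟩
      · exact hc.con j ⟨v, h2⟩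
      · exact absurd h2 hj
  · apply Finset.card_lt_card
    rw [Finset.ssubset_iff_of_subset hsub]
    exact ⟨y, hyC, hyC'⟩

end Pool.Agent.MPd439b2.GT
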