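import Pool.Agent.Lib.MP_d439b2_co.GT.SpecG

set_option autoImplicit false

/-!
# MP_d439b2_co, grid theorem: extension of a configuration along a linkage
-/

namespace Pool.Agent.MPd439b2.GT

open Pool.Agent.MPd439b2

/-- **Extension of a configuration along a linkage.** -/
theorem pExtC : SExtC := by
  intro V _ _ G S m k C T A hC X₁ hX₁ L Z hB hlk
  classical
  obtain ⟨n, p, hp⟩ := hlk
  obtain ⟨D, hD1, hD2, hD3, hD4, hD5⟩ := hB.big
  have hCcl : ∀ u, u ∈ C → ∀ v, G.Adj u v → v ∈ C ∪ allA A := by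
    intro u hu v huv
    by_cases hv : v ∈ C
    · exact Finset.mem_union_left _ hv
    · exact Finset.mem_union_right _ (mem_allA.2 ((hC.nbr v).1 ⟨hv, u, hu, huv⟩))
  have hDA : ∀ v, v ∈ D → v ∉ allA A := fun v hv hv' =>
    Finset.disjoint_left.1 hD3 hv (Finset.mem_union_left _ hv')
  have hDZ : ∀ v, v ∈ D → v ∉ Z := fun v hv hv' =>
    Finset.disjoint_left.1 hD3 hv (Finset.mem_union_right _ hv')
  have hDL : ∀ v, v ∈ D → v ∉ L := fun v hv hv' => Finset.disjoint_left.1 hD4 hv hv'
  have hDC : D ⊆ C := by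
    apply sub_of_closed hCcl hD1 _ (hC.big.inter hD2)
    rw [Finset.disjoint_left]
    intro v hv hv'
    exact hDA v hv' hv
  have hTC : ∀ j v, v ∈ T j → v ∉ C := fun j v hv hv' =>
    Finset.disjoint_left.1 (hC.out j) hv hv'
  have hAC : ∀ v, v ∈ allA A → v ∉ C := by
    intro v hv
    obtain ⟨j, hj⟩ := mem_allA.1 hv
    exact hTC j v (hC.sub j hj)
  have hTu : ∀ v j j', v ∈ T j → v ∈ T j' → j = j' := by
    intro v j j' h1 h2
    by_contra hne
    exact Finset.disjoint_left.1 (hC.dis j j' hne) h1 h2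
  -- the paths
  have hmem : ∀ i s, s ≤ n i → p i s ∈ L ∪ Z := by
    intro i s hs
    rcases Nat.eq_zero_or_pos s with h1 | h1
    · rw [h1]
      exact (Finset.mem_inter.1 (hp.pth i).head).2
    · have h2 := (hp.pth i).adj (s - 1) (by omega)
      rw [Nat.sub_add_cancel h1] at h2
      exact h2.2.2
  have hG : ∀ i s, s < n i → G.Adj (p i s) (p i (s + 1)) := fun i s hs =>
    ((hp.pth i).adj s hs).1.1
  have hσ : ∀ i, ∃ s, s ≤ n i ∧ p i s ∈ allA A ∧
      ∀ s', s < s' → s' ≤ n i → p i s' ∉ allA A := by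
    intro i
    refine ⟨Nat.findGreatest (fun s => p i s ∈ allA A) (n i), Nat.findGreatest_le _, ?_, ?_⟩
    · apply Nat.findGreatest_spec (P := fun s => p i s ∈ allA A) (Nat.zero_le _)
      exact hX₁ (Finset.mem_inter.1 (hp.pth i).head).1
    · intro s' h1 h2
      exact Nat.findGreatest_is_greatest h1 h2
  choose σ hσ1 hσ2 hσ3 using hσ
  have hJ : ∀ i, ∃ j, p i (σ i) ∈ A j := fun i => mem_allA.1 (hσ2 i)
  choose J hJ using hJ
  have hxX : ∀ i, p i (σ i) ∈ X₁ := by
    intro i
    have h1 := hB.sub (hmem i (σ i) (hσ1 i))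
    rcases Finset.mem_union.1 h1 with h2 | h2
    · exact absurd h2 (hAC _ (hσ2 i))
    · exact h2
  have hsC : ∀ i s, σ i < s → s ≤ n i → p i s ∈ C := by
    intro i s h1 h2
    rcases Finset.mem_union.1 (hB.sub (hmem i s h2)) with h3 | h3
    · exact h3
    · exact absurd (hX₁ h3) (hσ3 i s h1 h2)
  -- ends of the paths
  have hend : ∀ z, z ∈ Z → ∃ i, p i (n i) = z := by
    have h1 : Function.Injective fun i : Fin Z.card => p i (n i) := by
      intro i j hij
      by_contra hne
      exact hp.dis i j hne _ le_rfl _ le_rfl hij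
    have h2 : (Finset.univ.image fun i : Fin Z.card => p i (n i)) = Z := by
      apply Finset.eq_of_subset_of_card_le
      · intro v hv
        obtain ⟨i, -, rfl⟩ := Finset.mem_image.1 hv
        exact (hp.pth i).last
      · rw [Finset.card_image_of_injective _ h1]
        simp
    intro z hz
    rw [← h2] at hz
    obtain ⟨i, -, hi⟩ := Finset.mem_image.1 hz
    exact ⟨i, hi⟩
  -- the new sets
  let T' : Fin m → Finset V := fun j => T j ∪
    (Finset.univ.filter fun i => J i = j).biUnion fun i => seg (p i) (σ i) (n i + 1)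
  let A₀ : Fin m → Finset V := fun j => (A j \ (L ∪ Z)) ∪
    (Finset.univ.filter fun i => J i = j).image fun i => p i (n i)
  let A' : Fin m → Finset V := fun j => (A₀ j).filter fun v => ∃ u, u ∈ D ∧ G.Adj u v
  have hT' : ∀ j v, v ∈ T' j ↔ v ∈ T j ∨ ∃ i, J i = j ∧ ∃ s, σ i ≤ s ∧ s ≤ n i ∧ p i s = v := by
    intro j v
    simp only [T', Finset.mem_union, Finset.mem_biUnion, Finset.mem_filter, Finset.mem_univ,
      true_and, mem_seg]
    constructor
    · rintro (h1 | ⟨i, h1, s, h2, h3, h4⟩)
      · exact Or.inl h1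
      · exact Or.inr ⟨i, h1, s, h2, by omega, h4⟩
    · rintro (h1 | ⟨i, h1, s, h2, h3, h4⟩)
      · exact Or.inl h1
      · exact Or.inr ⟨i, h1, s, h2, by omega, h4⟩
  have hA₀ : ∀ j v, v ∈ A₀ j ↔ (v ∈ A j ∧ v ∉ L ∪ Z) ∨ ∃ i, J i = j ∧ p i (n i) = v := by
    intro j v
    simp only [A₀, Finset.mem_union, Finset.mem_sdiff, Finset.mem_image, Finset.mem_filter,
      Finset.mem_univ, true_and]
  have hA' : ∀ j v, v ∈ A' j ↔ v ∈ A₀ j ∧ ∃ u, u ∈ D ∧ G.Adj u v := by
    intro j v
    simp only [A', Finset.mem_filter]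
  -- a vertex of a segment
  have hsegv : ∀ i s, σ i ≤ s → s ≤ n i → (s = σ i ∧ p i s ∈ T (J i)) ∨ p i s ∈ C := by
    intro i s h1 h2
    rcases Nat.eq_or_lt_of_le h1 with h3 | h3
    · left
      refine ⟨h3.symm, ?_⟩
      rw [← h3]
      exact hC.sub _ (hJ i)
    · exact Or.inr (hsC i s h3 h2)
  have hdisT : ∀ j j' v, v ∈ T' j → v ∈ T' j' → j = j' := by
    intro j j' v h1 h2
    rcases (hT' j v).1 h1 with h3 | ⟨i, h3, s, h4, h5, h6⟩ <;>
      rcases (hT' j' v).1 h2 with h7 | ⟨i', h7, s', h8, h9, h10⟩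
    · exact hTu v j j' h3 h7
    · rcases hsegv i' s' h8 h9 with h11 | h11
      · rw [h10, h7] at h11
        exact hTu v j j' h3 h11.2
      · rw [h10] at h11
        exact absurd h11 (hTC j v h3)
    · rcases hsegv i s h4 h5 with h11 | h11
      · rw [h6, h3] at h11
        exact hTu v j j' h11.2 h7
      · rw [h6] at h11
        exact absurd h11 (hTC j' v h7)
    · have h11 : i = i' := by
        by_contra hne
        exact hp.dis i i' hne s h5 s' h9 (h6.trans h10.symm)
      rw [← h3, ← h7, h11]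
  have hcfg : Cfg G S m k D T' A' := by
    refine ⟨hD1, hD2, ?_, ?_, ?_, ?_, ?_, ?_⟩
    · intro v
      constructor
      · rintro ⟨h1, u, hu, huv⟩
        have h2 := hD5 u hu v huv
        rcases Finset.mem_union.1 h2 with h3 | h3
        · exact absurd h3 h1
        by_cases hvZ : v ∈ Z
        · obtain ⟨i, hi⟩ := hend v hvZ
          exact ⟨J i, (hA' _ _).2 ⟨(hA₀ _ _).2 (Or.inr ⟨i, rfl, hi⟩), u, hu, huv⟩⟩
        · rcases Finset.mem_union.1 h3 with h4 | h4
          swap
          · exact absurd h4 hvZ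
          obtain ⟨j, hj⟩ := mem_allA.1 h4
          refine ⟨j, (hA' _ _).2 ⟨(hA₀ _ _).2 (Or.inl ⟨hj, ?_⟩), u, hu, huv⟩⟩
          intro h5
          have hvL : v ∈ L := (Finset.mem_union.1 h5).resolve_right hvZ
          have hvX : v ∈ X₁ := (Finset.mem_union.1 (hB.sub h5)).resolve_left (hAC v h4)
          have h6 : (res G C X₁).Adj v u :=
            ⟨huv.symm, Finset.mem_union_right _ hvX, Finset.mem_union_left _ (hDC hu),
              Or.inr (hDC hu)⟩
          rcases Finset.mem_union.1 (hB.far v hvL u h6) with h7 | h7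
          · exact hDL u hu h7
          · exact hDZ u hu h7
      · rintro ⟨j, hj⟩
        obtain ⟨h1, h2⟩ := (hA' _ _).1 hj
        refine ⟨?_, h2⟩
        rcases (hA₀ _ _).1 h1 with h3 | ⟨i, -, h3⟩
        · intro h4
          exact hDA v h4 (mem_allA.2 ⟨j, h3.1⟩)
        · intro h4
          apply hDZ v h4
          rw [← h3]
          exact (hp.pth i).last
    · intro j
      calc (A' j).card ≤ (A₀ j).card := Finset.card_filter_le _ _
        _ ≤ (A j \ (L ∪ Z)).card +
            ((Finset.univ.filter fun i => J i = j).image fun i => p i (n i)).card :=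
          Finset.card_union_le _ _
        _ ≤ (A j \ (L ∪ Z)).card + (A j ∩ (L ∪ Z)).card := by
          apply Nat.add_le_add_left
          refine Finset.card_image_le.trans ?_
          calc (Finset.univ.filter fun i => J i = j).card
              = ((Finset.univ.filter fun i => J i = j).image fun i => p i (σ i)).card := by
                symm
                apply Finset.card_image_of_injective
                intro i i' hii
                by_contra hne
                exact hp.dis i i' hne _ (hσ1 i) _ (hσ1 i') hii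
            _ ≤ _ := by
                apply Finset.card_le_card
                intro v hv
                obtain ⟨i, hi, rfl⟩ := Finset.mem_image.1 hv
                have h1 : J i = j := (Finset.mem_filter.1 hi).2
                exact Finset.mem_inter.2 ⟨h1 ▸ hJ i, hmem i _ (hσ1 i)⟩
        _ = (A j).card := by
          rw [Nat.add_comm]
          exact Finset.card_inter_add_card_sdiff (A j) (L ∪ Z)
        _ ≤ k := hC.card j
    · intro j v hv
      obtain ⟨h1, -⟩ := (hA' _ _).1 hv
      rcases (hA₀ _ _).1 h1 with h2 | ⟨i, h2, h3⟩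
      · exact (hT' _ _).2 (Or.inl (hC.sub j h2.1))
      · exact (hT' _ _).2 (Or.inr ⟨i, h2, n i, hσ1 i, le_rfl, h3⟩)
    · intro j
      rw [Finset.disjoint_left]
      intro v hv hvD
      rcases (hT' _ _).1 hv with h1 | ⟨i, h1, s, h2, h3, h4⟩
      · exact hTC j v h1 (hDC hvD)
      · have h5 := hmem i s h3
        rw [h4] at h5
        rcases Finset.mem_union.1 h5 with h6 | h6
        · exact hDL v hvD h6
        · exact hDZ v hvD h6
    · intro j j' hne
      rw [Finset.disjoint_left]
      intro v hv hv'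
      exact hne (hdisT j j' v hv hv')
    · rintro j ⟨v, hv⟩
      have hAj : (A j).Nonempty := by
        obtain ⟨h1, -⟩ := (hA' _ _).1 hv
        rcases (hA₀ _ _).1 h1 with h2 | ⟨i, h2, h3⟩
        · exact ⟨v, h2.1⟩
        · exact ⟨_, h2 ▸ hJ i⟩
      have hTj := hC.con j hAj
      have h1 : (T' j : Set V) = (T j : Set V) ∪
          ⋃ i : {i : Fin Z.card // J i = j}, (seg (p i) (σ i) (n i + 1) : Set V) := by
        ext w
        rw [Finset.mem_coe, hT']
        simp only [Set.mem_union, Finset.mem_coe, Set.mem_iUnion, mem_seg, Subtype.exists,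
          exists_prop]
        constructor
        · rintro (h2 | ⟨i, h2, s, h3, h4, h5⟩)
          · exact Or.inl h2
          · exact Or.inr ⟨i, h2, s, h3, by omega, h5⟩
        · rintro (h2 | ⟨i, h2, s, h3, h4, h5⟩)
          · exact Or.inl h2
          · exact Or.inr ⟨i, h2, s, h3, by omega, h5⟩
      rw [h1]
      apply hTj.union_iUnion
      · rintro ⟨i, hi⟩
        exact conn_seg (p := p i) (a := σ i) (b := n i + 1) (by have := hσ1 i; omega)
          (fun s _ hs => hG i s (by omega))
      · rintro ⟨i, hi⟩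
        left
        refine ⟨p i (σ i), Finset.mem_coe.2 (hC.sub j (hi ▸ hJ i)), Finset.mem_coe.2 ?_⟩
        have h2 := hσ1 i
        exact mem_seg.2 ⟨σ i, le_rfl, Nat.lt_succ_of_le h2, rfl⟩
  refine ⟨D, T', A', hcfg, ?_⟩
  apply Finset.card_lt_card
  refine ⟨hDC, fun hCD => ?_⟩
  have hDeq : D = C := Finset.Subset.antisymm hDC hCD
  have hLZ : L ∪ Z ⊆ X₁ := by
    intro v hv
    rcases Finset.mem_union.1 (hB.sub hv) with h1 | h1
    · rw [← hDeq] at h1
      rcases Finset.mem_union.1 hv with h2 | h2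
      · exact absurd h2 (hDL v h1)
      · exact absurd h2 (hDZ v h1)
    · exact h1
  have hLe : ∀ v, v ∉ L := by
    intro v hv
    have h1 := hLZ (Finset.mem_union_left _ hv)
    obtain ⟨h2, u, hu, huv⟩ := (hC.nbr v).2 (mem_allA.1 (hX₁ h1))
    have h3 : (res G C X₁).Adj v u :=
      ⟨huv.symm, Finset.mem_union_right _ h1, Finset.mem_union_left _ hu, Or.inr hu⟩
    rw [← hDeq] at hu
    rcases Finset.mem_union.1 (hB.far v hv u h3) with h4 | h4
    · exact hDL u hu h4
    · exact hDZ u hu h4
  have h1 : X₁ ∩ (L ∪ Z) ⊆ Z := by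
    intro v hv
    rcases Finset.mem_union.1 (Finset.mem_inter.1 hv).2 with h2 | h2
    · exact absurd h2 (hLe v)
    · exact h2
  have h2 := Finset.card_le_card h1
  have h3 := hB.lt
  omega

end Pool.Agent.MPd439b2.GT
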