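import Pool.Agent.Lib.MP_d439b2_co.GT.SpecG

/-!
# MP_d439b2_co, the grid theorem, module FinG: the deep grid model
-/

set_option autoImplicit false

namespace Pool.Agent.MPd439b2.GT

open Pool.Agent.MPd439b2

section

variable {V : Type} [DecidableEq V] {G : SimpleGraph V}

private theorem FinG_sub {C : Finset V} {r : ℕ} (hr : 2 ≤ r) {g : Fin r → Fin r → Finset V}
    (hg : GridM (ins G C) r g) (i j : Fin r) : g i j ⊆ C := by
  intro v hv
  by_contra hvC
  -- `g i j` is `{v}`
  have h1 : ({v} : Set V) = (g i j : Set V) := by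
    by_contra hne
    obtain ⟨b, hb, a, -, hab⟩ := (hg.conn i j).2 {v}
      (Set.singleton_subset_iff.2 (Finset.mem_coe.2 hv)) (Set.singleton_nonempty v) hne
    have hbv : b = v := hb
    subst hbv
    exact hvC hab.2.1
  have h2 : ∃ (j' : Fin r), Tch (ins G C) (g i j : Set V) (g i j' : Set V) := by
    by_cases hj : j.val + 1 < r
    · exact ⟨⟨j.val + 1, hj⟩, hg.hor i j ⟨j.val + 1, hj⟩ rfl⟩
    · have hj1 : j.val - 1 < r := by omega
      refine ⟨⟨j.val - 1, hj1⟩, (hg.hor i ⟨j.val - 1, hj1⟩ j ?_).symm⟩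
      have := j.isLt
      show j.val - 1 + 1 = j.val
      omega
  obtain ⟨j', a, ha, b, -, hab⟩ := h2
  rw [← h1] at ha
  have hav : a = v := ha
  subst hav
  exact hvC hab.2.1

private theorem FinG_row {r : ℕ} {g : Fin r → Finset V} (hr : 0 < r)
    (hc : ∀ j, Conn G (g j : Set V))
    (hh : ∀ j j' : Fin r, j.val + 1 = j'.val → Tch G (g j : Set V) (g j' : Set V)) :
    Conn G ((Finset.univ.biUnion g : Finset V) : Set V) := by
  have key : ∀ s : ℕ, s < r →
      Conn G (((Finset.univ.filter (fun j : Fin r => j.val ≤ s)).biUnion g : Finset V) : Set V) := by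
    intro s
    induction s with
    | zero =>
      intro hs
      have h1 : (Finset.univ.filter (fun j : Fin r => j.val ≤ 0)).biUnion g = g ⟨0, hs⟩ := by
        ext v
        simp only [Finset.mem_biUnion, Finset.mem_filter, Finset.mem_univ, true_and]
        constructor
        · rintro ⟨j, hj, hv⟩
          have : j = ⟨0, hs⟩ := Fin.ext (by simpa using hj)
          rwa [this] at hv
        · intro hv
          exact ⟨⟨0, hs⟩, le_refl _, hv⟩
      rw [h1]
      exact hc _
    | succ s ih =>
      intro hs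
      have h1 : (Finset.univ.filter (fun j : Fin r => j.val ≤ s + 1)).biUnion g =
          (Finset.univ.filter (fun j : Fin r => j.val ≤ s)).biUnion g ∪ g ⟨s + 1, hs⟩ := by
        ext v
        simp only [Finset.mem_biUnion, Finset.mem_filter, Finset.mem_univ, true_and, Finset.mem_union]
        constructor
        · rintro ⟨j, hj, hv⟩
          by_cases hjs : j.val ≤ s
          · exact Or.inl ⟨j, hjs, hv⟩
          · have : j = ⟨s + 1, hs⟩ := Fin.ext (by
              show j.val = s + 1
              omega)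
            rw [this] at hv
            exact Or.inr hv
        · rintro (⟨j, hj, hv⟩ | hv)
          · exact ⟨j, by omega, hv⟩
          · exact ⟨⟨s + 1, hs⟩, le_refl _, hv⟩
      rw [h1, Finset.coe_union]
      apply Conn.union (ih (by omega)) (hc _)
      right
      refine (hh ⟨s, by omega⟩ ⟨s + 1, hs⟩ rfl).mono ?_ subset_rfl
      intro v hv
      rw [Finset.mem_coe] at hv ⊢
      exact Finset.mem_biUnion.2 ⟨⟨s, by omega⟩, by simp, hv⟩
  have h := key (r - 1) (by omega)
  have h1 : (Finset.univ.filter (fun j : Fin r => j.val ≤ r - 1)) = Finset.univ := by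
    rw [Finset.filter_true_of_mem]
    intro j _
    have := j.isLt
    omega
  rwa [h1] at h

end

/-- **The deep grid model.** -/
theorem pFinG : SFinG := by
  intro V _ _ G S C m k r T A hr hM g st x hg hinj hx
  have hgC := FinG_sub hr hg
  have hxC : ∀ i, x (st i) ∉ C := by
    intro i hi
    obtain ⟨l, hl⟩ := mem_allA.1 (hx i).1
    exact Finset.disjoint_left.1 (hM.out l) (hM.sub l hl) hi
  set g' : Fin r → Fin r → Finset V := fun i j => if j.val = 0 then insert (x (st i)) (g i j) else g i j
    with hg'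
  have hmem : ∀ i j v, v ∈ g' i j ↔ (j.val = 0 ∧ v = x (st i)) ∨ v ∈ g i j := by
    intro i j v
    simp only [hg']
    by_cases hj : j.val = 0
    · simp [hj]
    · simp [hj]
  have hsub : ∀ i j, g i j ⊆ g' i j := fun i j v hv => (hmem i j v).2 (Or.inr hv)
  have hinsG : ∀ u v, (ins G C).Adj u v → G.Adj u v := fun u v h => h.1
  have hconn : ∀ i j, Conn G (g i j : Set V) := fun i j =>
    (hg.conn i j).mono_graph (fun u _ v _ h => hinsG u v h)
  have htch : ∀ i j i' j', Tch (ins G C) (g i j : Set V) (g i' j' : Set V) →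
      Tch G (g' i j : Set V) (g' i' j' : Set V) := by
    rintro i j i' j' ⟨a, ha, b, hb, hab⟩
    exact ⟨a, Finset.mem_coe.2 (hsub i j (Finset.mem_coe.1 ha)), b,
      Finset.mem_coe.2 (hsub i' j' (Finset.mem_coe.1 hb)), hinsG _ _ hab⟩
  have hG' : GridM G r g' := by
    refine ⟨?_, ?_, ?_, ?_⟩
    · intro i j
      by_cases hj : j.val = 0
      · simp only [hg', hj, if_true]
        rw [Finset.coe_insert]
        exact (hconn i j).insert ⟨st i, Finset.mem_coe.2 ((hx i).2.2 j hj), (hx i).2.1.symm⟩
      · simp only [hg', hj, if_false]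
        exact hconn i j
    · intro i j i' j' hne
      rw [Finset.disjoint_left]
      intro v hv hv'
      rw [hmem] at hv hv'
      rcases hv with ⟨hj, hv⟩ | hv <;> rcases hv' with ⟨hj', hv'⟩ | hv'
      · apply hne
        have h1 : i = i' := hinj (show x (st i) = x (st i') by rw [← hv, ← hv'])
        have h2 : j = j' := Fin.ext (by rw [hj, hj'])
        rw [h1, h2]
      · rw [hv] at hv'
        exact hxC i (hgC i' j' hv')
      · rw [hv'] at hv
        exact hxC i' (hgC i j hv)
      · exact Finset.disjoint_left.1 (hg.dis i j i' j' hne) hv hv'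
    · intro i j j' h
      exact htch _ _ _ _ (hg.hor i j j' h)
    · intro i i' j h
      exact htch _ _ _ _ (hg.ver i i' j h)
  refine ⟨g', hG', ?_⟩
  intro Z hZ
  classical
  set I : Finset (Fin r) := Finset.univ.filter (fun i => ∀ j, Disjoint (g' i j) Z) with hI
  -- the rows meeting `Z`
  have hIc : (Finset.univ \ I).card ≤ Z.card := by
    have h1 : ∀ i : Fin r, i ∉ I → ∃ z, z ∈ Z ∧ ∃ j, z ∈ g' i j := by
      intro i hi
      by_contra hcon
      push Not at hcon
      apply hi
      rw [hI, Finset.mem_filter]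
      refine ⟨Finset.mem_univ _, fun j => ?_⟩
      rw [Finset.disjoint_left]
      intro z hz hz'
      exact hcon z hz' j hz
    have h2 : ∀ i : Fin r, ∃ z, i ∉ I → z ∈ Z ∧ ∃ j, z ∈ g' i j := by
      intro i
      by_cases hi : i ∈ I
      · exact ⟨st i, fun h => absurd hi h⟩
      · obtain ⟨z, hz⟩ := h1 i hi
        exact ⟨z, fun _ => hz⟩
    choose f hf using h2
    apply Finset.card_le_card_of_injOn f
    · intro i hi
      have hi' : i ∉ I := (Finset.mem_sdiff.1 (Finset.mem_coe.1 hi)).2
      exact Finset.mem_coe.2 (hf i hi').1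
    · intro i hi i' hi' hff
      have hi1 : i ∉ I := (Finset.mem_sdiff.1 (Finset.mem_coe.1 hi)).2
      have hi1' : i' ∉ I := (Finset.mem_sdiff.1 (Finset.mem_coe.1 hi')).2
      obtain ⟨-, j, hj⟩ := hf i hi1
      obtain ⟨-, j', hj'⟩ := hf i' hi1'
      by_contra hne
      rw [← hff] at hj'
      exact Finset.disjoint_left.1 (hG'.dis i j i' j' (fun h => hne (Prod.mk.inj h).1)) hj hj'
  have hIcard : Z.card < I.card := by
    have h1 := Finset.card_sdiff_add_card_eq_card (Finset.subset_univ I)
    rw [Finset.card_univ, Fintype.card_fin] at h1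
    omega
  set X₁ : Finset V := I.image (fun i => x (st i)) with hX₁
  have hX₁card : X₁.card = I.card := Finset.card_image_of_injective _ hinj
  have hX₁A : X₁ ⊆ allA A := by
    intro v hv
    obtain ⟨i, -, rfl⟩ := Finset.mem_image.1 hv
    exact (hx i).1
  obtain ⟨D, hD1, hD2, hD3, hD4⟩ := hM.deep X₁ hX₁A Z (by omega)
  obtain ⟨v, hv⟩ := hD4
  obtain ⟨hvD, hvX⟩ := Finset.mem_inter.1 hv
  obtain ⟨i, hi, rfl⟩ := Finset.mem_image.1 hvX
  have hrow : Conn G ((Finset.univ.biUnion (g' i) : Finset V) : Set V) :=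
    FinG_row (by omega) (hG'.conn i) (hG'.hor i)
  have hxi : x (st i) ∈ Finset.univ.biUnion (g' i) := by
    refine Finset.mem_biUnion.2 ⟨⟨0, by omega⟩, Finset.mem_univ _, ?_⟩
    rw [hmem]
    exact Or.inl ⟨rfl, rfl⟩
  refine ⟨i, D ∪ Finset.univ.biUnion (g' i), ?_, hD2.mono Finset.subset_union_left, ?_, ?_⟩
  · rw [Finset.coe_union]
    exact hD1.union hrow (Or.inl ⟨x (st i), Finset.mem_coe.2 hvD, Finset.mem_coe.2 hxi⟩)
  · rw [Finset.disjoint_union_right]
    refine ⟨hD3, ?_⟩
    rw [Finset.disjoint_right]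
    intro v hv hvZ
    obtain ⟨j, -, hj⟩ := Finset.mem_biUnion.1 hv
    have h1 : ∀ j, Disjoint (g' i j) Z := by
      rw [hI, Finset.mem_filter] at hi
      exact hi.2
    exact Finset.disjoint_left.1 (h1 j) hj hvZ
  · intro j
    exact (Finset.subset_biUnion_of_mem (g' i) (Finset.mem_univ j)).trans Finset.subset_union_right

end Pool.Agent.MPd439b2.GT
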