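import Pool.Agent.Lib.MP_d439b2_co.GT.SpecG

set_option autoImplicit false

namespace Pool.Agent.MPd439b2.GT

open Pool.Agent.MPd439b2

/-- the branch sets -/
private def FinK_b {V : Type} [DecidableEq V] {t : ℕ} (T : Fin t → Finset V)
    (q : Fin t → Fin t → ℕ → V) (l : Fin t → Fin t → ℕ) (i : Fin t) : Finset V :=
  T i ∪ (Finset.univ.filter (fun j => j ≠ i)).biUnion (fun j => seg (q i j) 0 (l i j + 1))

private theorem FinK_mem {V : Type} [DecidableEq V] {t : ℕ} {T : Fin t → Finset V}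
    {q : Fin t → Fin t → ℕ → V} {l : Fin t → Fin t → ℕ} {i : Fin t} {v : V} :
    v ∈ FinK_b T q l i ↔ v ∈ T i ∨ ∃ j, j ≠ i ∧ ∃ s, s ≤ l i j ∧ q i j s = v := by
  unfold FinK_b
  simp only [Finset.mem_union, Finset.mem_biUnion, Finset.mem_filter, Finset.mem_univ, true_and,
    mem_seg]
  constructor
  · rintro (h | ⟨j, hj, s, -, h2, h3⟩)
    · exact Or.inl h
    · exact Or.inr ⟨j, hj, s, by omega, h3⟩
  · rintro (h | ⟨j, hj, s, h2, h3⟩)
    · exact Or.inl h
    · exact Or.inr ⟨j, hj, s, Nat.zero_le _, by omega, h3⟩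

theorem pFinK : SFinK := by
  intro V _ _ G S C t k T A htk hM q l hq hd
  -- connectedness
  have hconn : ∀ i, Conn G (FinK_b T q l i : Set V) := by
    intro i
    have h1 : ((FinK_b T q l i : Finset V) : Set V) =
        (T i : Set V) ∪ ⋃ j : {j : Fin t // j ≠ i}, (seg (q i j.1) 0 (l i j.1 + 1) : Set V) := by
      ext v
      simp only [Finset.mem_coe, FinK_mem, Set.mem_union, Set.mem_iUnion, mem_seg]
      constructor
      · rintro (h | ⟨j, hj, s, h2, h3⟩)
        · exact Or.inl h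
        · exact Or.inr ⟨⟨j, hj⟩, s, Nat.zero_le _, Nat.lt_succ_of_le h2, h3⟩
      · rintro (h | ⟨⟨j, hj⟩, s, -, h2, h3⟩)
        · exact Or.inl h
        · exact Or.inr ⟨j, hj, s, Nat.le_of_lt_succ h2, h3⟩
    rw [h1]
    apply (hM.con i).union_iUnion
    · rintro ⟨j, hj⟩
      apply conn_seg (Nat.succ_pos _)
      intro s _ hs
      exact (hq i j (Ne.symm hj)).2.1 s (by simpa using hs)
    · rintro ⟨j, hj⟩
      right
      obtain ⟨x, hx, hx2⟩ := (hq i j (Ne.symm hj)).2.2.1
      exact ⟨x, Finset.mem_coe.2 (hM.sub i hx), q i j 0,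
        Finset.mem_coe.2 (mem_seg.2 ⟨0, le_rfl, Nat.succ_pos _, rfl⟩), hx2⟩
  have hdis : ∀ i j, i ≠ j → Disjoint (FinK_b T q l i) (FinK_b T q l j) := by
    intro i j hij
    rw [Finset.disjoint_left]
    intro v hv hv'
    rw [FinK_mem] at hv hv'
    rcases hv with hv | ⟨j1, hj1, s, hs, rfl⟩
    · rcases hv' with hv' | ⟨j2, hj2, s', hs', rfl⟩
      · exact Finset.disjoint_left.1 (hM.dis i j hij) hv hv'
      · exact Finset.disjoint_left.1 (hM.out i) hv ((hq j j2 (Ne.symm hj2)).1 s' hs')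
    · rcases hv' with hv' | ⟨j2, hj2, s', hs', h⟩
      · exact Finset.disjoint_left.1 (hM.out j) hv' ((hq i j1 (Ne.symm hj1)).1 s hs)
      · exact hd i j1 j j2 (Ne.symm hj1) (Ne.symm hj2)
          (fun h' => hij (Prod.mk.inj h').1) s hs s' hs' h.symm
  refine ⟨FinK_b T q l, hconn, hdis, ?_, ?_⟩
  · intro i j hij
    obtain ⟨z, hz, hz2⟩ := (hq i j hij).2.2.2
    refine ⟨q i j (l i j), Finset.mem_coe.2 (FinK_mem.2 (Or.inr ⟨j, Ne.symm hij, _, le_rfl, rfl⟩)), z,
      Finset.mem_coe.2 (FinK_mem.2 (Or.inl (hM.sub j hz))), hz2⟩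
  · intro Z hZ
    -- some branch set avoids `Z`
    have h1 : ∃ i, Disjoint Z (FinK_b T q l i) := by
      by_contra hcon
      push Not at hcon
      have h2 : ∀ i : Fin t, ∃ v, v ∈ Z ∧ v ∈ FinK_b T q l i := by
        intro i
        have := hcon i
        rw [Finset.not_disjoint_iff] at this
        exact this
      choose f hf1 hf2 using h2
      have h3 : Function.Injective f := by
        intro i j hij
        by_contra hne
        have h4 := hf2 j
        rw [← hij] at h4
        exact Finset.disjoint_left.1 (hdis i j hne) (hf2 i) h4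
      have h4 : (Finset.univ.image f).card ≤ Z.card := by
        apply Finset.card_le_card
        intro v hv
        obtain ⟨i, -, rfl⟩ := Finset.mem_image.1 hv
        exact hf1 i
      rw [Finset.card_image_of_injective _ h3, Finset.card_univ, Fintype.card_fin] at h4
      omega
    obtain ⟨i, hi⟩ := h1
    have h2 : A i ⊆ allA A := fun v hv => mem_allA.2 ⟨i, hv⟩
    obtain ⟨D, hD1, hD2, hD3, hD4⟩ := hM.deep (A i) h2 Z (by rw [hM.card i]; omega)
    refine ⟨i, D ∪ FinK_b T q l i, ?_, hD2.mono Finset.subset_union_left, ?_,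
      Finset.subset_union_right⟩
    · rw [Finset.coe_union]
      apply hD1.union (hconn i)
      left
      obtain ⟨v, hv⟩ := hD4
      rw [Finset.mem_inter] at hv
      exact ⟨v, Finset.mem_coe.2 hv.1,
        Finset.mem_coe.2 (FinK_mem.2 (Or.inl (hM.sub i hv.2)))⟩
    · rw [Finset.disjoint_union_right]
      exact ⟨hD3, hi⟩

end Pool.Agent.MPd439b2.GT
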