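import Pool.Agent.Lib.MP_d439b2_co.GT.SpecG

/-!
# MP_d439b2_co, the grid theorem: assembly
-/

set_option autoImplicit false

namespace Pool.Agent.MPd439b2.GT

open Pool.Agent.MPd439b2

theorem GK_other {t : ℕ} (ht : 2 ≤ t) (i j : Fin t) : ∃ j' : Fin t, i ≠ j' ∧ (i ≠ j → j' = j) := by
  by_cases h : i = j
  · by_cases h0 : i.val = 0
    · refine ⟨⟨1, by omega⟩, fun h' => ?_, fun h' => absurd h h'⟩
      rw [h'] at h0
      simp at h0
    · refine ⟨⟨0, by omega⟩, fun h' => ?_, fun h' => absurd h h'⟩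
      rw [h'] at h0
      simp at h0
  · exact ⟨j, h, fun _ => rfl⟩

theorem pGK (h1 : SMsh) (h2 : SSel) (h3 : SGrd) (h4 : SFinK) (h5 : SFinG) : SGK := by
  classical
  intro t r ht hr
  obtain ⟨R, D, h3'⟩ := h3 r (by omega)
  obtain ⟨N, h2'⟩ := h2 R D (t * t)
  obtain ⟨k, hkdef⟩ : ∃ k, k = max N t := ⟨_, rfl⟩
  have hkN : N ≤ k := by rw [hkdef]; exact le_max_left _ _
  have hkt : t ≤ k := by rw [hkdef]; exact le_max_right _ _
  refine ⟨2 * (t * k), fun V _ _ G S hH => ?_⟩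
  obtain ⟨C, T, A, hM⟩ := h1 V G S t k (by omega) (by omega) hH
  have hlink : ∀ i j : Fin t, ∃ (a b : Finset V) (x : V → V), a ⊆ C ∧ b ⊆ C ∧
      (∀ y, y ∈ a → x y ∈ A i ∧ G.Adj (x y) y) ∧
      (∀ y, y ∈ a → ∀ y', y' ∈ a → x y = x y' → y = y') ∧
      (i ≠ j → ∀ y, y ∈ b → ∃ z, z ∈ A j ∧ G.Adj y z) ∧ ∃ n p, Lkg (ins G C) a b k n p := by
    intro i j
    obtain ⟨j', hij', hj'⟩ := GK_other ht i j
    obtain ⟨a, b, x, g1, g2, g3, g4, g5, g6⟩ := hM.link i j' hij'
    refine ⟨a, b, x, g1, g2, g3, g4, fun hne => ?_, g6⟩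
    rw [← hj' hne]
    exact g5
  choose a b x ha hb hx hxi hbz hL using hlink
  have hsel := h2' k hkN V (ins G C) (fun π => a (finProdFinEquiv.symm π).1 (finProdFinEquiv.symm π).2)
    (fun π => b (finProdFinEquiv.symm π).1 (finProdFinEquiv.symm π).2) (fun π => hL _ _)
  rcases hsel with ⟨n, p, hp, hd⟩ | ⟨π, n, p, U, c, hW⟩
  · left
    have hp' : ∀ i j : Fin t, Pth (ins G C) (a i j) (b i j) (n (finProdFinEquiv (i, j)))
        (p (finProdFinEquiv (i, j))) := by
      intro i j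
      have := hp (finProdFinEquiv (i, j))
      simpa using this
    refine h4 V G S C t k T A hkt hM (fun i j => p (finProdFinEquiv (i, j)))
      (fun i j => n (finProdFinEquiv (i, j))) (fun i j hij => ?_) ?_
    · have hpi := hp' i j
      refine ⟨fun s hs => ?_, fun s hs => (hpi.adj s hs).1, ?_, ?_⟩
      · rcases Nat.eq_zero_or_pos s with h0 | h0
        · subst h0
          exact ha i j hpi.head
        · have := hpi.adj (s - 1) (by omega)
          rw [show s - 1 + 1 = s by omega] at this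
          exact this.2.2
      · exact ⟨_, hx i j _ hpi.head⟩
      · exact hbz i j hij _ hpi.last
    · intro i j i' j' hij hij' hne s hs s' hs'
      exact hd _ _ (fun h => hne (finProdFinEquiv.injective h)) s hs s' hs'
  · right
    obtain ⟨g, st, hg, hst, hst'⟩ := h3' V (ins G C) _ _ n p U c hW
    refine h5 V G S C t k r T A hr hM g st
      (x (finProdFinEquiv.symm π).1 (finProdFinEquiv.symm π).2) hg ?_ ?_
    · intro i j hij
      exact hst (hxi _ _ _ (hst' i).1 _ (hst' j).1 hij)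
    · intro i
      obtain ⟨h6, h7⟩ := hx _ _ _ (hst' i).1
      exact ⟨mem_allA.2 ⟨_, h6⟩, h7, (hst' i).2⟩

end Pool.Agent.MPd439b2.GT
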