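import Pool.Agent.Lib.MP_d439b2_co.GT.SpecG

/-!
# MP_d439b2_co, the grid theorem: the connection graph is connected
-/

set_option autoImplicit false

namespace Pool.Agent.MPd439b2.GT

open Pool.Agent.MPd439b2

theorem pGam : SGam := by
  intro V _ _ G A B R D n p U c W d hd I hI hIu
  have hU := W.conn d hd
  have hrow : ∀ i v, v ∈ seg (p i) 0 (n i + 1) ∩ U d ↔ (∃ s, s ≤ n i ∧ p i s = v) ∧ v ∈ U d := by
    intro i v
    rw [Finset.mem_inter, mem_seg]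
    constructor
    · rintro ⟨⟨s, -, h1, h2⟩, h3⟩
      exact ⟨⟨s, by omega, h2⟩, h3⟩
    · rintro ⟨⟨s, h1, h2⟩, h3⟩
      exact ⟨⟨s, Nat.zero_le _, by omega, h2⟩, h3⟩
  have hdis : ∀ i j v, i ≠ j → v ∈ seg (p i) 0 (n i + 1) ∩ U d → (∃ s, s ≤ n j ∧ p j s = v) → False := by
    intro i j v hij h1 h2
    obtain ⟨⟨s, hs, h3⟩, -⟩ := (hrow i v).1 h1
    obtain ⟨t, ht, h4⟩ := h2
    exact W.lkg.dis i j hij s hs t ht (h3.trans h4.symm)
  let Bs : Set V := {v | v ∈ U d ∧ ((∃ i ∈ I, v ∈ seg (p i) 0 (n i + 1) ∩ U d) ∨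
    (v ∉ rws n p ∧ ∃ K : Finset V, K ⊆ U d \ rws n p ∧ v ∈ K ∧ Conn G (K : Set V) ∧
      ∃ i ∈ I, Tch G ((seg (p i) 0 (n i + 1) ∩ U d : Finset V) : Set V) (K : Set V)))}
  have hmem : ∀ v, v ∈ Bs ↔ v ∈ U d ∧ ((∃ i ∈ I, v ∈ seg (p i) 0 (n i + 1) ∩ U d) ∨
    (v ∉ rws n p ∧ ∃ K : Finset V, K ⊆ U d \ rws n p ∧ v ∈ K ∧ Conn G (K : Set V) ∧
      ∃ i ∈ I, Tch G ((seg (p i) 0 (n i + 1) ∩ U d : Finset V) : Set V) (K : Set V))) := fun v => Iff.rfl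
  have hsub : Bs ⊆ (U d : Set V) := fun v hv => Finset.mem_coe.2 hv.1
  have hne : Bs.Nonempty := by
    obtain ⟨i, hi⟩ := hI
    obtain ⟨s, hs, h1⟩ := W.meet i d hd
    exact ⟨p i s, (hmem _).2 ⟨h1, Or.inl ⟨i, hi, (hrow i _).2 ⟨⟨s, hs, rfl⟩, h1⟩⟩⟩⟩
  have hne' : Bs ≠ (U d : Set V) := by
    intro h
    obtain ⟨j, hj⟩ : ∃ j, j ∉ I := by
      by_contra hcon
      push Not at hcon
      exact hIu (Finset.eq_univ_iff_forall.2 hcon)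
    obtain ⟨s, hs, h1⟩ := W.meet j d hd
    have h2 : p j s ∈ Bs := by
      rw [h]
      exact Finset.mem_coe.2 h1
    rcases ((hmem _).1 h2).2 with ⟨i, hi, h3⟩ | ⟨h3, -⟩
    · exact hdis i j _ (fun hh => hj (hh ▸ hi)) h3 ⟨s, hs, rfl⟩
    · exact h3 (mem_rws.2 ⟨j, s, hs, rfl⟩)
  obtain ⟨b, hb, a, ⟨haU, haB⟩, hab⟩ := hU.2 Bs hsub hne hne'
  have haU' : a ∈ U d := Finset.mem_coe.1 haU
  by_cases har : a ∈ rws n p
  · obtain ⟨j, s, hs, h1⟩ := mem_rws.1 har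
    have haj : a ∈ seg (p j) 0 (n j + 1) ∩ U d := (hrow j a).2 ⟨⟨s, hs, h1⟩, haU'⟩
    have hj : j ∉ I := fun hj => haB ((hmem a).2 ⟨haU', Or.inl ⟨j, hj, haj⟩⟩)
    rcases ((hmem b).1 hb).2 with ⟨i, hi, h2⟩ | ⟨-, K, hK, hbK, hKc, i, hi, hT⟩
    · refine ⟨i, hi, j, hj, fun hh => hj (hh ▸ hi), ∅, Finset.empty_subset _, Or.inl (Or.inl ⟨rfl, ?_⟩)⟩
      exact Tch.of_adj hab (Finset.mem_coe.2 h2) (Finset.mem_coe.2 haj)
    · refine ⟨i, hi, j, hj, fun hh => hj (hh ▸ hi), K, hK, Or.inl (Or.inr ⟨hKc, hT, ?_⟩)⟩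
      exact Tch.of_adj hab (Finset.mem_coe.2 hbK) (Finset.mem_coe.2 haj)
  · exfalso
    apply haB
    rcases ((hmem b).1 hb).2 with ⟨i, hi, h2⟩ | ⟨-, K, hK, hbK, hKc, i, hi, hT⟩
    · refine (hmem a).2 ⟨haU', Or.inr ⟨har, {a}, ?_, Finset.mem_singleton_self a, ?_, i, hi, ?_⟩⟩
      · intro v hv
        rw [Finset.mem_singleton.1 hv]
        exact Finset.mem_sdiff.2 ⟨haU', har⟩
      · rw [Finset.coe_singleton]
        exact Conn.singleton G a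
      · exact Tch.of_adj hab (Finset.mem_coe.2 h2) (Finset.mem_coe.2 (Finset.mem_singleton_self a))
    · refine (hmem a).2 ⟨haU', Or.inr ⟨har, insert a K, ?_, Finset.mem_insert_self a K, ?_, i, hi, ?_⟩⟩
      · intro v hv
        rcases Finset.mem_insert.1 hv with rfl | hv
        · exact Finset.mem_sdiff.2 ⟨haU', har⟩
        · exact hK hv
      · rw [Finset.coe_insert]
        exact hKc.insert ⟨b, Finset.mem_coe.2 hbK, hab⟩
      · exact hT.mono (fun _ h => h) (by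
          rw [Finset.coe_insert]
          exact Set.subset_insert _ _)

end Pool.Agent.MPd439b2.GT
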