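import Pool.Agent.Lib.MP_d439b2_co.GT.SpecG

/-!
# MP_d439b2_co, the grid theorem: a grid from a woven structure
-/

set_option autoImplicit false

namespace Pool.Agent.MPd439b2.GT

open Pool.Agent.MPd439b2

section

variable {V : Type} [DecidableEq V] {G : SimpleGraph V}

private theorem Grd_short {A : Finset V} {r D D' : ℕ} {n : ℕ → ℕ} {p : ℕ → ℕ → V}
    {U : ℕ → Finset V} {c : ℕ → ℕ → ℕ} (hL : Lad G A r D n p U c) (h : D' ≤ D) :
    Lad G A r D' n p U c :=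
  ⟨hL.inj, hL.adj, hL.head, hL.dis,
    fun d hd e he => hL.udis d (hd.trans_le h) e (he.trans_le h),
    fun i hi d hd => hL.lt i hi d (hd.trans_le h), fun i hi d hd => hL.le i hi d (hd.trans h),
    fun i hi d hd => hL.rung i hi d (hd.trans_le h)⟩

end

theorem pGrd (h1 : SPS) (h2 : SGam) (h3 : SSub) (h4 : SLadP) (h5 : SLadS) (h6 : SLadG) :
    SGrd := by
  intro r hr
  obtain ⟨R, hR⟩ := h1 r
  obtain ⟨D, hD⟩ := h3 R (2 * (r * r))
  refine ⟨R, D, ?_⟩
  intro V _ _ G A B n p U c hW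
  obtain ⟨Γ, U', c', hW', hΓ⟩ := hD V G A B n p U c hW
  have hrr : 0 < 2 * (r * r) := by positivity
  have hconn : ∀ I : Finset (Fin R), I.Nonempty → I ≠ Finset.univ →
      ∃ i, i ∈ I ∧ ∃ j, j ∉ I ∧ Γ.Adj i j := by
    intro I hI hI'
    have h7 := h2 V G A B R (2 * (r * r)) n p U' c' hW' 0 hrr I hI hI'
    rw [hΓ 0 hrr] at h7
    exact h7
  have hlad : ∃ n' p' U'' c'', Lad G A r (r * r) n' p' U'' c'' := by
    rcases hR Γ hconn with ⟨f, hf, hf'⟩ | ⟨z, f, hf, hf'⟩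
    · obtain ⟨n', p', U'', c'', h7⟩ := h4 V G A B R (2 * (r * r)) r n p U' c' hW' f hf
        (fun d hd i hi => by rw [hΓ d hd]; exact hf' i hi)
      exact ⟨n', p', U'', c'', Grd_short h7 (by omega)⟩
    · exact h5 V G A B R (r * r) r n p U' c' hW' z f hf
        (fun d hd i hi => by rw [hΓ d hd]; exact hf' i hi)
  obtain ⟨n', p', U'', c'', hL⟩ := hlad
  obtain ⟨g, hg, hg'⟩ := h6 V G A r n' p' U'' c'' hr hL
  refine ⟨g, fun i => p' i.val 0, hg, ?_, fun i => ⟨hL.head i.val i.isLt, fun j hj => hg' i j hj⟩⟩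
  intro i j hij
  by_contra hne
  exact hL.dis i.val i.isLt j.val j.isLt (fun h => hne (Fin.ext h)) 0 (Nat.zero_le _) 0
    (Nat.zero_le _) hij

end Pool.Agent.MPd439b2.GT
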