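import Pool.Agent.Lib.MP_d439b2_co.GT.SpecG

/-!
# MP_d439b2_co, the grid theorem: havens from well linked sets
-/

set_option autoImplicit false

namespace Pool.Agent.MPd439b2.GT

open Pool.Agent.MPd439b2

theorem Hv_split {V : Type} {G : SimpleGraph V} {P : Set V} (hne : P.Nonempty) (h : ¬ Conn G P) :
    ∃ B ⊆ P, B.Nonempty ∧ B ≠ P ∧ ∀ b ∈ B, ∀ a ∈ P \ B, ¬ G.Adj b a := by
  unfold Conn at h
  push Not at h
  obtain ⟨B, h1, h2, h3, h4⟩ := h hne
  exact ⟨B, h1, h2, h3, h4⟩

theorem pHv : SHv := by
  intro V _ _ G S w hWL hS X hX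
  have key : ∀ n : ℕ, ∀ P : Finset V, P.card = n → Disjoint P X →
      (∀ u, u ∈ P → ∀ v, G.Adj u v → v ∈ P ∪ X) → X.card < (S ∩ P).card →
      ∃ C : Finset V, Conn G (C : Set V) ∧ Disjoint X C ∧ Big S C := by
    intro n
    induction n using Nat.strong_induction_on with
    | _ n ih =>
      intro P hPn hPX hcl hPS
      have h1 := hWL P X (P ∪ X)ᶜ (by
        ext v
        simp only [Finset.mem_union, Finset.mem_compl, Finset.mem_univ, iff_true]
        tauto) hPX (by
        rw [Finset.disjoint_left]
        intro v hv hv'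
        rw [Finset.mem_compl] at hv'
        exact hv' (Finset.mem_union_left _ hv)) (by
        rw [Finset.disjoint_left]
        intro v hv hv'
        rw [Finset.mem_compl] at hv'
        exact hv' (Finset.mem_union_right _ hv)) (fun u hu v hv huv => by
        rw [Finset.mem_compl] at hv
        exact hv (hcl u hu v huv)) hX.le
      have h2 : (S ∩ (P ∪ X)ᶜ).card ≤ X.card := by
        rcases h1 with h1 | h1
        · omega
        · exact h1
      have h3 : S.card ≤ (S ∩ P).card + X.card + (S ∩ (P ∪ X)ᶜ).card := by
        have h4 : S ⊆ ((S ∩ P) ∪ X) ∪ (S ∩ (P ∪ X)ᶜ) := by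
          intro v hv
          simp only [Finset.mem_union, Finset.mem_inter, Finset.mem_compl]
          tauto
        have h5 := Finset.card_le_card h4
        have h6 := Finset.card_union_le ((S ∩ P) ∪ X) (S ∩ (P ∪ X)ᶜ)
        have h7 := Finset.card_union_le (S ∩ P) X
        omega
      by_cases hconn : Conn G (P : Set V)
      · refine ⟨P, hconn, hPX.symm, ?_⟩
        unfold Big
        omega
      · have hne : (P : Set V).Nonempty := by
          have h4 : (S ∩ P).Nonempty := by
            rw [← Finset.card_pos]
            omega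
          obtain ⟨v, hv⟩ := h4
          exact ⟨v, Finset.mem_coe.2 (Finset.mem_inter.1 hv).2⟩
        obtain ⟨B₀, hB1, hB2, hB3, hB4⟩ := Hv_split hne hconn
        classical
        obtain ⟨B, rfl⟩ : ∃ B : Finset V, (B : Set V) = B₀ :=
          ⟨P.filter (fun v => v ∈ B₀), by
            ext v
            simp only [Finset.coe_filter, Set.mem_setOf_eq]
            exact ⟨fun h => h.2, fun h => ⟨Finset.mem_coe.1 (hB1 h), h⟩⟩⟩
        have hBP : B ⊆ P := Finset.coe_subset.1 hB1
        have hBne : B.Nonempty := Finset.coe_nonempty.1 hB2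
        have hBP' : B ≠ P := fun h => hB3 (by rw [h])
        have hlt : B.card < P.card := Finset.card_lt_card (hBP.ssubset_of_ne hBP')
        have hsplit : (P \ B).card + B.card = P.card := Finset.card_sdiff_add_card_eq_card hBP
        have hBpos : 0 < B.card := Finset.card_pos.2 hBne
        have h4 : (S ∩ P).card ≤ (S ∩ B).card + (S ∩ (P \ B)).card := by
          have h5 : S ∩ P ⊆ (S ∩ B) ∪ (S ∩ (P \ B)) := by
            intro v hv
            simp only [Finset.mem_union, Finset.mem_inter, Finset.mem_sdiff] at hv ⊢
            tauto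
          exact le_trans (Finset.card_le_card h5) (Finset.card_union_le _ _)
        by_cases h5 : X.card < (S ∩ B).card
        · refine ih B.card (by omega) B rfl (hPX.mono_left hBP) (fun u hu v huv => ?_) h5
          rcases Finset.mem_union.1 (hcl u (hBP hu) v huv) with h6 | h6
          · by_cases h7 : v ∈ B
            · exact Finset.mem_union_left _ h7
            · exact absurd huv (hB4 u (Finset.mem_coe.2 hu) v
                ⟨Finset.mem_coe.2 h6, fun h => h7 (Finset.mem_coe.1 h)⟩)
          · exact Finset.mem_union_right _ h6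
        · refine ih (P \ B).card (by omega) (P \ B) rfl (hPX.mono_left Finset.sdiff_subset)
            (fun u hu v huv => ?_) (by omega)
          rcases Finset.mem_union.1 (hcl u (Finset.mem_sdiff.1 hu).1 v huv) with h6 | h6
          · by_cases h7 : v ∈ B
            · exact absurd huv.symm (hB4 v (Finset.mem_coe.2 h7) u
                ⟨Finset.mem_coe.2 (Finset.mem_sdiff.1 hu).1,
                  fun h => (Finset.mem_sdiff.1 hu).2 (Finset.mem_coe.1 h)⟩)
            · exact Finset.mem_union_left _ (Finset.mem_sdiff.2 ⟨h6, h7⟩)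
          · exact Finset.mem_union_right _ h6
  refine key _ Xᶜ rfl disjoint_compl_left (fun u _ v _ => ?_) ?_
  · by_cases hv : v ∈ X
    · exact Finset.mem_union_right _ hv
    · exact Finset.mem_union_left _ (Finset.mem_compl.2 hv)
  · have h4 : S.card ≤ (S ∩ Xᶜ).card + X.card := by
      have h5 : S ⊆ (S ∩ Xᶜ) ∪ X := by
        intro v hv
        simp only [Finset.mem_union, Finset.mem_inter, Finset.mem_compl]
        tauto
      exact le_trans (Finset.card_le_card h5) (Finset.card_union_le _ _)
    omega

end Pool.Agent.MPd439b2.GT
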