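import Pool.Agent.Lib.MP_d439b2_co.GT.SpecG

/-!
# MP_d439b2_co, the grid theorem: a grid from a ladder
-/

set_option autoImplicit false

namespace Pool.Agent.MPd439b2.GT

open Pool.Agent.MPd439b2

section

variable {V : Type} [DecidableEq V] {G : SimpleGraph V}

private theorem LadG_mon {A : Finset V} {r D : ℕ} {n : ℕ → ℕ} {p : ℕ → ℕ → V}
    {U : ℕ → Finset V} {c : ℕ → ℕ → ℕ} (hL : Lad G A r D n p U c) (i : ℕ) (hi : i < r) (a b : ℕ)
    (hab : a ≤ b) (hb : b ≤ D) : c i a ≤ c i b := by
  induction b with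
  | zero =>
    have : a = 0 := by omega
    rw [this]
  | succ b ih =>
    rcases Nat.lt_or_ge b a with h | h
    · have : a = b + 1 := by omega
      rw [this]
    · exact (ih h (by omega)).trans (hL.lt i hi b (by omega)).le

private theorem LadG_mons {A : Finset V} {r D : ℕ} {n : ℕ → ℕ} {p : ℕ → ℕ → V}
    {U : ℕ → Finset V} {c : ℕ → ℕ → ℕ} (hL : Lad G A r D n p U c) (i : ℕ) (hi : i < r) (a b : ℕ)
    (hab : a < b) (hb : b ≤ D) : c i a < c i b :=
  (hL.lt i hi a (by omega)).trans_le (LadG_mon hL i hi (a + 1) b hab hb)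

private theorem LadG_arith (r i j : ℕ) (hi : i < r) (hj : j < r) :
    j * r + i < r * r ∧ j * r + i + 1 ≤ (j + 1) * r ∧ (j + 1) * r ≤ r * r ∧
      j * r < (j + 1) * r := by
  have h1 : (j + 1) * r = j * r + r := by ring
  have h2 : (j + 1) * r ≤ r * r := Nat.mul_le_mul_right r hj
  omega

private theorem LadG_uniq (r i j i' j' : ℕ) (hi : i < r) (hi' : i' < r)
    (h : j * r + i = j' * r + i') : i = i' ∧ j = j' := by
  have h1 : (j * r + i) % r = i := by
    rw [Nat.add_comm, Nat.add_mul_mod_self_right, Nat.mod_eq_of_lt hi]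
  have h2 : (j' * r + i') % r = i' := by
    rw [Nat.add_comm, Nat.add_mul_mod_self_right, Nat.mod_eq_of_lt hi']
  have h3 : i = i' := by rw [← h1, ← h2, h]
  subst h3
  have h4 : j * r = j' * r := by omega
  exact ⟨rfl, Nat.eq_of_mul_eq_mul_right (by omega) h4⟩

end

theorem pLadG : SLadG := by
  intro V _ _ G A r n p U c hr hL
  have hrung := hL.rung
  choose! K hKU hKd hKR using hrung
  let lo : ℕ → ℕ → ℕ := fun i j => if j = 0 then 0 else c i (j * r)
  let Sg : ℕ → ℕ → Finset V := fun i j => seg (p i) (lo i j) (c i ((j + 1) * r))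
  let Kg : ℕ → ℕ → Finset V := fun i j => if i + 1 < r then K i (j * r + i) else ∅
  have hlo : ∀ i j, i < r → j < r → lo i j < c i ((j + 1) * r) := by
    intro i j hi hj
    obtain ⟨h1, h2, h3, h4⟩ := LadG_arith r i j hi hj
    by_cases h : j = 0
    · have : lo i j = 0 := if_pos h
      rw [this]
      have h5 := LadG_mons hL i hi 0 ((j + 1) * r) (by omega) h3
      omega
    · have : lo i j = c i (j * r) := if_neg h
      rw [this]
      exact LadG_mons hL i hi (j * r) ((j + 1) * r) h4 h3
  have hlo' : ∀ i j, lo i j ≤ c i (j * r) := by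
    intro i j
    by_cases h : j = 0
    · have : lo i j = 0 := if_pos h
      rw [this]
      exact Nat.zero_le _
    · have : lo i j = c i (j * r) := if_neg h
      rw [this]
  have hn : ∀ i j, i < r → j < r → c i ((j + 1) * r) ≤ n i := by
    intro i j hi hj
    exact hL.le i hi _ (LadG_arith r i j hi hj).2.2.1
  -- the rung segment is in the row part
  have hsub : ∀ i i' j, i < r → i' < r → j < r →
      seg (p i) (c i (j * r + i')) (c i (j * r + i' + 1)) ⊆ Sg i j := by
    intro i i' j hi hi' hj v hv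
    obtain ⟨h1, h2, h3, h4⟩ := LadG_arith r i' j hi' hj
    obtain ⟨s, h5, h6, h7⟩ := mem_seg.1 hv
    have h8 := LadG_mon hL i hi (j * r) (j * r + i') (by omega) (by omega)
    have h9 := LadG_mon hL i hi (j * r + i' + 1) ((j + 1) * r) h2 h3
    have h10 := hlo' i j
    exact mem_seg.2 ⟨s, by omega, by omega, h7⟩
  have hSc : ∀ i j, i < r → j < r → Conn G (Sg i j : Set V) := by
    intro i j hi hj
    apply conn_seg (hlo i j hi hj)
    intro s h1 h2
    have h3 := hn i j hi hj
    exact hL.adj i hi s (by omega)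
  -- disjointness of the row parts
  have hSd : ∀ i j i' j', i < r → j < r → i' < r → j' < r → (i, j) ≠ (i', j') →
      Disjoint (Sg i j) (Sg i' j') := by
    intro i j i' j' hi hj hi' hj' hne
    rw [Finset.disjoint_left]
    intro v hv hv'
    obtain ⟨s, a1, a2, a3⟩ := mem_seg.1 hv
    obtain ⟨t, b1, b2, b3⟩ := mem_seg.1 hv'
    have hs := hn i j hi hj
    have ht := hn i' j' hi' hj'
    by_cases hii : i = i'
    · subst hii
      have hst : s = t := hL.inj i hi s (by omega) t (by omega) (a3.trans b3.symm)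
      subst hst
      have hjj : j ≠ j' := fun h => hne (by rw [h])
      rcases Nat.lt_or_ge j j' with h | h
      · have h1 : lo i j' = c i (j' * r) := if_neg (by omega)
        have h2 : (j + 1) * r ≤ j' * r := Nat.mul_le_mul_right r h
        have h3 : j' * r ≤ r * r := Nat.mul_le_mul_right r (by omega)
        have h4 := LadG_mon hL i hi _ _ h2 h3
        omega
      · have h0 : j' < j := by omega
        have h1 : lo i j = c i (j * r) := if_neg (by omega)
        have h2 : (j' + 1) * r ≤ j * r := Nat.mul_le_mul_right r h0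
        have h3 : j * r ≤ r * r := Nat.mul_le_mul_right r (by omega)
        have h4 := LadG_mon hL i hi _ _ h2 h3
        omega
    · exact hL.dis i hi i' hi' hii s (by omega) t (by omega) (a3.trans b3.symm)
  have hKg : ∀ i j v, v ∈ Kg i j → i + 1 < r ∧ v ∈ K i (j * r + i) := by
    intro i j v hv
    by_cases h : i + 1 < r
    · have h1 : Kg i j = K i (j * r + i) := if_pos h
      rw [h1] at hv
      exact ⟨h, hv⟩
    · have h1 : Kg i j = ∅ := if_neg h
      rw [h1] at hv
      exact absurd hv (Finset.notMem_empty v)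
  have hKS : ∀ i j i' j', i < r → j < r → i' < r → j' < r → Disjoint (Kg i j) (Sg i' j') := by
    intro i j i' j' hi hj hi' hj'
    rw [Finset.disjoint_left]
    intro v hv hv'
    obtain ⟨h1, h2⟩ := hKg i j v hv
    have h3 := hKd i h1 (j * r + i) (LadG_arith r i j hi hj).1 i' hi'
    obtain ⟨t, b1, b2, b3⟩ := mem_seg.1 hv'
    have ht := hn i' j' hi' hj'
    exact Finset.disjoint_left.1 h3 h2 (mem_seg.2 ⟨t, Nat.zero_le _, by omega, b3⟩)
  have hKK : ∀ i j i' j', i < r → j < r → i' < r → j' < r → (i, j) ≠ (i', j') →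
      Disjoint (Kg i j) (Kg i' j') := by
    intro i j i' j' hi hj hi' hj' hne
    rw [Finset.disjoint_left]
    intro v hv hv'
    obtain ⟨h1, h2⟩ := hKg i j v hv
    obtain ⟨h3, h4⟩ := hKg i' j' v hv'
    have h5 : j * r + i ≠ j' * r + i' := by
      intro h
      obtain ⟨h6, h7⟩ := LadG_uniq r i j i' j' hi hi' h
      exact hne (by rw [h6, h7])
    have h8 := (LadG_arith r i j hi hj).1
    have h9 := (LadG_arith r i' j' hi' hj').1
    exact Finset.disjoint_left.1 (hL.udis _ h8 _ h9 h5) (hKU i h1 _ h8 h2) (hKU i' h3 _ h9 h4)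
  refine ⟨fun i j => Sg i.val j.val ∪ Kg i.val j.val, ⟨?_, ?_, ?_, ?_⟩, ?_⟩
  · intro i j
    change Conn G ((Sg i.val j.val ∪ Kg i.val j.val : Finset V) : Set V)
    by_cases h : i.val + 1 < r
    · have h1 : Kg i.val j.val = K i.val (j.val * r + i.val) := if_pos h
      have hd := (LadG_arith r i.val j.val i.isLt j.isLt).1
      rw [h1]
      rcases hKR i.val h _ hd with ⟨h2, -⟩ | ⟨h2, h3, -⟩
      · rw [h2, Finset.union_empty]
        exact hSc _ _ i.isLt j.isLt
      · rw [Finset.coe_union]
        exact (hSc _ _ i.isLt j.isLt).union h2 (Or.inr (h3.mono (Finset.coe_subset.2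
          (hsub _ _ _ i.isLt i.isLt j.isLt)) subset_rfl))
    · have h1 : Kg i.val j.val = ∅ := if_neg h
      rw [h1, Finset.union_empty]
      exact hSc _ _ i.isLt j.isLt
  · intro i j i' j' hne
    have hne' : (i.val, j.val) ≠ (i'.val, j'.val) := by
      intro h
      apply hne
      have h1 := (Prod.mk.injEq _ _ _ _).mp h
      exact Prod.ext (Fin.ext h1.1) (Fin.ext h1.2)
    change Disjoint (Sg i.val j.val ∪ Kg i.val j.val) (Sg i'.val j'.val ∪ Kg i'.val j'.val)
    rw [Finset.disjoint_union_left, Finset.disjoint_union_right, Finset.disjoint_union_right]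
    exact ⟨⟨hSd _ _ _ _ i.isLt j.isLt i'.isLt j'.isLt hne',
      (hKS _ _ _ _ i'.isLt j'.isLt i.isLt j.isLt).symm⟩,
      hKS _ _ _ _ i.isLt j.isLt i'.isLt j'.isLt,
      hKK _ _ _ _ i.isLt j.isLt i'.isLt j'.isLt hne'⟩
  · intro i j j' hj
    have h1 := hlo i.val j.val i.isLt j.isLt
    have h2 := hlo i.val j'.val i.isLt j'.isLt
    have h3 := hn i.val j.val i.isLt j.isLt
    have h4 : lo i.val j'.val = c i.val ((j.val + 1) * r) := by
      have : lo i.val j'.val = c i.val (j'.val * r) := if_neg (by omega)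
      rw [this, ← hj]
    have h5 := hL.adj i.val i.isLt (c i.val ((j.val + 1) * r) - 1) (by omega)
    rw [show c i.val ((j.val + 1) * r) - 1 + 1 = c i.val ((j.val + 1) * r) by omega] at h5
    refine Tch.of_adj h5 (Finset.mem_coe.2 (Finset.mem_union_left _ (mem_seg.2 ?_)))
      (Finset.mem_coe.2 (Finset.mem_union_left _ (mem_seg.2 ?_)))
    · exact ⟨_, by omega, by omega, rfl⟩
    · exact ⟨_, by omega, by omega, rfl⟩
  · intro i i' j hi
    have h : i.val + 1 < r := by
      rw [hi]
      exact i'.isLt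
    have h1 : Kg i.val j.val = K i.val (j.val * r + i.val) := if_pos h
    have hd := (LadG_arith r i.val j.val i.isLt j.isLt).1
    have e1 := hsub i.val i.val j.val i.isLt i.isLt j.isLt
    have e2 := hsub i'.val i.val j.val i'.isLt i.isLt j.isLt
    have hR := hKR i.val h _ hd
    rw [hi] at hR
    rcases hR with ⟨-, h3⟩ | ⟨-, -, h3⟩
    · exact h3.mono (Finset.coe_subset.2 (e1.trans Finset.subset_union_left))
        (Finset.coe_subset.2 (e2.trans Finset.subset_union_left))
    · refine h3.mono (Finset.coe_subset.2 ?_)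
        (Finset.coe_subset.2 (e2.trans Finset.subset_union_left))
      rw [← h1]
      exact Finset.subset_union_right
  · intro i j hj
    have h1 := hlo i.val j.val i.isLt j.isLt
    have h2 : lo i.val j.val = 0 := if_pos hj
    exact Finset.mem_union_left _ (mem_seg.2 ⟨0, by omega, by omega, rfl⟩)

end Pool.Agent.MPd439b2.GT
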