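import Pool.Agent.Lib.MP_d439b2_co.GT.SpecG

/-!
# MP_d439b2_co, the grid theorem: a ladder from a path of the connection graph
-/

set_option autoImplicit false

namespace Pool.Agent.MPd439b2.GT

open Pool.Agent.MPd439b2

section

variable {V : Type} [DecidableEq V] {G : SimpleGraph V}

private theorem LadP_symm {R₁ R₂ K : Finset V} (h : Rung G R₁ R₂ K) : Rung G R₂ R₁ K := by
  rcases h with ⟨h1, h2⟩ | ⟨h1, h2, h3⟩
  · exact Or.inl ⟨h1, h2.symm⟩
  · exact Or.inr ⟨h1, h3.symm, h2.symm⟩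

private theorem LadP_mono {R₁ R₂ R₁' R₂' K : Finset V} (h : Rung G R₁ R₂ K) (h₁ : R₁ ⊆ R₁')
    (h₂ : R₂ ⊆ R₂') : Rung G R₁' R₂' K := by
  have e1 : (R₁ : Set V) ⊆ (R₁' : Set V) := Finset.coe_subset.2 h₁
  have e2 : (R₂ : Set V) ⊆ (R₂' : Set V) := Finset.coe_subset.2 h₂
  rcases h with ⟨h1, h2⟩ | ⟨h1, h2, h3⟩
  · exact Or.inl ⟨h1, h2.mono e1 e2⟩
  · exact Or.inr ⟨h1, h2.mono e1 subset_rfl, h3.mono subset_rfl e2⟩

private theorem LadP_seg {A B : Finset V} {R D : ℕ} {n : Fin R → ℕ} {p : Fin R → ℕ → V}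
    {U : ℕ → Finset V} {c : Fin R → ℕ → ℕ} (hW : Wov G A B R D n p U c) (i : Fin R) (d : ℕ)
    (hd : d < D) : seg (p i) 0 (n i + 1) ∩ U d ⊆ seg (p i) (c i d) (c i (d + 1)) := by
  intro v hv
  obtain ⟨h1, h2⟩ := Finset.mem_inter.1 hv
  obtain ⟨s, -, hs, rfl⟩ := mem_seg.1 h1
  obtain ⟨h3, h4⟩ := hW.only i d hd s (by omega) h2
  exact mem_seg.2 ⟨s, h3, h4, rfl⟩

end

theorem pLadP : SLadP := by
  intro V _ _ G A B R D r n p U c hW f hf hG
  refine ⟨fun i => n (f i), fun i => p (f i), U, fun i d => c (f i) d, ?_⟩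
  refine ⟨fun i hi => (hW.lkg.pth (f i)).inj, fun i hi => (hW.lkg.pth (f i)).adj,
    fun i hi => (hW.lkg.pth (f i)).head, ?_, hW.dis, fun i hi d hd => hW.lt (f i) d hd,
    fun i hi d hd => hW.le (f i) d hd, ?_⟩
  · intro i hi j hj hij s hs t ht
    exact hW.lkg.dis (f i) (f j) (fun h => hij (hf i hi j hj h)) s hs t ht
  · intro i hi d hd
    obtain ⟨-, K, hK, hR⟩ := hG d hd i hi
    refine ⟨K, fun v hv => (Finset.mem_sdiff.1 (hK hv)).1, ?_, ?_⟩
    · intro j hj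
      rw [Finset.disjoint_left]
      intro v hv hv'
      apply (Finset.mem_sdiff.1 (hK hv)).2
      obtain ⟨s, -, hs, rfl⟩ := mem_seg.1 hv'
      exact mem_rws.2 ⟨f j, s, by omega, rfl⟩
    · have h1 : Rung G (seg (p (f i)) 0 (n (f i) + 1) ∩ U d)
          (seg (p (f (i + 1))) 0 (n (f (i + 1)) + 1) ∩ U d) K := by
        rcases hR with h | h
        · exact h
        · exact LadP_symm h
      exact LadP_mono h1 (LadP_seg hW (f i) d hd) (LadP_seg hW (f (i + 1)) d hd)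

end Pool.Agent.MPd439b2.GT
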