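import Pool.Agent.Lib.MP_d439b2_co.GT.SpecG

/-!
# MP_d439b2_co, the grid theorem: a ladder from a star of the connection graph
-/

set_option autoImplicit false

namespace Pool.Agent.MPd439b2.GT

open Pool.Agent.MPd439b2

section

variable {V : Type} [DecidableEq V] {G : SimpleGraph V}

private theorem LadS_symm {R₁ R₂ K : Finset V} (h : Rung G R₁ R₂ K) : Rung G R₂ R₁ K := by
  rcases h with ⟨h1, h2⟩ | ⟨h1, h2, h3⟩
  · exact Or.inl ⟨h1, h2.symm⟩
  · exact Or.inr ⟨h1, h3.symm, h2.symm⟩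

private theorem LadS_mono {R₁ R₂ R₁' R₂' K : Finset V} (h : Rung G R₁ R₂ K) (h₁ : R₁ ⊆ R₁')
    (h₂ : R₂ ⊆ R₂') : Rung G R₁' R₂' K := by
  have e1 : (R₁ : Set V) ⊆ (R₁' : Set V) := Finset.coe_subset.2 h₁
  have e2 : (R₂ : Set V) ⊆ (R₂' : Set V) := Finset.coe_subset.2 h₂
  rcases h with ⟨h1, h2⟩ | ⟨h1, h2, h3⟩
  · exact Or.inl ⟨h1, h2.mono e1 e2⟩
  · exact Or.inr ⟨h1, h2.mono e1 subset_rfl, h3.mono subset_rfl e2⟩

private theorem LadS_half {Z R K : Finset V} (h : Rung G Z R K) (hZ : Conn G (Z : Set V)) :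
    Conn G ((Z ∪ K : Finset V) : Set V) ∧ Tch G ((Z ∪ K : Finset V) : Set V) (R : Set V) := by
  have e1 : (Z : Set V) ⊆ ((Z ∪ K : Finset V) : Set V) :=
    Finset.coe_subset.2 Finset.subset_union_left
  have e2 : (K : Set V) ⊆ ((Z ∪ K : Finset V) : Set V) :=
    Finset.coe_subset.2 Finset.subset_union_right
  rcases h with ⟨h1, h2⟩ | ⟨h1, h2, h3⟩
  · refine ⟨?_, h2.mono e1 subset_rfl⟩
    rw [h1, Finset.union_empty]
    exact hZ
  · refine ⟨?_, h3.mono e2 subset_rfl⟩
    rw [Finset.coe_union]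
    exact hZ.union h1 (Or.inr h2)

private theorem LadS_mon {A B : Finset V} {R D : ℕ} {n : Fin R → ℕ} {p : Fin R → ℕ → V}
    {U : ℕ → Finset V} {c : Fin R → ℕ → ℕ} (hW : Wov G A B R D n p U c) (i : Fin R) (a b : ℕ)
    (hab : a ≤ b) (hb : b ≤ D) : c i a ≤ c i b := by
  induction b with
  | zero =>
    have : a = 0 := by omega
    rw [this]
  | succ b ih =>
    rcases Nat.lt_or_ge b a with h | h
    · have : a = b + 1 := by omega
      rw [this]
    · exact (ih h (by omega)).trans (hW.lt i b (by omega)).le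

private theorem LadS_seg {A B : Finset V} {R D : ℕ} {n : Fin R → ℕ} {p : Fin R → ℕ → V}
    {U : ℕ → Finset V} {c : Fin R → ℕ → ℕ} (hW : Wov G A B R D n p U c) (i : Fin R) (d a b : ℕ)
    (hd : d < D) (had : a ≤ d) (hdb : d + 1 ≤ b) (hb : b ≤ D) :
    seg (p i) 0 (n i + 1) ∩ U d ⊆ seg (p i) (c i a) (c i b) := by
  intro v hv
  obtain ⟨h1, h2⟩ := Finset.mem_inter.1 hv
  obtain ⟨s, -, hs, rfl⟩ := mem_seg.1 h1
  obtain ⟨h3, h4⟩ := hW.only i d hd s (by omega) h2
  have h5 := LadS_mon hW i a d had (by omega)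
  have h6 := LadS_mon hW i (d + 1) b hdb hb
  exact mem_seg.2 ⟨s, by omega, by omega, rfl⟩

end

theorem pLadS : SLadS := by
  intro V _ _ G A B R D r n p U c hW z f hf hG
  let Z : ℕ → Finset V := fun d => seg (p z) (c z (2 * d)) (c z (2 * d + 2))
  let U' : ℕ → Finset V := fun d => U (2 * d) ∪ U (2 * d + 1) ∪ Z d
  -- positions on the row `z`
  have hpos : ∀ d, d < D → ∀ s, s ≤ n z → p z s ∈ U' d →
      c z (2 * d) ≤ s ∧ s < c z (2 * d + 2) := by
    intro d hd s hs hv
    have m1 := LadS_mon hW z (2 * d) (2 * d + 1) (by omega) (by omega)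
    have m2 := LadS_mon hW z (2 * d + 1) (2 * d + 2) (by omega) (by omega)
    rcases Finset.mem_union.1 hv with hv | hv
    · rcases Finset.mem_union.1 hv with hv | hv
      · obtain ⟨h1, h2⟩ := hW.only z (2 * d) (by omega) s hs hv
        exact ⟨h1, by omega⟩
      · obtain ⟨h1, h2⟩ := hW.only z (2 * d + 1) (by omega) s hs hv
        exact ⟨by omega, h2⟩
    · obtain ⟨t, h1, h2, h3⟩ := mem_seg.1 hv
      have h4 := hW.le z (2 * d + 2) (by omega)
      have h5 := (hW.lkg.pth z).inj t (by omega) s hs h3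
      subst h5
      exact ⟨h1, h2⟩
  have hZrow : ∀ d, d < D → ∀ v, v ∈ Z d → ∃ s, s ≤ n z ∧ p z s = v := by
    intro d hd v hv
    obtain ⟨t, h1, h2, h3⟩ := mem_seg.1 hv
    have h4 := hW.le z (2 * d + 2) (by omega)
    exact ⟨t, by omega, h3⟩
  have hord : ∀ d e, d < e → e < D → Disjoint (U' d) (U' e) := by
    intro d e hde he
    rw [Finset.disjoint_left]
    intro v hv hv'
    by_cases hrow : ∃ s, s ≤ n z ∧ p z s = v
    · obtain ⟨s, hs, rfl⟩ := hrow
      obtain ⟨h1, h2⟩ := hpos d (by omega) s hs hv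
      obtain ⟨h3, h4⟩ := hpos e he s hs hv'
      have h5 := LadS_mon hW z (2 * d + 2) (2 * e) (by omega) (by omega)
      omega
    · have g : ∀ d', d' < D → v ∈ U' d' → v ∈ U (2 * d') ∨ v ∈ U (2 * d' + 1) := by
        intro d' hd' h
        rcases Finset.mem_union.1 h with h | h
        · exact Finset.mem_union.1 h
        · exact absurd (hZrow d' hd' v h) hrow
      have key : ∀ x y, x < 2 * D → y < 2 * D → x ≠ y → v ∈ U x → v ∈ U y → False := by
        intro x y hx hy hxy h1 h2
        exact Finset.disjoint_left.1 (hW.dis x hx y hy hxy) h1 h2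
      rcases g d (by omega) hv with h1 | h1 <;> rcases g e he hv' with h2 | h2
      · exact key _ _ (by omega) (by omega) (by omega) h1 h2
      · exact key _ _ (by omega) (by omega) (by omega) h1 h2
      · exact key _ _ (by omega) (by omega) (by omega) h1 h2
      · exact key _ _ (by omega) (by omega) (by omega) h1 h2
  refine ⟨fun i => n (f i), fun i => p (f i), U', fun i d => c (f i) (2 * d), ?_⟩
  refine ⟨fun i hi => (hW.lkg.pth (f i)).inj, fun i hi => (hW.lkg.pth (f i)).adj,
    fun i hi => (hW.lkg.pth (f i)).head, ?_, ?_, ?_, ?_, ?_⟩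
  · intro i hi j hj hij s hs t ht
    exact hW.lkg.dis (f i) (f j) (fun h => hij (hf i hi j hj h)) s hs t ht
  · intro d hd e he hde
    rcases Nat.lt_or_ge d e with h | h
    · exact hord d e h he
    · exact (hord e d (by omega) hd).symm
  · intro i hi d hd
    have h1 := hW.lt (f i) (2 * d) (by omega)
    have h2 := hW.lt (f i) (2 * d + 1) (by omega)
    have h3 : 2 * (d + 1) = 2 * d + 1 + 1 := by ring
    rw [h3]
    exact h1.trans h2
  · intro i hi d hd
    exact hW.le (f i) (2 * d) (by omega)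
  · intro i hi d hd
    obtain ⟨-, K₁, hK₁, hR₁⟩ := hG (2 * d) (by omega) i (by omega)
    obtain ⟨-, K₂, hK₂, hR₂⟩ := hG (2 * d + 1) (by omega) (i + 1) hi
    have hzf : ∀ j, j < r → z ≠ f j := fun j hj => (hG (2 * d) (by omega) j hj).1
    have hZc : Conn G (Z d : Set V) := by
      apply conn_seg
      · exact (hW.lt z (2 * d) (by omega)).trans (hW.lt z (2 * d + 1) (by omega))
      · intro s h1 h2
        have h4 := hW.le z (2 * d + 2) (by omega)
        exact (hW.lkg.pth z).adj s (by omega)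
    have g₁ : Rung G (Z d) (seg (p (f i)) (c (f i) (2 * d)) (c (f i) (2 * (d + 1)))) K₁ := by
      have h1 : Rung G (seg (p z) 0 (n z + 1) ∩ U (2 * d))
          (seg (p (f i)) 0 (n (f i) + 1) ∩ U (2 * d)) K₁ := by
        rcases hR₁ with h | h
        · exact h
        · exact LadS_symm h
      exact LadS_mono h1 (LadS_seg hW z (2 * d) (2 * d) (2 * d + 2) (by omega) (by omega)
        (by omega) (by omega)) (LadS_seg hW (f i) (2 * d) (2 * d) (2 * (d + 1)) (by omega)
        (by omega) (by omega) (by omega))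
    have g₂ : Rung G (Z d) (seg (p (f (i + 1))) (c (f (i + 1)) (2 * d))
        (c (f (i + 1)) (2 * (d + 1)))) K₂ := by
      have h1 : Rung G (seg (p z) 0 (n z + 1) ∩ U (2 * d + 1))
          (seg (p (f (i + 1))) 0 (n (f (i + 1)) + 1) ∩ U (2 * d + 1)) K₂ := by
        rcases hR₂ with h | h
        · exact h
        · exact LadS_symm h
      exact LadS_mono h1 (LadS_seg hW z (2 * d + 1) (2 * d) (2 * d + 2) (by omega) (by omega)
        (by omega) (by omega)) (LadS_seg hW (f (i + 1)) (2 * d + 1) (2 * d) (2 * (d + 1))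
        (by omega) (by omega) (by omega) (by omega))
    obtain ⟨a₁, b₁⟩ := LadS_half g₁ hZc
    obtain ⟨a₂, b₂⟩ := LadS_half g₂ hZc
    refine ⟨(Z d ∪ K₁) ∪ (Z d ∪ K₂), ?_, ?_, Or.inr ⟨?_, ?_, ?_⟩⟩
    · intro v hv
      rcases Finset.mem_union.1 hv with hv | hv
      · rcases Finset.mem_union.1 hv with hv | hv
        · exact Finset.mem_union_right _ hv
        · exact Finset.mem_union_left _ (Finset.mem_union_left _ (Finset.mem_sdiff.1 (hK₁ hv)).1)
      · rcases Finset.mem_union.1 hv with hv | hv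
        · exact Finset.mem_union_right _ hv
        · exact Finset.mem_union_left _ (Finset.mem_union_right _ (Finset.mem_sdiff.1 (hK₂ hv)).1)
    · intro j hj
      rw [Finset.disjoint_left]
      intro v hv hv'
      obtain ⟨s, -, hs, hsv⟩ := mem_seg.1 hv'
      have hrow : v ∈ rws n p := mem_rws.2 ⟨f j, s, by omega, hsv⟩
      have hz : v ∉ Z d := by
        intro h
        obtain ⟨t, ht, htv⟩ := hZrow d hd v h
        exact hW.lkg.dis z (f j) (hzf j hj) t ht s (by omega) (htv.trans hsv.symm)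
      rcases Finset.mem_union.1 hv with hv | hv
      · rcases Finset.mem_union.1 hv with hv | hv
        · exact hz hv
        · exact (Finset.mem_sdiff.1 (hK₁ hv)).2 hrow
      · rcases Finset.mem_union.1 hv with hv | hv
        · exact hz hv
        · exact (Finset.mem_sdiff.1 (hK₂ hv)).2 hrow
    · rw [Finset.coe_union (Z d ∪ K₁)]
      refine a₁.union a₂ (Or.inl ?_)
      obtain ⟨v, hv⟩ := hZc.1
      exact ⟨v, Finset.mem_coe.2 (Finset.mem_union_left _ (Finset.mem_coe.1 hv)),
        Finset.mem_coe.2 (Finset.mem_union_left _ (Finset.mem_coe.1 hv))⟩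
    · exact b₁.symm.mono subset_rfl (Finset.coe_subset.2 Finset.subset_union_left)
    · exact b₂.mono (Finset.coe_subset.2 Finset.subset_union_right) subset_rfl

end Pool.Agent.MPd439b2.GT
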