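import Pool.Agent.Lib.MP_d439b2_co.GT.SpecG
import Pool.Agent.Lib.MP_2ce0dd_pr.Menger

/-!
# MP_d439b2_co, the grid theorem: Menger's theorem for paths as functions
-/

set_option autoImplicit false

namespace Pool.Agent.MPd439b2.GT

open Pool.Agent.MPd439b2 Pool.Agent.Lib.MP_2ce0dd_pr

/-- A chain can be made free of repetitions, with the same ends and vertices of the chain only. -/
private lemma Men_nodup {U : Type} (R : U → U → Prop) : ∀ (N : ℕ) (p : List U), p.length ≤ N →
    p ≠ [] → List.IsChain R p →
    ∃ q : List U, List.IsChain R q ∧ q.head? = p.head? ∧ q.getLast? = p.getLast? ∧ q.Nodup ∧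
      ∀ v, v ∈ q → v ∈ p := by
  intro N
  induction N with
  | zero =>
    intro p hp hne _
    exact absurd (List.length_eq_zero_iff.1 (by omega)) hne
  | succ N ih =>
    intro p hp hne hc
    cases p with
    | nil => exact absurd rfl hne
    | cons a t =>
      by_cases hat : a ∈ t
      · obtain ⟨l, r, rfl⟩ := List.append_of_mem hat
        have h1 : List.IsChain R (a :: r) := by
          have h2 : List.IsChain R ((a :: l) ++ a :: r) := by simpa using hc
          exact (List.isChain_split.1 h2).2
        have h3 : (a :: r).length ≤ N := by
          simp only [List.length_cons, List.length_append] at hp ⊢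
          omega
        obtain ⟨q, q1, q2, q3, q4, q5⟩ := ih (a :: r) h3 (by simp) h1
        refine ⟨q, q1, by rw [q2]; rfl, ?_, q4, ?_⟩
        · rw [q3]
          have : (a :: (l ++ a :: r)) = (a :: l) ++ (a :: r) := rfl
          rw [this, List.getLast?_append]
          cases h : (a :: r).getLast? with
          | none => simp at h
          | some w => simp
        · intro v hv
          have := q5 v hv
          simp only [List.mem_cons, List.mem_append] at this ⊢
          tauto
      · cases t with
        | nil =>
          exact ⟨[a], by simp, rfl, rfl, by simp, fun v hv => hv⟩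
        | cons b t =>
          have h1 : List.IsChain R (b :: t) := (List.isChain_cons_cons.1 hc).2
          have h2 : R a b := (List.isChain_cons_cons.1 hc).1
          have h3 : (b :: t).length ≤ N := by
            simp only [List.length_cons] at hp ⊢
            omega
          obtain ⟨q, q1, q2, q3, q4, q5⟩ := ih (b :: t) h3 (by simp) h1
          cases q with
          | nil => simp at q2
          | cons c q =>
            have hcb : c = b := by simpa using q2
            subst hcb
            refine ⟨a :: c :: q, List.isChain_cons_cons.2 ⟨h2, q1⟩, rfl, ?_, ?_, ?_⟩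
            · simp only [List.getLast?_cons_cons] at q3 ⊢
              exact q3
            · rw [List.nodup_cons]
              exact ⟨fun h => hat (q5 a h), q4⟩
            · intro v hv
              rcases List.mem_cons.1 hv with h | h
              · exact h ▸ List.mem_cons_self
              · exact List.mem_cons_of_mem _ (q5 v h)

theorem pMen : SMen := by
  classical
  intro V _ _ G A B k hk
  let E : Finset (V × V) := Finset.univ.filter fun e : V × V => G.Adj e.1 e.2
  have hE : ∀ u v : V, (u, v) ∈ E ↔ G.Adj u v := by
    intro u v
    simp [E]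
  obtain ⟨P, hP1, hP2⟩ := menger k _ E rfl A B (by
    intro X hX
    let L : Finset V := Finset.univ.filter fun v => ∃ p : List V,
      List.IsChain (fun a b => (a, b) ∈ E) p ∧ (∃ a ∈ A, p.head? = some a) ∧
        p.getLast? = some v ∧ ∀ w, w ∈ p → w ∉ X
    have hL : ∀ v, v ∈ L ↔ ∃ p : List V,
      List.IsChain (fun a b => (a, b) ∈ E) p ∧ (∃ a ∈ A, p.head? = some a) ∧
        p.getLast? = some v ∧ ∀ w, w ∈ p → w ∉ X := by
      intro v
      simp [L]
    apply hk L X
    refine ⟨?_, ?_, ?_, ?_⟩
    · intro a ha
      rw [Finset.mem_union]
      by_cases hX' : a ∈ X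
      · exact Or.inr hX'
      · left
        rw [hL]
        refine ⟨[a], by simp, ⟨a, ha, rfl⟩, rfl, ?_⟩
        intro w hw
        rw [List.mem_singleton] at hw
        rw [hw]
        exact hX'
    · rw [Finset.disjoint_left]
      intro b hb hbL
      rw [hL] at hbL
      obtain ⟨p, p1, p2, p3, p4⟩ := hbL
      obtain ⟨v, hv, hvX⟩ := hX p ⟨p1, p2, ⟨b, hb, p3⟩⟩
      exact p4 v hv hvX
    · rw [Finset.disjoint_left]
      intro v hv
      rw [hL] at hv
      obtain ⟨p, p1, p2, p3, p4⟩ := hv
      exact p4 v (List.mem_of_getLast? p3)
    · intro u hu v huv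
      rw [Finset.mem_union]
      by_cases hX' : v ∈ X
      · exact Or.inr hX'
      · left
        rw [hL] at hu ⊢
        obtain ⟨p, p1, ⟨a, ha, p2⟩, p3, p4⟩ := hu
        refine ⟨p ++ [v], ?_, ⟨a, ha, ?_⟩, by simp, ?_⟩
        · refine List.IsChain.append p1 (by simp) ?_
          intro x hx y hy
          rw [p3] at hx
          simp only [Option.mem_def, Option.some.injEq, List.head?_cons] at hx hy
          rw [← hx, ← hy]
          exact (hE u v).2 huv
        · cases p with
          | nil => simp at p2
          | cons c p => simpa using p2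
        · intro w hw
          rcases List.mem_append.1 hw with h | h
          · exact p4 w h
          · rw [List.mem_singleton] at h
            rw [h]
            exact hX')
  have h1 : ∀ i : Fin k, ∃ q : List V, List.IsChain (fun a b => (a, b) ∈ E) q ∧
      q.head? = (P i).head? ∧ q.getLast? = (P i).getLast? ∧ q.Nodup ∧ ∀ v, v ∈ q → v ∈ P i := by
    intro i
    have hne : P i ≠ [] := by
      intro h
      obtain ⟨a, -, h2⟩ := (hP1 i).head
      rw [h] at h2
      simp at h2
    exact Men_nodup _ _ (P i) le_rfl hne (hP1 i).chain
  choose q q1 q2 q3 q4 q5 using h1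
  have hq : ∀ i : Fin k, q i ≠ [] := by
    intro i h
    obtain ⟨a, -, h2⟩ := (hP1 i).head
    rw [← q2 i, h] at h2
    simp at h2
  have hlen : ∀ i : Fin k, 0 < (q i).length := fun i => List.length_pos_iff.2 (hq i)
  refine ⟨fun i => (q i).length - 1, fun i s => (q i).getD s ((q i).head (hq i)), ?_, ?_⟩
  · intro i
    have hl := hlen i
    refine ⟨?_, ?_, ?_, ?_⟩
    · intro s hs t ht hst
      have hs' : s < (q i).length := by omega
      have ht' : t < (q i).length := by omega
      rw [List.getD_eq_getElem _ _ hs', List.getD_eq_getElem _ _ ht'] at hst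
      exact ((q4 i).getElem_inj_iff).1 hst
    · intro s hs
      have hs' : s < (q i).length := by omega
      have ht' : s + 1 < (q i).length := by omega
      rw [List.getD_eq_getElem _ _ hs', List.getD_eq_getElem _ _ ht']
      exact (hE _ _).1 (List.isChain_iff_getElem.1 (q1 i) s ht')
    · obtain ⟨a, ha, h2⟩ := (hP1 i).head
      rw [← q2 i, List.head?_eq_getElem?, List.getElem?_eq_getElem hl] at h2
      rw [List.getD_eq_getElem _ _ hl, Option.some.inj h2]
      exact ha
    · obtain ⟨b, hb, h2⟩ := (hP1 i).last
      have hl' : (q i).length - 1 < (q i).length := by omega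
      rw [← q3 i, List.getLast?_eq_getElem?, List.getElem?_eq_getElem hl'] at h2
      rw [List.getD_eq_getElem _ _ hl', Option.some.inj h2]
      exact hb
  · intro i j hij s hs t ht hst
    have hs' : s < (q i).length := by
      have := hlen i
      omega
    have ht' : t < (q j).length := by
      have := hlen j
      omega
    rw [List.getD_eq_getElem _ _ hs', List.getD_eq_getElem _ _ ht'] at hst
    have h2 := q5 i _ (List.getElem_mem hs')
    have h3 := q5 j _ (List.getElem_mem ht')
    rw [hst] at h2
    exact hP2 i j hij h2 h3

end Pool.Agent.MPd439b2.GT
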