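import Pool.Agent.Lib.MP_d439b2_co.GT.SpecG

/-!
# MP_d439b2_co, the grid theorem: the minimal configuration
-/

set_option autoImplicit false

namespace Pool.Agent.MPd439b2.GT

open Pool.Agent.MPd439b2

theorem pMin (h1 : SBigC) (h2 : SExtA) (h3 : SExtB) (h4 : SExtC) : SMin := by
  classical
  intro V _ _ G S m k hm hk hH
  have hpos : 0 < 2 * (m * k) := by
    have := Nat.mul_pos hm hk
    omega
  have key : ∀ n : ℕ, ∀ (C : Finset V) (T A : Fin m → Finset V), C.card = n → Cfg G S m k C T A →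
      ∃ (C : Finset V) (T A : Fin m → Finset V), Cfg G S m k C T A ∧ (∀ i, (A i).card = k) ∧
        ∀ X₁ : Finset V, X₁ ⊆ allA A → ∀ L Z, ¬ Bad G S C A X₁ L Z := by
    intro n
    induction n using Nat.strong_induction_on with
    | _ n ih =>
      intro C T A hn hcfg
      by_cases h5 : ∃ i, (A i).card < k
      · obtain ⟨C', T', A', h6, h7⟩ := h2 V G S m k hH C T A hcfg h5
        exact ih _ (by omega) C' T' A' rfl h6
      · push Not at h5
        by_cases h6 : ∃ X₁ : Finset V, X₁ ⊆ allA A ∧ ∃ L Z, Bad G S C A X₁ L Z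
        · obtain ⟨X₁, h7, h8⟩ := h6
          obtain ⟨L, Z, h9, h10⟩ := h3 V G S m k hH C T A hcfg X₁ h7 h8
          obtain ⟨C', T', A', h11, h12⟩ := h4 V G S m k C T A hcfg X₁ h7 L Z h9 h10
          exact ih _ (by omega) C' T' A' rfl h11
        · refine ⟨C, T, A, hcfg, fun i => le_antisymm (hcfg.card i) (h5 i), ?_⟩
          intro X₁ h7 L Z h8
          exact h6 ⟨X₁, h7, L, Z, h8⟩
  obtain ⟨C, h5, h6, h7, h8⟩ := h1 V G S _ hH ∅ (by simpa using hpos)
  refine key _ C (fun _ => ∅) (fun _ => ∅) rfl ⟨h5, h7, fun v => ?_, fun i => by simp,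
    fun i => Finset.Subset.refl _, fun i => Finset.disjoint_empty_left _,
    fun i j _ => Finset.disjoint_empty_left _, fun i h => by simp at h⟩
  constructor
  · rintro ⟨h9, u, hu, huv⟩
    have := h8 u hu v huv
    rw [Finset.union_empty] at this
    exact absurd this h9
  · rintro ⟨i, hi⟩
    exact absurd hi (Finset.notMem_empty v)

end Pool.Agent.MPd439b2.GT
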