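import Pool.Agent.Lib.MP_d439b2_co.GT.SpecG

/-!
# MP_d439b2_co, the grid theorem: an edge minimal graph (`SMinH`)
-/

set_option autoImplicit false

namespace Pool.Agent.MPd439b2.GT

/-- **An edge minimal graph.** -/
theorem pMinH : SMinH := by
  intro V _ _ G A B b a P hG
  let s : Set (SimpleGraph V) := {H | (∀ u v, H.Adj u v → G.Adj u v) ∧
    (∀ i u v, u ∈ P i → v ∈ P i → G.Adj u v → H.Adj u v) ∧ ∃ n p, Lkg H A B b n p}
  have hs : s.Nonempty := ⟨G, fun _ _ h => h, fun _ _ _ _ _ h => h, hG⟩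
  obtain ⟨H, hH⟩ := (Set.toFinite s).exists_minimal hs
  have hH1 : H ∈ s := hH.prop
  refine ⟨H, hH1.1, hH1.2.1, hH1.2.2, ?_⟩
  intro x y hxy hP hL
  have h1 : delE H x y ∈ s := by
    refine ⟨fun u v h => hH1.1 u v h.1, fun i u v hu hv h => ⟨hH1.2.1 i u v hu hv h, ?_, ?_⟩, hL⟩
    · rintro ⟨rfl, rfl⟩
      exact hP i ⟨hu, hv⟩
    · rintro ⟨rfl, rfl⟩
      exact hP i ⟨hv, hu⟩
  have h2 : delE H x y ≤ H := fun u v h => h.1
  have h3 : H ≤ delE H x y := hH.le_of_le h1 h2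
  exact (h3 hxy).2.1 ⟨rfl, rfl⟩

end Pool.Agent.MPd439b2.GT
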