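import Pool.Agent.Lib.MP_d439b2_co.GT.SpecG

/-!
# MP_d439b2_co, the grid theorem: the mesh
-/

set_option autoImplicit false

namespace Pool.Agent.MPd439b2.GT

open Pool.Agent.MPd439b2

theorem pMsh (h1 : SMin) (h2 : SLink) (h3 : SDeep) : SMsh := by
  intro V _ _ G S m k hm hk hH
  obtain ⟨C, T, A, hcfg, hcard, hbad⟩ := h1 V G S m k hm hk hH
  refine ⟨C, T, A, hcard, hcfg.sub, hcfg.out, hcfg.dis, fun i => hcfg.con i ?_,
    h2 V G S m k hH C T A hcfg hcard hbad, h3 V G S m k hH C T A hcfg hbad⟩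
  rw [← Finset.card_pos, hcard i]
  exact hk

end Pool.Agent.MPd439b2.GT
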