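import Pool.Agent.Lib.MP_d439b2_co.GT.SpecG

/-!
# MP_d439b2_co, the grid theorem: a path or a star in a connected graph
-/

set_option autoImplicit false

namespace Pool.Agent.MPd439b2.GT

open Classical in
private noncomputable def PS_N {R : ℕ} (Γ : SimpleGraph (Fin R)) (v : Fin R) : Finset (Fin R) :=
  Finset.univ.filter fun w => Γ.Adj v w

private theorem PS_mem_N {R : ℕ} (Γ : SimpleGraph (Fin R)) (v w : Fin R) : w ∈ PS_N Γ v ↔ Γ.Adj v w := by
  simp [PS_N]

private noncomputable def PS_B {R : ℕ} (Γ : SimpleGraph (Fin R)) (z : Fin R) : ℕ → Finset (Fin R)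
  | 0 => {z}
  | j + 1 => (PS_B Γ z j).biUnion fun v => insert v (PS_N Γ v)

private theorem PS_mem {R : ℕ} (Γ : SimpleGraph (Fin R)) (z : Fin R) (j : ℕ) (w : Fin R) :
    w ∈ PS_B Γ z (j + 1) ↔ ∃ v, v ∈ PS_B Γ z j ∧ (w = v ∨ Γ.Adj v w) := by
  simp [PS_B, PS_mem_N]

private theorem PS_mono {R : ℕ} (Γ : SimpleGraph (Fin R)) (z : Fin R) (i j : ℕ) (h : i ≤ j) :
    PS_B Γ z i ⊆ PS_B Γ z j := by
  induction h with
  | refl => exact Finset.Subset.refl _
  | step _ ih =>
    intro w hw
    exact (PS_mem Γ z _ w).2 ⟨w, ih hw, Or.inl rfl⟩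

private theorem PS_path {R : ℕ} (Γ : SimpleGraph (Fin R)) (z : Fin R) (m : ℕ) :
    ∀ v, v ∈ PS_B Γ z m → (∀ l, l + 1 = m → v ∉ PS_B Γ z l) → ∃ u : ℕ → Fin R, u m = v ∧
      (∀ j, j < m → Γ.Adj (u j) (u (j + 1))) ∧ (∀ j, j ≤ m → u j ∈ PS_B Γ z j) ∧
      ∀ j, j < m → u (j + 1) ∉ PS_B Γ z j := by
  induction m with
  | zero =>
    intro v hv _
    refine ⟨fun _ => v, rfl, fun j hj => absurd hj (Nat.not_lt_zero j), fun j hj => ?_,
      fun j hj => absurd hj (Nat.not_lt_zero j)⟩
    rw [Nat.le_zero.1 hj]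
    exact hv
  | succ m ih =>
    intro v hv hn
    obtain ⟨w, hw, h1⟩ := (PS_mem Γ z m v).1 hv
    have hvn : v ∉ PS_B Γ z m := hn m rfl
    have hadj : Γ.Adj w v := by
      rcases h1 with h1 | h1
      · exact absurd (h1 ▸ hw) hvn
      · exact h1
    obtain ⟨u, hu1, hu2, hu3, hu4⟩ := ih w hw (by
      intro l hl hwl
      apply hvn
      rw [← hl]
      exact (PS_mem Γ z l v).2 ⟨w, hwl, Or.inr hadj⟩)
    refine ⟨fun j => if j ≤ m then u j else v, ?_, ?_, ?_, ?_⟩
    · simp
    · intro j hj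
      by_cases h2 : j < m
      · have h3 : j ≤ m := h2.le
        have h4 : j + 1 ≤ m := h2
        simp only [h3, h4, if_true]
        exact hu2 j h2
      · have h3 : j = m := by omega
        subst h3
        simp only [le_refl, if_true]
        have h4 : ¬ (j + 1 ≤ j) := by omega
        simp only [h4, if_false]
        rw [hu1]
        exact hadj
    · intro j hj
      by_cases h2 : j ≤ m
      · simp only [h2, if_true]
        exact hu3 j h2
      · have h3 : j = m + 1 := by omega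
        simp only [h2, if_false]
        rw [h3]
        exact hv
    · intro j hj
      by_cases h2 : j + 1 ≤ m
      · simp only [h2, if_true]
        exact hu4 j h2
      · have h3 : j = m := by omega
        simp only [h2, if_false]
        rw [h3]
        exact hvn

private theorem PS_star {R r : ℕ} (Γ : SimpleGraph (Fin R)) (z : Fin R) (S : Finset (Fin R))
    (hS : ∀ w ∈ S, Γ.Adj z w) (hr : r ≤ S.card) :
    ∃ f : ℕ → Fin R, (∀ i, i < r → ∀ j, j < r → f i = f j → i = j) ∧ ∀ i, i < r → Γ.Adj z (f i) := by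
  refine ⟨fun i => if h : i < r then S.orderEmbOfCardLe hr ⟨i, h⟩ else z, ?_, ?_⟩
  · intro i hi j hj h
    simp only [hi, hj, dif_pos] at h
    have h1 := (S.orderEmbOfCardLe hr).injective h
    exact Fin.mk.inj_iff.1 h1
  · intro i hi
    simp only [hi, dif_pos]
    exact hS _ (Finset.orderEmbOfCardLe_mem S hr _)

theorem pPS : SPS := by
  intro r
  refine ⟨r ^ r + 2, fun Γ hΓ => ?_⟩
  let z : Fin (r ^ r + 2) := ⟨0, by omega⟩
  by_cases hstar : ∃ y : Fin (r ^ r + 2), r ≤ (PS_N Γ y).card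
  · obtain ⟨y, hy⟩ := hstar
    obtain ⟨f, hf⟩ := PS_star Γ y _ (fun w hw => (PS_mem_N Γ y w).1 hw) hy
    exact Or.inr ⟨y, f, hf⟩
  · left
    push Not at hstar
    rcases Nat.eq_zero_or_pos r with h0 | hpos
    · refine ⟨fun _ => z, fun i hi => ?_, fun i hi => ?_⟩
      · omega
      · omega
    have hcard : ∀ j, (PS_B Γ z j).card ≤ r ^ j := by
      intro j
      induction j with
      | zero => simp [PS_B]
      | succ j ih =>
        have h1 : ((PS_B Γ z j).biUnion fun v => insert v (PS_N Γ v)).card ≤ (PS_B Γ z j).card * r := by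
          apply Finset.card_biUnion_le_card_mul
          intro v _
          refine (Finset.card_insert_le _ _).trans ?_
          have h2 := hstar v
          omega
        calc _ ≤ _ := h1
          _ ≤ r ^ j * r := Nat.mul_le_mul_right _ ih
          _ = r ^ (j + 1) := (pow_succ r j).symm
    have hne : ∀ j, j ≤ r → PS_B Γ z j ≠ Finset.univ := by
      intro j hj h
      have h1 := hcard j
      rw [h, Finset.card_univ, Fintype.card_fin] at h1
      have h2 : r ^ j ≤ r ^ r := Nat.pow_le_pow_right hpos hj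
      omega
    have hz : ∀ j, z ∈ PS_B Γ z j := fun j => PS_mono Γ z 0 j (Nat.zero_le j) (by simp [PS_B])
    obtain ⟨v, hv1, hv2⟩ : ∃ v, v ∈ PS_B Γ z (r - 1) ∧ ∀ l, l + 1 = r - 1 → v ∉ PS_B Γ z l := by
      by_cases h1 : r = 1
      · exact ⟨z, hz _, fun l hl => by omega⟩
      · obtain ⟨i, hi, j, hj, hij⟩ := hΓ (PS_B Γ z (r - 2)) ⟨z, hz _⟩ (hne _ (by omega))
        refine ⟨j, ?_, ?_⟩
        · have h2 : r - 1 = (r - 2) + 1 := by omega
          rw [h2]
          exact (PS_mem Γ z _ j).2 ⟨i, hi, Or.inr hij⟩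
        · intro l hl
          have h2 : l = r - 2 := by omega
          rw [h2]
          exact hj
    obtain ⟨u, -, hu2, hu3, hu4⟩ := PS_path Γ z (r - 1) v hv1 hv2
    have hlt : ∀ i j, i < j → j < r → u i ≠ u j := by
      intro i j hij hj h
      have h1 := hu3 i (by omega)
      have h2 := hu4 (j - 1) (by omega)
      have h3 : j - 1 + 1 = j := by omega
      rw [h3] at h2
      exact h2 (h ▸ PS_mono Γ z i (j - 1) (by omega) h1)
    refine ⟨u, fun i hi j hj h => ?_, fun i hi => hu2 i (by omega)⟩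
    rcases lt_trichotomy i j with h1 | h1 | h1
    · exact absurd h (hlt i j h1 hj)
    · exact h1
    · exact absurd h.symm (hlt j i h1 hi)

end Pool.Agent.MPd439b2.GT
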