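import Pool.Agent.Lib.MP_d439b2_co.GT.SpecG

/-!
# MP_d439b2_co, the grid theorem: selection
-/

set_option autoImplicit false

namespace Pool.Agent.MPd439b2.GT

open Pool.Agent.MPd439b2

theorem Sel_mono {R D L N N' : ℕ} (h : SelP R D L N) (hN : N ≤ N') : SelP R D L N' := by
  intro V _ _ G a b hab
  refine h V G a b fun π => ?_
  obtain ⟨n, p, hp⟩ := hab π
  exact ⟨_, _, hp.mono (fun _ _ h => h) (Finset.Subset.refl _) (Finset.Subset.refl _) hN⟩

theorem pSel (h1 : SSelS) : SSel := by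
  intro R D L
  have key : ∃ N, SelP R D L N := by
    induction L with
    | zero =>
      refine ⟨0, fun V _ _ G a b _ => Or.inl ⟨Fin.elim0, Fin.elim0, fun π => π.elim0,
        fun π => π.elim0⟩⟩
    | succ L ih =>
      obtain ⟨N, hN⟩ := ih
      exact h1 R D L N hN
  obtain ⟨N, hN⟩ := key
  exact ⟨N, fun N' hN' => Sel_mono hN hN'⟩

end Pool.Agent.MPd439b2.GT
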