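import Pool.Agent.Lib.MP_d439b2_co.GT.SpecG

set_option autoImplicit false

/-!
# MP_d439b2_co, grid theorem: selection, one step
-/

namespace Pool.Agent.MPd439b2.GT

open Pool.Agent.MPd439b2

/-- The graph without the edges at the vertices of `P`. -/
private def SelS_del {V : Type} (G : SimpleGraph V) (P : Finset V) : SimpleGraph V where
  Adj u v := G.Adj u v ∧ u ∉ P ∧ v ∉ P
  symm := ⟨fun _ _ h => ⟨h.1.symm, h.2.2, h.2.1⟩⟩
  loopless := ⟨fun u h => G.loopless.irrefl u h.1⟩

/-- **Selection, one step.** -/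
theorem pSelS (h1 : SMinH) (h2 : SCore) : SSelS := by
  intro R D L N hSel
  obtain ⟨b₀, hb₀⟩ : ∃ b₀, b₀ = N + R + 1 := ⟨_, rfl⟩
  obtain ⟨M, hM⟩ : ∃ M, M = (D + 1) * ((D + 1) * b₀ + 1) := ⟨_, rfl⟩
  obtain ⟨N', hN'⟩ : ∃ N', N' = b₀ + (L * 2 ^ b₀ * M + 1) := ⟨_, rfl⟩
  refine ⟨N', ?_⟩
  intro V _ _ G a b hlk
  classical
  obtain ⟨n, p, hp⟩ := hlk (Fin.last L)
  obtain ⟨P, hPdef⟩ : ∃ P : Fin N' → Finset V, P = fun i => seg (p i) 0 (n i + 1) := ⟨_, rfl⟩
  have hPm : ∀ i v, v ∈ P i ↔ ∃ s, s ≤ n i ∧ p i s = v := by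
    intro i v
    rw [hPdef]
    simp only [mem_seg]
    constructor
    · rintro ⟨s, -, h3, h4⟩
      exact ⟨s, by omega, h4⟩
    · rintro ⟨s, h3, h4⟩
      exact ⟨s, Nat.zero_le _, by omega, h4⟩
  have hPc : ∀ i, Conn G (P i : Set V) := by
    intro i
    rw [hPdef]
    exact conn_seg (by omega) (fun s _ hs => (hp.pth i).adj s (by omega))
  have hPd : ∀ i j, i ≠ j → Disjoint (P i) (P j) := by
    intro i j hij
    rw [Finset.disjoint_left]
    intro v hv hv'
    obtain ⟨s, hs, h3⟩ := (hPm i v).1 hv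
    obtain ⟨t, ht, h4⟩ := (hPm j v).1 hv'
    exact hp.dis i j hij s hs t ht (h3.trans h4.symm)
  -- the minimal graphs
  have hH : ∀ π : Fin L, ∃ H : SimpleGraph V, (∀ u v, H.Adj u v → G.Adj u v) ∧
      (∀ i u v, u ∈ P i → v ∈ P i → G.Adj u v → H.Adj u v) ∧
      (∃ n p, Lkg H (a π.castSucc) (b π.castSucc) b₀ n p) ∧
      ∀ x y, H.Adj x y → (∀ i, ¬ (x ∈ P i ∧ y ∈ P i)) →
        ¬ ∃ n p, Lkg (delE H x y) (a π.castSucc) (b π.castSucc) b₀ n p := by
    intro π
    apply h1 V G (a π.castSucc) (b π.castSucc) b₀ N' P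
    obtain ⟨n', p', h3⟩ := hlk π.castSucc
    exact ⟨_, _, h3.mono (fun _ _ hh => hh) (Finset.Subset.refl _) (Finset.Subset.refl _)
      (by omega)⟩
  choose H hH1 hH2 hH3 hH4 using hH
  choose nq q hq using hH3
  by_cases hcase : ∃ i : Fin N', ∀ π : Fin L, N ≤ (Finset.univ.filter
      (fun x : Fin b₀ => ∀ s, s ≤ nq π x → q π x s ∉ P i)).card
  · obtain ⟨i, hi⟩ := hcase
    have h3 := hSel V (SelS_del G (P i)) (fun π => a π.castSucc \ P i)
      (fun π => b π.castSucc \ P i) (by
        intro π
        obtain ⟨F, hF⟩ : ∃ F : Finset (Fin b₀), F = Finset.univ.filter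
          (fun x : Fin b₀ => ∀ s, s ≤ nq π x → q π x s ∉ P i) := ⟨_, rfl⟩
        have hFc : N ≤ F.card := by
          rw [hF]
          exact hi π
        have hFm : ∀ y : Fin N, ∀ s, s ≤ nq π (F.orderEmbOfFin rfl (Fin.castLE hFc y)) →
            q π (F.orderEmbOfFin rfl (Fin.castLE hFc y)) s ∉ P i := by
          intro y
          have h4 := F.orderEmbOfFin_mem rfl (Fin.castLE hFc y)
          have h5 : F.orderEmbOfFin rfl (Fin.castLE hFc y) ∈ Finset.univ.filter
            (fun x : Fin b₀ => ∀ s, s ≤ nq π x → q π x s ∉ P i) := by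
            rw [← hF]
            exact h4
          exact (Finset.mem_filter.1 h5).2
        refine ⟨fun y => nq π (F.orderEmbOfFin rfl (Fin.castLE hFc y)),
          fun y => q π (F.orderEmbOfFin rfl (Fin.castLE hFc y)), ?_, ?_⟩
        · intro y
          have h4 := (hq π).pth (F.orderEmbOfFin rfl (Fin.castLE hFc y))
          refine ⟨h4.inj, ?_, ?_, ?_⟩
          · intro s hs
            exact ⟨hH1 π _ _ (h4.adj s hs), hFm y s (by omega), hFm y (s + 1) (by omega)⟩
          · exact Finset.mem_sdiff.2 ⟨h4.head, hFm y 0 (Nat.zero_le _)⟩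
          · exact Finset.mem_sdiff.2 ⟨h4.last, hFm y _ le_rfl⟩
        · intro y y' hyy
          apply (hq π).dis
          intro h4
          exact hyy (Fin.castLE_injective hFc ((F.orderEmbOfFin rfl).injective h4)))
    rcases h3 with ⟨n', p', h3, h4⟩ | ⟨π, n', p', U, c, hW⟩
    · left
      have h5 : ∀ (π : Fin L) s, s ≤ n' π → p' π s ∉ P i := by
        intro π s
        induction s with
        | zero =>
          intro _
          exact (Finset.mem_sdiff.1 (h3 π).head).2
        | succ s ih =>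
          intro hs
          exact ((h3 π).adj s (by omega)).2.2
      refine ⟨fun π => if h : π.val < L then n' ⟨π.val, h⟩ else n i,
        fun π => if h : π.val < L then p' ⟨π.val, h⟩ else p i, ?_, ?_⟩
      · intro π
        by_cases hπ : π.val < L
        · simp only [dif_pos hπ]
          have h6 : π = Fin.castSucc ⟨π.val, hπ⟩ := by
            apply Fin.ext
            rfl
          have h7 := (h3 ⟨π.val, hπ⟩).mono (G' := G) (fun u v huv => huv.1)
            Finset.sdiff_subset Finset.sdiff_subset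
          rw [← h6] at h7
          exact h7
        · simp only [dif_neg hπ]
          have h6 : π = Fin.last L := by
            apply Fin.ext
            have := π.isLt
            simp only [Fin.val_last]
            omega
          rw [h6]
          exact hp.pth i
      · intro π ρ hne s hs t ht
        by_cases hπ : π.val < L <;> by_cases hρ : ρ.val < L
        · simp only [dif_pos hπ] at hs ⊢
          simp only [dif_pos hρ] at ht ⊢
          apply h4 _ _ _ s hs t ht
          intro h6
          rw [Fin.mk.injEq] at h6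
          exact hne (Fin.ext h6)
        · simp only [dif_pos hπ] at hs ⊢
          simp only [dif_neg hρ] at ht ⊢
          intro h6
          exact h5 _ s hs ((hPm i _).2 ⟨t, ht, h6.symm⟩)
        · simp only [dif_neg hπ] at hs ⊢
          simp only [dif_pos hρ] at ht ⊢
          intro h6
          exact h5 _ t ht ((hPm i _).2 ⟨s, hs, h6⟩)
        · exfalso
          apply hne
          apply Fin.ext
          have := π.isLt
          have := ρ.isLt
          omega
    · right
      refine ⟨π.castSucc, n', p', U, c, ?_⟩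
      refine ⟨?_, ?_, hW.dis, hW.lt, hW.le, hW.meet, hW.only⟩
      · exact hW.lkg.mono (G' := G) (k' := R) (fun u v huv => huv.1)
          Finset.sdiff_subset Finset.sdiff_subset le_rfl
      · intro d hd
        exact (hW.conn d hd).mono_graph (fun u _ w _ huw => huw.1)
  · right
    push Not at hcase
    have h3 : ∀ i : Fin N', ∃ (π : Fin L) (I : Finset (Fin b₀)), I.card = R + 1 ∧
        ∀ x, x ∈ I → ∃ s, s ≤ nq π x ∧ q π x s ∈ P i := by
      intro i
      obtain ⟨π, hπ⟩ := hcase i
      have h4 : R + 1 ≤ (Finset.univ.filter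
          (fun x : Fin b₀ => ¬ ∀ s, s ≤ nq π x → q π x s ∉ P i)).card := by
        have h5 := Finset.card_filter_add_card_filter_not (s := (Finset.univ : Finset (Fin b₀)))
          (fun x : Fin b₀ => ∀ s, s ≤ nq π x → q π x s ∉ P i)
        rw [Finset.card_univ, Fintype.card_fin] at h5
        omega
      obtain ⟨I, hI1, hI2⟩ := Finset.exists_subset_card_eq h4
      refine ⟨π, I, hI2, ?_⟩
      intro x hx
      have h5 := (Finset.mem_filter.1 (hI1 hx)).2
      push Not at h5
      obtain ⟨s, hs1, hs2⟩ := h5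
      exact ⟨s, hs1, hs2⟩
    choose π I hI1 hI2 using h3
    obtain ⟨⟨π₀, I₀⟩, -, h4⟩ := Finset.exists_lt_card_fiber_of_mul_lt_card_of_maps_to
      (s := (Finset.univ : Finset (Fin N'))) (t := (Finset.univ : Finset (Fin L × Finset (Fin b₀))))
      (f := fun i => (π i, I i)) (n := M) (fun _ _ => Finset.mem_univ _) (by
        rw [Finset.card_univ, Finset.card_univ, Fintype.card_prod, Fintype.card_fin,
          Fintype.card_finset, Fintype.card_fin, Fintype.card_fin]
        omega)
    obtain ⟨F, hF⟩ : ∃ F : Finset (Fin N'), F = Finset.univ.filter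
      (fun i => (π i, I i) = (π₀, I₀)) := ⟨_, rfl⟩
    have hFc : M ≤ F.card := by
      rw [hF]
      exact h4.le
    have hFm : ∀ i, i ∈ F → π i = π₀ ∧ I i = I₀ := by
      intro i hi
      rw [hF] at hi
      have h5 := (Finset.mem_filter.1 hi).2
      rw [Prod.mk.injEq] at h5
      exact h5
    have hFne : ∃ i, i ∈ F := by
      have h5 : 0 < F.card := by
        have : 0 < F.card := by
          rw [hF]
          exact lt_of_le_of_lt (Nat.zero_le _) h4
        exact this
      exact Finset.card_pos.1 h5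
    have hI₀ : I₀.card = R + 1 := by
      obtain ⟨i, hi⟩ := hFne
      rw [← (hFm i hi).2]
      exact hI1 i
    obtain ⟨U, c, hW⟩ := h2 V G (H π₀) (a π₀.castSucc) (b π₀.castSucc) R D b₀ N' M P hM hPc hPd
      (hH1 π₀) (hH2 π₀) (hH4 π₀) (nq π₀) (q π₀) (hq π₀) (I₀.orderEmbOfFin hI₀)
      (fun x => F.orderEmbOfFin rfl (Fin.castLE hFc x)) (I₀.orderEmbOfFin hI₀).injective
      (fun x y hxy => Fin.castLE_injective hFc ((F.orderEmbOfFin rfl).injective hxy)) (by
        intro x y
        have h5 := F.orderEmbOfFin_mem rfl (Fin.castLE hFc x)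
        obtain ⟨h6, h7⟩ := hFm _ h5
        have h8 := I₀.orderEmbOfFin_mem hI₀ y
        have h9 := hI2 (F.orderEmbOfFin rfl (Fin.castLE hFc x)) (I₀.orderEmbOfFin hI₀ y)
          (by rw [h7]; exact h8)
        rw [h6] at h9
        exact h9)
    exact ⟨π₀.castSucc, _, _, U, c, hW⟩

end Pool.Agent.MPd439b2.GT
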