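import Pool.Agent.Lib.MP_d439b2_co.GT.SpecG

/-!
# MP_d439b2_co, GT/Sub: subsequence with constant connection graph
-/

set_option autoImplicit false

namespace Pool.Agent.MPd439b2.GT

open Pool.Agent.MPd439b2

private lemma Sub_lt (f : ℕ → ℕ) (D : ℕ) (h : ∀ d, d < D → f d < f (d + 1)) :
    ∀ b, b ≤ D → ∀ a, a < b → f a < f b := by
  intro b
  induction b with
  | zero =>
    intro _ a ha
    omega
  | succ b ih =>
    intro hb a ha
    have h1 := h b (by omega)
    rcases Nat.lt_or_ge a b with h2 | h2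
    · exact (ih (by omega) a h2).trans h1
    · have : a = b := by omega
      rw [this]
      exact h1

private lemma Sub_le (f : ℕ → ℕ) (D : ℕ) (h : ∀ d, d < D → f d < f (d + 1))
    (a b : ℕ) (hb : b ≤ D) (hab : a ≤ b) : f a ≤ f b := by
  rcases Nat.lt_or_ge a b with h2 | h2
  · exact (Sub_lt f D h b hb a h2).le
  · have : a = b := by omega
    rw [this]

private lemma Sub_ex (R D' D : ℕ) [Fintype (SimpleGraph (Fin R))]
    (hD : Fintype.card (SimpleGraph (Fin R)) * D' < D) (F : ℕ → SimpleGraph (Fin R)) :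
    ∃ (Γ : SimpleGraph (Fin R)) (e : Fin D' → ℕ), (∀ a b, a < b → e a < e b) ∧
      (∀ a, e a < D) ∧ ∀ a, F (e a) = Γ := by
  classical
  obtain ⟨Γ, -, hΓ⟩ := Finset.exists_lt_card_fiber_of_mul_lt_card_of_maps_to
    (s := Finset.range D) (t := (Finset.univ : Finset (SimpleGraph (Fin R)))) (f := F) (n := D')
    (fun _ _ => Finset.mem_univ _) (by rw [Finset.card_univ, Finset.card_range]; exact hD)
  obtain ⟨T, hT, hTc⟩ := Finset.exists_subset_card_eq hΓ.le
  refine ⟨Γ, fun a => T.orderEmbOfFin hTc a, ?_, ?_, ?_⟩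
  · intro a b hab
    exact (T.orderEmbOfFin hTc).lt_iff_lt.2 hab
  · intro a
    have h1 := hT (T.orderEmbOfFin_mem hTc a)
    rw [Finset.mem_filter, Finset.mem_range] at h1
    exact h1.1
  · intro a
    have h1 := hT (T.orderEmbOfFin_mem hTc a)
    rw [Finset.mem_filter] at h1
    exact h1.2

theorem pSub : SSub := by
  classical
  intro R D'
  haveI : Fintype (SimpleGraph (Fin R)) := Fintype.ofFinite _
  refine ⟨Fintype.card (SimpleGraph (Fin R)) * D' + 1, ?_⟩
  intro V _ _ G A B n p U c hW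
  obtain ⟨Γ, e, he, heD, heΓ⟩ := Sub_ex R D' (Fintype.card (SimpleGraph (Fin R)) * D' + 1)
    (by omega) (fun d => Gam G n p (U d))
  set D := Fintype.card (SimpleGraph (Fin R)) * D' + 1 with hDdef
  have hinj : ∀ a b, e a = e b → a = b := by
    intro a b hab
    rcases lt_trichotomy a b with h | h | h
    · have := he a b h
      omega
    · exact h
    · have := he b a h
      omega
  let U' : ℕ → Finset V := fun l => if h : l < D' then U (e ⟨l, h⟩) else ∅
  let c' : Fin R → ℕ → ℕ := fun i l => if h : l < D' then c i (e ⟨l, h⟩) else c i D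
  have hU : ∀ l (h : l < D'), U' l = U (e ⟨l, h⟩) := fun l h => dif_pos h
  have hc : ∀ i l (h : l < D'), c' i l = c i (e ⟨l, h⟩) := fun i l h => dif_pos h
  have hc2 : ∀ i l, ¬ l < D' → c' i l = c i D := fun i l h => dif_neg h
  have hstep : ∀ i l (h : l < D'), c i (e ⟨l, h⟩ + 1) ≤ c' i (l + 1) := by
    intro i l h
    by_cases h1 : l + 1 < D'
    · rw [hc i _ h1]
      have h2 := he ⟨l, h⟩ ⟨l + 1, h1⟩ (by rw [Fin.mk_lt_mk]; omega)
      exact Sub_le (c i) D (fun d hd => hW.lt i d hd) _ _ (heD _).le (by omega)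
    · rw [hc2 i _ h1]
      have h2 := heD ⟨l, h⟩
      exact Sub_le (c i) D (fun d hd => hW.lt i d hd) _ _ le_rfl (by omega)
  refine ⟨Γ, U', c', ⟨hW.lkg, ?_, ?_, ?_, ?_, ?_, ?_⟩, ?_⟩
  · intro d hd
    rw [hU d hd]
    exact hW.conn _ (heD _)
  · intro d hd f hf hne
    rw [hU d hd, hU f hf]
    refine hW.dis _ (heD _) _ (heD _) ?_
    intro h
    have := hinj _ _ h
    rw [Fin.mk.injEq] at this
    exact hne this
  · intro i d hd
    have h1 := hstep i d hd
    have h2 := hW.lt i (e ⟨d, hd⟩) (heD _)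
    rw [hc i d hd]
    omega
  · intro i d _
    by_cases h : d < D'
    · rw [hc i d h]
      exact hW.le i _ (heD _).le
    · rw [hc2 i d h]
      exact hW.le i _ le_rfl
  · intro i d hd
    rw [hU d hd]
    exact hW.meet i _ (heD _)
  · intro i d hd s hs hps
    rw [hU d hd] at hps
    have h1 := hW.only i _ (heD _) s hs hps
    have h2 := hstep i d hd
    rw [hc i d hd]
    exact ⟨h1.1, by omega⟩
  · intro d hd
    rw [hU d hd]
    exact heΓ _

end Pool.Agent.MPd439b2.GT
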