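import Pool.Agent.Lib.MP_d439b2_co.GT.Base

/-!
# MP_d439b2_co, the grid theorem: statements

Every statement is a proposition `SName`; the module `GT/Name.lean` proves `pName : SName`, or, if the docstring names
other statements, `pName` takes these as hypotheses. Definitions and small lemmas: `GT/Base.lean`. The main result is
`SGK`: a graph with a large haven has a `K_t` model or an `r x r` grid model, in both cases deep in the haven (proof of
Diestel, Jensen, Gorbunov, Thomassen, with the mesh replaced by disjoint connected sets).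
-/

set_option autoImplicit false

namespace Pool.Agent.MPd439b2.GT

open Pool.Agent.MPd439b2

/-- **Menger's theorem** (100 lines, from `Pool.Agent.Lib.MP_2ce0dd_pr.menger`).
Proof. Apply `menger k _ E rfl A B` with `E` the set of all pairs `(u, v)` with `G.Adj u v` (filter of `univ`, classical).
Let `X` meet all list paths from `A` to `B`; `L` the set of the vertices `v ∉ X` for which there is a list chain in `E` from
a vertex of `A` to `v` avoiding `X`. Then `Cut G A B L X` (a vertex of `A` is in `X` or the list `[a]` shows that it is in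
`L`; a vertex of `B ∩ L` gives a path avoiding `X`; `far`: append the vertex), so `k ≤ X.card`. The lists may have repeated
vertices: replace each list `P i` by a shortest list among the list paths from `A` to `B` all of whose vertices are in
`P i`: it has no repetition (cut out the part between two occurrences). For a list `l` without repetition take `n = l.length - 1`
and `p s = l.getD s (p_0)` (or `l[s]` if `s < l.length`). -/
def SMen : Prop :=
  ∀ (V : Type) [Fintype V] [DecidableEq V] (G : SimpleGraph V) (A B : Finset V) (k : ℕ),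
    (∀ L X : Finset V, Cut G A B L X → k ≤ X.card) → ∃ n p, Lkg G A B k n p

/-- **Havens from well linked sets** (80 lines).
Proof. Let `X.card < w`. Call `P` closed if it is disjoint from `X` and has no edges to the outside of `P ∪ X`. The
complement of `X` is closed and contains more than `X.card` elements of `S`. Choose a closed `P` with
`X.card < (S ∩ P).card` and `P.card` minimal; `R` = the complement of `P ∪ X`. If `P` is connected (it is not empty) and `Big`, we are
done. If it is connected and not big then `(S ∩ R).card ≥ S.card - X.card - S.card / 2 > X.card`. If it is not connected, then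
it is the disjoint union of two nonempty sets without edges between them (negation of `Conn`), both closed and smaller, so both contain at most
`X.card` elements of `S`, and `(S ∩ R).card ≥ S.card - 3 * X.card > X.card`. In both cases the hypothesis for `(P, X, R)` is contradicted. -/
def SHv : Prop :=
  ∀ (V : Type) [Fintype V] [DecidableEq V] (G : SimpleGraph V) (S : Finset V) (w : ℕ),
    (∀ P Z R : Finset V, P ∪ Z ∪ R = Finset.univ → Disjoint P Z → Disjoint P R → Disjoint Z R →
      (∀ u, u ∈ P → ∀ v, v ∈ R → ¬ G.Adj u v) → Z.card ≤ w →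
        (S ∩ P).card ≤ Z.card ∨ (S ∩ R).card ≤ Z.card) →
    5 * w ≤ S.card → Hav G S w

/-- **Big components** (30 lines).
Proof. Among the sets `C` with `Conn G C`, `Disjoint X C`, `Big S C` (there is one by `Hav`) choose one with the largest
number of elements. If `u ∈ C`, `G.Adj u v`, `v ∉ C ∪ X` then `insert v C` is connected (`Conn.insert`), disjoint from `X`, big and larger. -/
def SBigC : Prop :=
  ∀ (V : Type) [Fintype V] [DecidableEq V] (G : SimpleGraph V) (S : Finset V) (w : ℕ),
    Hav G S w → ∀ X : Finset V, X.card < w → ∃ C : Finset V, Conn G (C : Set V) ∧ Disjoint X C ∧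
      Big S C ∧ ∀ u, u ∈ C → ∀ v, G.Adj u v → v ∈ C ∪ X

/-- **Extension of a configuration by one vertex** (from `SBigC`, 130 lines).
Proof. Let `(A i).card < k`. Choose `y ∈ C`: if `A i` is not empty, `x ∈ A i`, let `y ∈ C` be adjacent to `x` (`Cfg.nbr`); if `A i` is
empty let `y ∈ C` be arbitrary. `X = allA A ∪ {y}` has at most `(m - 1) k + (k - 1) + 1 = m k < 2 m k` elements (`m, k ≥ 1` as
`i : Fin m`, `(A i).card < k`). `C'` = the set of `SBigC` for `X`. `C` is closed with respect to `allA A` (`Cfg.nbr`), `C'` is connected,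
disjoint from `allA A` and meets `C` (`Big.inter`), so `C' ⊆ C` (`sub_of_closed`), and `y ∉ C'`: `C'.card < C.card`.
`T' i = T i ∪ {y}` if `A i` is not empty, `T' i = {y}` if `A i` is empty, `T' j = T j` for `j ≠ i`. `A' i` = the elements of `A i ∪ {y}`
with a neighbour in `C'`, `A' j` = the elements of `A j` with a neighbour in `C'` (`j ≠ i`). `nbr`: if `v ∉ C'` has a neighbour in `C'` then
`v ∈ X` by `SBigC`. The other conditions are immediate (`y ∈ C` is not in any `T j`; `T i ∪ {y}` is connected as `x ∈ A i ⊆ T i` is adjacent to `y`). -/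
def SExtA : Prop :=
  ∀ (V : Type) [Fintype V] [DecidableEq V] (G : SimpleGraph V) (S : Finset V) (m k : ℕ),
    Hav G S (2 * (m * k)) → ∀ (C : Finset V) (T A : Fin m → Finset V), Cfg G S m k C T A →
      (∃ i, (A i).card < k) →
      ∃ (C' : Finset V) (T' A' : Fin m → Finset V), Cfg G S m k C' T' A' ∧ C'.card < C.card

/-- **A bad separation with a linkage** (from `SMen`, `SBigC`, 130 lines).
Proof. Choose a bad pair `(L, Z)` (for the given `X₁`) with `Z.card` minimal, `P = L ∪ Z`, `H = ins (res G C X₁) P`. By `SMen` it is enough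
to show `Z.card ≤ Z₁.card` for every `Cut H (X₁ ∩ P) Z L₁ Z₁`. Suppose `Z₁.card < Z.card`; we show that `(L₁ ∩ P, Z₁ ∩ P)` is bad.
`far`: let `u ∈ L₁ ∩ P`, `(res G C X₁).Adj u v`; `u ∉ Z` (`Cut.last`), so `u ∈ L` and `v ∈ P` (`Bad.far`), the edge is in `H`, so `v ∈ L₁ ∪ Z₁`.
`lt`: `(Z₁ ∩ P).card < Z.card < (X₁ ∩ P).card` and `X₁ ∩ P ⊆ L₁ ∪ Z₁`. `big`: `D₁` = the set of `SBigC` for `allA A ∪ (Z₁ ∩ P)` (fewer than `2 m k`
elements: `(allA A).card ≤ m k`, `(Z₁ ∩ P).card < (X₁ ∩ P).card ≤ (allA A).card`). `D₁ ⊆ C` (as in `SExtA`). Let `D` be the set of `Bad.big` for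
`(L, Z)`; `D₁` meets `D` (`Big.inter`) in a vertex which is not in `P`. If `D₁` met `L₁ ∩ P` then, `D₁` being connected (`Conn` for `B = D₁ ∩ L₁ ∩ P`), there would be an edge `u v`
with `u ∈ D₁ ∩ L₁ ∩ P`, `v ∈ D₁`, `v ∉ L₁ ∩ P`; `u, v ∈ C`, so it is an edge of `res G C X₁` and `v ∈ (L₁ ∪ Z₁) ∩ P` as above: `v ∈ Z₁ ∩ P`, contradiction to
`Disjoint D₁ (Z₁ ∩ P)`. -/
def SExtB : Prop :=
  ∀ (V : Type) [Fintype V] [DecidableEq V] (G : SimpleGraph V) (S : Finset V) (m k : ℕ),
    Hav G S (2 * (m * k)) → ∀ (C : Finset V) (T A : Fin m → Finset V), Cfg G S m k C T A →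
      ∀ X₁ : Finset V, X₁ ⊆ allA A → (∃ L Z, Bad G S C A X₁ L Z) →
      ∃ L Z, Bad G S C A X₁ L Z ∧
        ∃ n p, Lkg (ins (res G C X₁) (L ∪ Z)) (X₁ ∩ (L ∪ Z)) Z Z.card n p

/-- **Extension of a configuration along a linkage** (200 lines).
Proof. Let `D` be the set of `Bad.big`. `C` is closed with respect to `allA A` (`Cfg.nbr`), so `D ⊆ C` (`sub_of_closed`, `Big.inter`). All vertices of the
paths are in `L ∪ Z ⊆ C ∪ X₁`. For a path `i` let `σ i` be the last `s ≤ n i` with `p i s ∈ allA A` (`p i 0 ∈ X₁`), `x i = p i (σ i) ∈ A (j i)`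
(`j i` is unique: the `A j ⊆ T j` are disjoint); `x i ∉ C`, so `x i ∈ X₁`; for `s > σ i` the vertex `p i s` is not in `allA A`, so it is in `C`.
Put `C' = D`, `T' j = T j ∪ ⋃_{i : j i = j} seg (p i) (σ i) (n i + 1)`, `A' j` = the elements of `(A j \ (L ∪ Z)) ∪ {p i (n i) | j i = j}` which have a neighbour in
`D`. Disjointness of the `T'`: a vertex of a segment is `x i ∈ A (j i) ⊆ T (j i)` or in `C`; different paths are disjoint. `T' j` is disjoint from `D`:
`T j` is disjoint from `C`, the segments are in `L ∪ Z`. `(A' j).card ≤ (A j \ (L ∪ Z)).card + #{i | j i = j} ≤ (A j).card ≤ k` as `i ↦ x i` is injective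
with values in `A j ∩ (L ∪ Z)` for `j i = j`. `con`: if `A' j` is not empty then `A j` is not empty, `T j` is connected and every segment is connected (`conn_seg`) and meets `T j` in `x i`
(`Conn.union_iUnion` or induction). `nbr`: let `v ∉ D` have the neighbour `u ∈ D`; then `v ∈ allA A ∪ Z`. If `v ∈ Z`: the `Z.card` disjoint paths end in `Z`, so `i ↦ p i (n i)` is a
bijection onto `Z`, `v = p i (n i) ∈ A' (j i)`. If `v ∈ A j`, `v ∉ Z`: if `v ∉ L` then `v ∈ A' j`; if `v ∈ L` then `v ∈ X₁` (`v ∉ C`, `Bad.sub`), `u ∈ D ⊆ C`, so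
`u ∈ L ∪ Z` by `Bad.far`, contradiction. Conversely the elements of `A' j` are not in `D` and have a neighbour in `D`. `D.card < C.card`: otherwise `D = C`, `L` and `Z` are disjoint from `C`, so
`L ∪ Z ⊆ X₁`; a vertex of `L` has a neighbour in `C` (`Cfg.nbr`), which is in `L ∪ Z` by `Bad.far`: impossible; so `L = ∅` and `X₁ ∩ (L ∪ Z) ⊆ Z`, contradiction to `Bad.lt`. -/
def SExtC : Prop :=
  ∀ (V : Type) [Fintype V] [DecidableEq V] (G : SimpleGraph V) (S : Finset V) (m k : ℕ)
    (C : Finset V) (T A : Fin m → Finset V), Cfg G S m k C T A →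
      ∀ X₁ : Finset V, X₁ ⊆ allA A → ∀ L Z, Bad G S C A X₁ L Z →
      (∃ n p, Lkg (ins (res G C X₁) (L ∪ Z)) (X₁ ∩ (L ∪ Z)) Z Z.card n p) →
      ∃ (C' : Finset V) (T' A' : Fin m → Finset V), Cfg G S m k C' T' A' ∧ C'.card < C.card

/-- **The minimal configuration** (from `SBigC`, `SExtA`, `SExtB`, `SExtC`, 50 lines).
Proof. There is a configuration: `C` = the set of `SBigC` for `X = ∅`, `T i = A i = ∅` (`C` is closed with respect to `∅`). Take one with `C.card` minimal. -/
def SMin : Prop :=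
  ∀ (V : Type) [Fintype V] [DecidableEq V] (G : SimpleGraph V) (S : Finset V) (m k : ℕ),
    1 ≤ m → 1 ≤ k → Hav G S (2 * (m * k)) → ∃ (C : Finset V) (T A : Fin m → Finset V),
      Cfg G S m k C T A ∧ (∀ i, (A i).card = k) ∧
      ∀ X₁ : Finset V, X₁ ⊆ allA A → ∀ L Z, ¬ Bad G S C A X₁ L Z

/-- **Links of the mesh** (from `SMen`, `SBigC`, 180 lines).
Proof. `X₁ = A i ∪ A j`, `H = res G C X₁`, `P = C ∪ X₁`. (1) Let `Cut H (A i) (A j) L X`; claim `k ≤ X.card`. Suppose not. `D` = the set of `SBigC` for `allA A ∪ X` (fewer than `2 m k` elements).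
`D ⊆ C` (`sub_of_closed`); the edges inside `D` are edges of `H`, so `D ⊆ L` or `Disjoint D L` (`Conn` and `Cut.far`, `D ∩ X = ∅`). Put `Z = X ∩ P`. `D` is closed with respect to `allA A ∪ Z`: a neighbour of `D ⊆ C` in `X \ P` is not in `C`, so it is
in `allA A` by `Cfg.nbr`. If `Disjoint D L`: `(L ∩ P, Z)` is bad (`lt`: `Z.card < k = (A i).card` and `A i ⊆ (L ∩ P) ∪ Z`). If `D ⊆ L`: `(P \ (L ∪ X), Z)` is bad (`far`: if `u ∈ P \ (L ∪ X)` and `H.Adj u v` with `v ∈ L` then
`u ∈ L ∪ X` by `Cut.far`; `lt`: `A j` is disjoint from `L`, so `A j ⊆ (P \ (L ∪ X)) ∪ Z`). (2) `SMen` gives `Lkg H (A i) (A j) k n p`. `s ↦ p s 0` is a bijection of `Fin k` onto `A i`, `s ↦ p s (n s)` onto `A j`; so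
`p s t ∈ A i` only for `t = 0` and `p s t ∈ A j` only for `t = n s` (`Lkg.dis`, `Pth.inj`). All vertices are in `P`; `A i`, `A j` are disjoint from each other and from `C`; the first edge has an end in `C`, so `n s ≥ 2` and
`p s t ∈ C` for `0 < t < n s`. Take `a = {p s 1}`, `b = {p s (n s - 1)}`, `x (p s 1) = p s 0`, the paths `t ↦ p s (t + 1)` of length `n s - 2`. -/
def SLink : Prop :=
  ∀ (V : Type) [Fintype V] [DecidableEq V] (G : SimpleGraph V) (S : Finset V) (m k : ℕ),
    Hav G S (2 * (m * k)) → ∀ (C : Finset V) (T A : Fin m → Finset V), Cfg G S m k C T A →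
      (∀ i, (A i).card = k) → (∀ X₁ : Finset V, X₁ ⊆ allA A → ∀ L Z, ¬ Bad G S C A X₁ L Z) →
      ∀ i j, i ≠ j → ∃ (a b : Finset V) (x : V → V), a ⊆ C ∧ b ⊆ C ∧
        (∀ y, y ∈ a → x y ∈ A i ∧ G.Adj (x y) y) ∧
        (∀ y, y ∈ a → ∀ y', y' ∈ a → x y = x y' → y = y') ∧
        (∀ y, y ∈ b → ∃ z, z ∈ A j ∧ G.Adj y z) ∧ ∃ n p, Lkg (ins G C) a b k n p

/-- **Depth of the mesh** (from `SBigC`, 90 lines).
Proof. `D₁` = the set of `SBigC` for `Z`, `D₀` = the set of `SBigC` for `allA A ∪ Z` (at most `m k + Z.card < 2 m k` elements as `Z.card < X₁.card ≤ (allA A).card ≤ m k`). If `D₁` meets `X₁` take `D = D₁`.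
Otherwise `L = (C ∪ X₁) \ (D₁ ∪ Z)`, `Z' = Z ∩ (C ∪ X₁)` is bad: `far`: if `u ∈ L`, `v ∈ D₁` adjacent, then `u ∈ D₁ ∪ Z`. `big` with `D₀`: `D₀ ⊆ C` and `D₀ ⊆ D₁` by `sub_of_closed`; closed with respect to `allA A ∪ Z'`: a neighbour of `D₀ ⊆ C` in `Z` outside `C`
is in `allA A` (`Cfg.nbr`). `lt`: every element of `X₁` is in `L ∪ Z'`, so `Z'.card ≤ Z.card < X₁.card`. -/
def SDeep : Prop :=
  ∀ (V : Type) [Fintype V] [DecidableEq V] (G : SimpleGraph V) (S : Finset V) (m k : ℕ),
    Hav G S (2 * (m * k)) → ∀ (C : Finset V) (T A : Fin m → Finset V), Cfg G S m k C T A →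
      (∀ X₁ : Finset V, X₁ ⊆ allA A → ∀ L Z, ¬ Bad G S C A X₁ L Z) →
      ∀ X₁, X₁ ⊆ allA A → ∀ Z : Finset V, Z.card < X₁.card →
        ∃ D : Finset V, Conn G (D : Set V) ∧ Big S D ∧ Disjoint Z D ∧ (D ∩ X₁).Nonempty

/-- **The mesh** (from `SMin`, `SLink`, `SDeep`, 20 lines). -/
def SMsh : Prop :=
  ∀ (V : Type) [Fintype V] [DecidableEq V] (G : SimpleGraph V) (S : Finset V) (m k : ℕ),
    1 ≤ m → 1 ≤ k → Hav G S (2 * (m * k)) → ∃ (C : Finset V) (T A : Fin m → Finset V),
      Mesh G S m k C T A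

/-- **An edge minimal graph** (40 lines).
Proof. The graphs `H` with the first three properties are a finite nonempty set (`G` is one of them); take a minimal one (or one with the least number of pairs `(u, v)` with `H.Adj u v`). If `x y` is an edge of `H` not inside a `P i` and `delE H x y` had a linkage, `delE H x y` would be
smaller. -/
def SMinH : Prop :=
  ∀ (V : Type) [Fintype V] [DecidableEq V] (G : SimpleGraph V) (A B : Finset V) (b a : ℕ)
    (P : Fin a → Finset V), (∃ n p, Lkg G A B b n p) → ∃ H : SimpleGraph V,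
      (∀ u v, H.Adj u v → G.Adj u v) ∧
      (∀ i u v, u ∈ P i → v ∈ P i → G.Adj u v → H.Adj u v) ∧ (∃ n p, Lkg H A B b n p) ∧
      ∀ x y, H.Adj x y → (∀ i, ¬ (x ∈ P i ∧ y ∈ P i)) → ¬ ∃ n p, Lkg (delE H x y) A B b n p

/-- **The cut at an edge of a row** (from `SMen`, 150 lines).
Proof. By `SMen` for `H' = delE H (q x₀ (f - 1)) (q x₀ f)` there are `L`, `X` with `Cut H' A B L X`, `X.card < b`. For `x ≠ x₀` the path `q x` is a path of `H'` (it avoids the vertices of `q x₀`), so it meets `X` (`Pth.cross`). If some path met `X` twice or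
`q x₀` met `X`, there would be `b` elements in `X`; so `q x₀` avoids `X` and `q x` has exactly one index `c` with `q x c ∈ X`. For `s < c`: `q x s ∈ L` by induction (`head`, `far`); for `s > c`: if `q x s ∈ L` then `q x (s + 1) ∈ L`, .., `q x (n x) ∈ L`, contradiction to
`last`. The same for `q x₀`: the edges `s, s + 1` with `s + 1 < f` or `f ≤ s` are edges of `H'` (`Pth.inj`). -/
def SCutj : Prop :=
  ∀ (V : Type) [Fintype V] [DecidableEq V] (H : SimpleGraph V) (A B : Finset V) (b : ℕ)
    (n : Fin b → ℕ) (q : Fin b → ℕ → V), Lkg H A B b n q → ∀ (x₀ : Fin b) (f : ℕ), 1 ≤ f →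
      f ≤ n x₀ → (¬ ∃ n' q', Lkg (delE H (q x₀ (f - 1)) (q x₀ f)) A B b n' q') →
      ∃ L X : Finset V, X.card < b ∧ Disjoint L X ∧
        (∀ u, u ∈ L → ∀ v, H.Adj u v → ¬ (u = q x₀ (f - 1) ∧ v = q x₀ f) →
          ¬ (u = q x₀ f ∧ v = q x₀ (f - 1)) → v ∈ L ∪ X) ∧
        (∀ s, s ≤ n x₀ → q x₀ s ∉ X ∧ (q x₀ s ∈ L ↔ s < f)) ∧
        ∀ x, x ≠ x₀ → ∃ c, c ≤ n x ∧ ∀ s, s ≤ n x → (q x s ∈ X ↔ s = c) ∧ (q x s ∈ L ↔ s < c)

/-- **Core of the proof** (from `SCutj`, 220 lines).
Proof. `Q = q (h 0)`. For `i : Fin M` let `F i` be the least `s ≤ n (h 0)` with `Q s ∈ P (v i)`. `F` is injective (the `P` are disjoint, `v` is injective). Let `τ` be a permutation of `Fin M` with `F ∘ τ` strictly increasing (`Tuple.sort`). For `1 ≤ j < M`: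
`1 ≤ F (τ j)`, the edge from `Q (F (τ j) - 1)` to `Q (F (τ j))` is not inside a `P i` (then `i = v (τ j)`, contradiction to the choice of `F`), so `SCutj` (with `f = F (τ j)`) gives `L j`, `X j`, `c j x` (`x ≠ h 0`). (*) If `P (v (τ i))` is disjoint from `X j` then it is
contained in `L j` if `i < j` and disjoint from `L j` if `j ≤ i`: it is connected by edges of `H` inside `P (v (τ i))`, which are not the deleted edge, so it is contained in `L j` or disjoint from it (`Conn`), and `Q (F (τ i))` is in `L j` iff `F (τ i) < F (τ j)`. Let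
`g = (D + 1) * b + 1`, `j_d = 1 + d * g` for `d ≤ D` (`< M`, as `b ≥ 1`). The union `X` of the `X (j_d)`, `d ≤ D`, has less than `g` elements, so for `d < D` one of the `g` disjoint sets `P (v (τ i))`, `j_d ≤ i < j_(d+1)`, avoids `X`: call it `U d`. Put `c' i d = c (j_d) (h i.succ)`.
`only`: let `x = h i.succ`, `q x s ∈ U d`: `U d` is disjoint from `X` and `L (j_d)`, so `s > c (j_d) x`; it is contained in `L (j_(d+1))`, so `s < c (j_(d+1)) x`. `meet` is a hypothesis, `lt` follows from `meet` and `only`. -/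
def SCore : Prop :=
  ∀ (V : Type) [Fintype V] [DecidableEq V] (G H : SimpleGraph V) (A B : Finset V) (R D b a M : ℕ)
    (P : Fin a → Finset V), M = (D + 1) * ((D + 1) * b + 1) →
    (∀ i, Conn G (P i : Set V)) → (∀ i j, i ≠ j → Disjoint (P i) (P j)) →
    (∀ u v, H.Adj u v → G.Adj u v) → (∀ i u v, u ∈ P i → v ∈ P i → G.Adj u v → H.Adj u v) →
    (∀ x y, H.Adj x y → (∀ i, ¬ (x ∈ P i ∧ y ∈ P i)) →
      ¬ ∃ n p, Lkg (delE H x y) A B b n p) →
    ∀ (n : Fin b → ℕ) (q : Fin b → ℕ → V), Lkg H A B b n q →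
    ∀ (h : Fin (R + 1) → Fin b) (v : Fin M → Fin a), Function.Injective h → Function.Injective v →
      (∀ i j, ∃ s, s ≤ n (h j) ∧ q (h j) s ∈ P (v i)) →
      ∃ (U : ℕ → Finset V) (c : Fin R → ℕ → ℕ),
        Wov G A B R D (fun i => n (h i.succ)) (fun i => q (h i.succ)) U c

/-- Selection: linkages of size `N` for `L` pairs give disjoint paths for all pairs, or a woven structure for one pair. -/
def SelP (R D L N : ℕ) : Prop :=
  ∀ (V : Type) [Fintype V] [DecidableEq V] (G : SimpleGraph V) (a b : Fin L → Finset V),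
    (∀ π, ∃ n p, Lkg G (a π) (b π) N n p) →
      (∃ (n : Fin L → ℕ) (p : Fin L → ℕ → V), (∀ π, Pth G (a π) (b π) (n π) (p π)) ∧
        ∀ π ρ, π ≠ ρ → ∀ s, s ≤ n π → ∀ t, t ≤ n ρ → p π s ≠ p ρ t) ∨
      ∃ (π : Fin L) (n : Fin R → ℕ) (p : Fin R → ℕ → V) (U : ℕ → Finset V) (c : Fin R → ℕ → ℕ),
        Wov G (a π) (b π) R D n p U c

/-- **Selection, one step** (from `SMinH`, `SCore`, 200 lines).
Proof. `b₀ = N + R + 1`, `M = (D + 1) * ((D + 1) * b₀ + 1)`, `N' = b₀ + (L * 2 ^ b₀ * M + 1)`. Let `p i`, `i < N'`, be the paths for the last pair, `P i = seg (p i) 0 (n i + 1)`: disjoint connected sets. For every other pair `π : Fin L` let `H π`, `q π` (`b₀` paths, from `Lkg.mono`) be given by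
`SMinH`. CASE 1: there is `i` such that for all `π` at least `N` of the paths `q π x` are disjoint from `P i`. Let `G'` be `G` without the edges with an end in `P i`, `a' π = a π \ P i`, `b' π = b π \ P i`: the `N` paths are a linkage of `G'` from `a' π` to `b' π`. By `SelP R D L N` for `G'`: disjoint paths, and their
vertices are not in `P i` (the first one is in `a' π`, then use the edges of `G'`), so together with `p i` they are as required; or a woven structure in `G'`, which is one in `G`. CASE 2: for every `i : Fin N'` there are `π i : Fin L` and `I i ⊆ Fin b₀`, `(I i).card = R + 1`, such that all paths `q (π i) x`, `x ∈ I i`,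
meet `P i` (more than `b₀ - N = R + 1` paths meet it). By the pigeonhole principle (`Fin L × Finset (Fin b₀)` has `L * 2 ^ b₀` elements) there are `π`, `I` and `M` indices `i` (an injective `v : Fin M → Fin N'`) with `π i = π`, `I i = I`; `h` enumerates `I`; `SCore`. -/
def SSelS : Prop := ∀ R D L N : ℕ, SelP R D L N → ∃ N' : ℕ, SelP R D (L + 1) N'

/-- **Selection** (from `SSelS`, 30 lines). Proof. Induction on `L`; `L = 0`: `N = 0` (functions on `Fin 0`). Monotone in `N` by `Lkg.mono`. -/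
def SSel : Prop := ∀ R D L : ℕ, ∃ N : ℕ, ∀ N', N ≤ N' → SelP R D L N'

/-- **A path or a star in a connected graph** (120 lines).
Proof. `R = r ^ r + 2` (at least `2`). If some vertex `z` has at least `r` neighbours we have the star. Otherwise every vertex has at most `r - 1` neighbours. (`r = 0` is trivial.) `B 0 = {0}`, `B (j + 1) = B j ∪ N(B j)`; `(B j).card ≤ r ^ j`. So `B j ≠ univ` for `j ≤ r` and by the hypothesis for `I = B j` there is a vertex in
`B (j + 1)` not in `B j`. Choose `u (r - 1) ∈ B (r - 1)`, not in `B (r - 2)`, and then `u j ∈ B j` adjacent to `u (j + 1)` (a vertex of `B (j + 1) \ B j` has a neighbour in `B j`; it is not in `B (j - 1)`). The `u j` are different as they are in different layers. (Or: a vertex at graph distance at least `r - 1` from `0` and a shortest walk.) -/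
def SPS : Prop :=
  ∀ r : ℕ, ∃ R : ℕ, ∀ Γ : SimpleGraph (Fin R),
    (∀ I : Finset (Fin R), I.Nonempty → I ≠ Finset.univ → ∃ i, i ∈ I ∧ ∃ j, j ∉ I ∧ Γ.Adj i j) →
      (∃ f : ℕ → Fin R, (∀ i, i < r → ∀ j, j < r → f i = f j → i = j) ∧
        ∀ i, i + 1 < r → Γ.Adj (f i) (f (i + 1))) ∨
      ∃ (z : Fin R) (f : ℕ → Fin R), (∀ i, i < r → ∀ j, j < r → f i = f j → i = j) ∧
        ∀ i, i < r → Γ.Adj z (f i)

/-- **The connection graph is connected** (110 lines).
Proof. `U = U d` is connected and meets every row. Let `Bs` be the set of the `v ∈ U` which are on a row `i ∈ I`, or not on a row and such that there is a connected set `K ∋ v`, `K ⊆ U \ rws n p`, which touches the part in `U` of a row `i ∈ I`. `Bs` is not empty and does not contain the vertices of `U` on the rows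
`j ∉ I` (rows are disjoint), so `Conn` gives an edge from `b ∈ Bs` to `a ∈ U`, `a ∉ Bs`. If `a` is not on a row: `b` on the row `i ∈ I`: `K = {a}` shows `a ∈ Bs`; `b` not on a row, `K ∋ b`: `insert a K` shows `a ∈ Bs`. So `a` is on a row `j ∉ I`. If `b` is on the row `i ∈ I`: `i`, `j` are adjacent in `Gam` (`K = ∅`); otherwise
with the set `K ∋ b`. -/
def SGam : Prop :=
  ∀ (V : Type) [Fintype V] [DecidableEq V] (G : SimpleGraph V) (A B : Finset V) (R D : ℕ)
    (n : Fin R → ℕ) (p : Fin R → ℕ → V) (U : ℕ → Finset V) (c : Fin R → ℕ → ℕ),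
    Wov G A B R D n p U c → ∀ d, d < D → ∀ I : Finset (Fin R), I.Nonempty → I ≠ Finset.univ →
      ∃ i, i ∈ I ∧ ∃ j, j ∉ I ∧ (Gam G n p (U d)).Adj i j

/-- **Subsequence with constant connection graph** (100 lines).
Proof. Let `ν` be the number of graphs on `Fin R`, `D = ν * D' + 1`. By the pigeonhole principle there are `Γ` and indices `e 0 < e 1 < .. < e (D' - 1) < D` with `Gam G n p (U (e l)) = Γ` (`Finset.orderEmbOfFin`). `U' l = U (e l)`, `c' i l = c i (e l)` for `l < D'`, `c' i l = c i D` for `l ≥ D'`. `c i` is strictly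
increasing on `0, .., D`. -/
def SSub : Prop :=
  ∀ R D' : ℕ, ∃ D : ℕ, ∀ (V : Type) [Fintype V] [DecidableEq V] (G : SimpleGraph V)
    (A B : Finset V) (n : Fin R → ℕ) (p : Fin R → ℕ → V) (U : ℕ → Finset V) (c : Fin R → ℕ → ℕ),
    Wov G A B R D n p U c → ∃ (Γ : SimpleGraph (Fin R)) (U' : ℕ → Finset V) (c' : Fin R → ℕ → ℕ),
      Wov G A B R D' n p U' c' ∧ ∀ d, d < D' → Gam G n p (U' d) = Γ

/-- **Ladder from a path** (60 lines).
Proof. `n' i = n (f i)`, `p' i = p (f i)`, `U' = U`, `c' i d = c (f i) d`. The set `K ⊆ U d \ rws n p` of `Gam` is disjoint from all rows; the part of a row in `U d` is in the segment `c d, .., c (d + 1) - 1` by `Wov.only`; `Rung` is symmetric in the rows and monotone. -/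
def SLadP : Prop :=
  ∀ (V : Type) [Fintype V] [DecidableEq V] (G : SimpleGraph V) (A B : Finset V) (R D r : ℕ)
    (n : Fin R → ℕ) (p : Fin R → ℕ → V) (U : ℕ → Finset V) (c : Fin R → ℕ → ℕ),
    Wov G A B R D n p U c → ∀ f : ℕ → Fin R,
      (∀ i, i < r → ∀ j, j < r → f i = f j → i = j) →
      (∀ d, d < D → ∀ i, i + 1 < r → (Gam G n p (U d)).Adj (f i) (f (i + 1))) →
      ∃ n' p' U' c', Lad G A r D n' p' U' c'

/-- **Ladder from a star** (160 lines).
Proof. `n' i = n (f i)`, `p' i = p (f i)`, `c' i d = c (f i) (2 * d)`, `Z d = seg (p z) (c z (2 * d)) (c z (2 * d + 2))`, `U' d = U (2 * d) ∪ U (2 * d + 1) ∪ Z d`. The `U' d` are disjoint: the `Z d` are disjoint (`Pth.inj`, `c z` increasing), `U (2 * d)` and `U (2 * d + 1)` meet the row `z` only in positions of `Z d` (`Wov.only`).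
Rung from row `i` to row `i + 1`: `K₁ ⊆ U (2 * d) \ rws` from `Gam` for `z`, `f i`, `K₂ ⊆ U (2 * d + 1) \ rws` from `Gam` for `z`, `f (i + 1)`; `K = K₁ ∪ Z d ∪ K₂`: `Z d` is connected (`conn_seg`), `K₁` is empty or connected and touches the part of the row `z` in `U (2 * d)`, which is in `Z d`; the same for `K₂`; so `K` is connected
(second alternative of `Rung`); the row `f i` touches `K₁` or (`K₁ = ∅`) `Z d`. `z ≠ f j` for all `j < r` (edges of `Gam`), so `K` is disjoint from the rows `f j`. The touching vertices are in the segments `c' i d, .., c' i (d + 1) - 1` by `Wov.only`. -/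
def SLadS : Prop :=
  ∀ (V : Type) [Fintype V] [DecidableEq V] (G : SimpleGraph V) (A B : Finset V) (R D r : ℕ)
    (n : Fin R → ℕ) (p : Fin R → ℕ → V) (U : ℕ → Finset V) (c : Fin R → ℕ → ℕ),
    Wov G A B R (2 * D) n p U c → ∀ (z : Fin R) (f : ℕ → Fin R),
      (∀ i, i < r → ∀ j, j < r → f i = f j → i = j) →
      (∀ d, d < 2 * D → ∀ i, i < r → (Gam G n p (U d)).Adj z (f i)) →
      ∃ n' p' U' c', Lad G A r D n' p' U' c'

/-- **Grid models** (rows `i`, columns `j`). -/
structure GridM {V : Type} (G : SimpleGraph V) (r : ℕ) (g : Fin r → Fin r → Finset V) : Prop where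
  conn : ∀ i j, Conn G (g i j : Set V)
  dis : ∀ i j i' j', (i, j) ≠ (i', j') → Disjoint (g i j) (g i' j')
  hor : ∀ i j j', j.val + 1 = j'.val → Tch G (g i j : Set V) (g i j' : Set V)
  ver : ∀ i i' j, i.val + 1 = i'.val → Tch G (g i j : Set V) (g i' j : Set V)

/-- **Grid from a ladder** (160 lines).
Proof. `K i d` = the set of `Lad.rung`. `g i j = seg (p i) (if j = 0 then 0 else c i (j * r)) (c i ((j + 1) * r)) ∪ (if i + 1 < r then K i (j * r + i) else ∅)`. `c i` is strictly increasing on `0, .., r * r`, at most `n i`. Connected: the segment is (`conn_seg`), and `K i d`, `d = j * r + i` (between `j * r` and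
`(j + 1) * r`), is empty or connected and touches the segment `c i d, .., c i (d + 1) - 1` of row `i`. Disjoint: segments of the same row: `Lad.inj`, of different rows: `Lad.dis`; `K` is disjoint from all rows; `j * r + i` determines `i, j`, so the `K` are in different `U d`. `hor`: the positions `c i ((j + 1) * r) - 1` and `c i ((j + 1) * r)`
are adjacent. `ver`: `Rung` for `d = j * r + i`. -/
def SLadG : Prop :=
  ∀ (V : Type) [Fintype V] [DecidableEq V] (G : SimpleGraph V) (A : Finset V) (r : ℕ)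
    (n : ℕ → ℕ) (p : ℕ → ℕ → V) (U : ℕ → Finset V) (c : ℕ → ℕ → ℕ), 1 ≤ r →
    Lad G A r (r * r) n p U c → ∃ g : Fin r → Fin r → Finset V, GridM G r g ∧
      ∀ i j : Fin r, j.val = 0 → p i.val 0 ∈ g i j

/-- **Grid from a woven structure** (from `SPS`, `SGam`, `SSub`, `SLadP`, `SLadS`, `SLadG`, 60 lines).
Proof. `R` from `SPS` for `r`, `D` from `SSub` for `R` and `D' = 2 * (r * r)`. `SSub`, `SGam` (for the new structure, `d = 0`: `Γ` is connected), `SPS`; in the case of a path `SLadP` for `D' = 2 r²` gives a ladder with `D' ≥ r * r` (a ladder can be shortened: all conditions are for `d < D`), in the case of a star `SLadS` for `D = r * r`.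
`st i = p i 0`; injective by `Lad.dis`. -/
def SGrd : Prop :=
  ∀ r : ℕ, 1 ≤ r → ∃ R D : ℕ, ∀ (V : Type) [Fintype V] [DecidableEq V] (G : SimpleGraph V)
    (A B : Finset V) (n : Fin R → ℕ) (p : Fin R → ℕ → V) (U : ℕ → Finset V) (c : Fin R → ℕ → ℕ),
    Wov G A B R D n p U c → ∃ (g : Fin r → Fin r → Finset V) (st : Fin r → V), GridM G r g ∧
      Function.Injective st ∧ ∀ i, st i ∈ A ∧ ∀ j : Fin r, j.val = 0 → st i ∈ g i j

/-- **The deep `K_t` model** (150 lines).
Proof. `b i = T i ∪ ⋃_{j ≠ i} seg (q i j) 0 (l i j + 1)`. Connected: `T i` is connected (`Mesh.con`), every segment is connected (`conn_seg`) and its first vertex is adjacent to `x ∈ A i ⊆ T i`. Disjoint: the `T i` are disjoint from each other and from `C`, the paths are in `C` and disjoint. `b i`, `b j` touch: the last vertex of `q i j` is adjacent to `z ∈ A j ⊆ T j`.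
Depth: let `Z.card < t`. As the `b i` are disjoint, some `b i` is disjoint from `Z`. `Z.card < t ≤ k = (A i).card`: `Mesh.deep` for `X₁ = A i` gives `D`; `D ∪ b i` is connected (both meet `A i ⊆ b i`), disjoint from `Z` and big. -/
def SFinK : Prop :=
  ∀ (V : Type) [Fintype V] [DecidableEq V] (G : SimpleGraph V) (S C : Finset V) (t k : ℕ)
    (T A : Fin t → Finset V), t ≤ k → Mesh G S t k C T A →
    ∀ (q : Fin t → Fin t → ℕ → V) (l : Fin t → Fin t → ℕ),
    (∀ i j, i ≠ j → (∀ s, s ≤ l i j → q i j s ∈ C) ∧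
      (∀ s, s < l i j → G.Adj (q i j s) (q i j (s + 1))) ∧
      (∃ x, x ∈ A i ∧ G.Adj x (q i j 0)) ∧ ∃ z, z ∈ A j ∧ G.Adj (q i j (l i j)) z) →
    (∀ i j i' j', i ≠ j → i' ≠ j' → (i, j) ≠ (i', j') →
      ∀ s, s ≤ l i j → ∀ s', s' ≤ l i' j' → q i j s ≠ q i' j' s') →
    ∃ b : Fin t → Finset V, (∀ i, Conn G (b i : Set V)) ∧ (∀ i j, i ≠ j → Disjoint (b i) (b j)) ∧
      (∀ i j, i ≠ j → Tch G (b i : Set V) (b j : Set V)) ∧
      ∀ Z : Finset V, Z.card < t → ∃ (i : Fin t) (D : Finset V), Conn G (D : Set V) ∧ Big S D ∧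
        Disjoint Z D ∧ b i ⊆ D

/-- **The deep grid model** (150 lines).
Proof. (1) `g i j ⊆ C`: as `2 ≤ r`, `g i j` touches another set of the grid by an edge of `ins G C`, so it has a vertex in `C`; if it had a vertex `v ∉ C` then `Conn` for `{v}` gives an edge of `ins G C` at `v`, contradiction. (2) `g' i j = g i j ∪ {x (st i)}` if `j = 0`, `g' i j = g i j` otherwise; `x (st i) ∈ allA A` is not in `C`, they are different. (3) Depth:
let `2 * Z.card < r`, `I` the set of the `i` such that all `g' i j` are disjoint from `Z`; as the rows are disjoint, `I.card ≥ r - Z.card > Z.card`. `X₁ = {x (st i) | i ∈ I}` has `I.card` elements; `Mesh.deep` gives `D` which contains some `x (st i)`, `i ∈ I`. The row `i` (the union of the `g' i j`) is connected (induction, `hor`), so `D ∪ row i` is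
connected, disjoint from `Z`, big. -/
def SFinG : Prop :=
  ∀ (V : Type) [Fintype V] [DecidableEq V] (G : SimpleGraph V) (S C : Finset V) (m k r : ℕ)
    (T A : Fin m → Finset V), 2 ≤ r → Mesh G S m k C T A →
    ∀ (g : Fin r → Fin r → Finset V) (st : Fin r → V) (x : V → V), GridM (ins G C) r g →
    Function.Injective (fun i => x (st i)) →
    (∀ i, x (st i) ∈ allA A ∧ G.Adj (x (st i)) (st i) ∧ ∀ j : Fin r, j.val = 0 → st i ∈ g i j) →
    ∃ g' : Fin r → Fin r → Finset V, GridM G r g' ∧
      ∀ Z : Finset V, 2 * Z.card < r → ∃ (i : Fin r) (D : Finset V), Conn G (D : Set V) ∧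
        Big S D ∧ Disjoint Z D ∧ ∀ j, g' i j ⊆ D

/-- **THE GRID THEOREM** (from `SMsh`, `SSel`, `SGrd`, `SFinK`, `SFinG`, 120 lines).
Proof. `R`, `D` from `SGrd` for `r`; `N` from `SSel` for `R`, `D`, `L = t * t`; `k = max N t`; `w = 2 * (t * k)`. Let `Hav G S w`; `SMsh` gives `C`, `T`, `A` (`m = t`). For `π : Fin (t * t)` let `(i, j) = finProdFinEquiv.symm π`, and `(i, j')` with `j' = j` if `j ≠ i`, `j' ≠ i` arbitrary if `j = i` (`2 ≤ t`); `a π`, `b π`, `x π` from `Mesh.link i j'`. `SelP R D L k` for the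
graph `ins G C`. Case 1 (disjoint paths): the vertices are in `C` (the first is in `a π ⊆ C`, the others by the edges of `ins G C`); `q i j` = the path for `finProdFinEquiv (i, j)`; `SFinK`. Case 2: `SGrd` for `ins G C`, `A = a π`, then `SFinG` with `x = x π` (injective on `a π`). -/
def SGK : Prop :=
  ∀ t r : ℕ, 2 ≤ t → 2 ≤ r → ∃ w : ℕ, ∀ (V : Type) [Fintype V] [DecidableEq V]
    (G : SimpleGraph V) (S : Finset V), Hav G S w →
    (∃ b : Fin t → Finset V, (∀ i, Conn G (b i : Set V)) ∧ (∀ i j, i ≠ j → Disjoint (b i) (b j)) ∧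
      (∀ i j, i ≠ j → Tch G (b i : Set V) (b j : Set V)) ∧
      ∀ Z : Finset V, Z.card < t → ∃ (i : Fin t) (D : Finset V), Conn G (D : Set V) ∧ Big S D ∧
        Disjoint Z D ∧ b i ⊆ D) ∨
    ∃ g : Fin r → Fin r → Finset V, GridM G r g ∧
      ∀ Z : Finset V, 2 * Z.card < r → ∃ (i : Fin r) (D : Finset V), Conn G (D : Set V) ∧
        Big S D ∧ Disjoint Z D ∧ ∀ j, g i j ⊆ D

end Pool.Agent.MPd439b2.GT
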