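import Pool.Agent.Lib.MP_d439b2_co.Basic

/-!
# MP_d439b2_co, the grid theorem: definitions and small lemmas

All sets are finite sets of vertices of one finite graph. `Conn`, `Tch` are those of `Defs2` (on sets, by coercion).
-/

set_option autoImplicit false

namespace Pool.Agent.MPd439b2.GT

open Pool.Agent.MPd439b2

section defs

variable {V : Type} [DecidableEq V]

/-- `C` contains more than half of `S`. -/
def Big (S C : Finset V) : Prop := S.card < 2 * (S ∩ C).card

/-- For every set `X` of fewer than `w` vertices there is a connected set avoiding `X` with more than half of `S`. -/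
def Hav (G : SimpleGraph V) (S : Finset V) (w : ℕ) : Prop :=
  ∀ X : Finset V, X.card < w → ∃ C : Finset V, Conn G (C : Set V) ∧ Disjoint X C ∧ Big S C

/-- `p 0, ..., p n` are the vertices of a path from `A` to `B` (`n = 0` is allowed). -/
structure Pth (G : SimpleGraph V) (A B : Finset V) (n : ℕ) (p : ℕ → V) : Prop where
  inj : ∀ i, i ≤ n → ∀ j, j ≤ n → p i = p j → i = j
  adj : ∀ i, i < n → G.Adj (p i) (p (i + 1))
  head : p 0 ∈ A
  last : p n ∈ B

/-- `k` disjoint paths from `A` to `B`; inner vertices may be in `A` or `B`. -/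
structure Lkg (G : SimpleGraph V) (A B : Finset V) (k : ℕ) (n : Fin k → ℕ) (p : Fin k → ℕ → V) :
    Prop where
  pth : ∀ i, Pth G A B (n i) (p i)
  dis : ∀ i j, i ≠ j → ∀ s, s ≤ n i → ∀ t, t ≤ n j → p i s ≠ p j t

/-- The vertices `p a, ..., p (b - 1)`. -/
def seg (p : ℕ → V) (a b : ℕ) : Finset V := (Finset.Ico a b).image p

/-- `X` separates `A` from `B`; `L` is (a set containing) the side of `A`. -/
structure Cut (G : SimpleGraph V) (A B L X : Finset V) : Prop where
  head : A ⊆ L ∪ X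
  last : Disjoint B L
  dis : Disjoint L X
  far : ∀ u, u ∈ L → ∀ v, G.Adj u v → v ∈ L ∪ X

/-- The graph with the edges of `G` between vertices of `C`. -/
def ins (G : SimpleGraph V) (C : Finset V) : SimpleGraph V where
  Adj u v := G.Adj u v ∧ u ∈ C ∧ v ∈ C
  symm := ⟨fun _ _ h => ⟨h.1.symm, h.2.2, h.2.1⟩⟩
  loopless := ⟨fun u h => G.loopless.irrefl u h.1⟩

/-- The graph with the edges of `G` between vertices of `C ∪ Y` with at least one end in `C`. -/
def res (G : SimpleGraph V) (C Y : Finset V) : SimpleGraph V where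
  Adj u v := G.Adj u v ∧ u ∈ C ∪ Y ∧ v ∈ C ∪ Y ∧ (u ∈ C ∨ v ∈ C)
  symm := ⟨fun _ _ h => ⟨h.1.symm, h.2.2.1, h.2.1, h.2.2.2.symm⟩⟩
  loopless := ⟨fun u h => G.loopless.irrefl u h.1⟩

/-- `G` without the edge `x y`. -/
def delE (G : SimpleGraph V) (x y : V) : SimpleGraph V where
  Adj u v := G.Adj u v ∧ ¬ (u = x ∧ v = y) ∧ ¬ (u = y ∧ v = x)
  symm := ⟨fun _ _ h => ⟨h.1.symm, fun h' => h.2.2 ⟨h'.2, h'.1⟩, fun h' => h.2.1 ⟨h'.2, h'.1⟩⟩⟩
  loopless := ⟨fun u h => G.loopless.irrefl u h.1⟩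

/-- The union of a family. -/
def allA {m : ℕ} (A : Fin m → Finset V) : Finset V := Finset.univ.biUnion A

/-- **Configurations.** `C` is a big connected set, its neighbourhood is the union of the sets `A i`, at most `k` vertices
each, `A i` is contained in `T i`, the `T i` are disjoint connected sets outside `C` (connected if `A i` is not empty). -/
structure Cfg (G : SimpleGraph V) (S : Finset V) (m k : ℕ) (C : Finset V) (T A : Fin m → Finset V) :
    Prop where
  conn : Conn G (C : Set V)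
  big : Big S C
  nbr : ∀ v, (v ∉ C ∧ ∃ u, u ∈ C ∧ G.Adj u v) ↔ ∃ i, v ∈ A i
  card : ∀ i, (A i).card ≤ k
  sub : ∀ i, A i ⊆ T i
  out : ∀ i, Disjoint (T i) C
  dis : ∀ i j, i ≠ j → Disjoint (T i) (T j)
  con : ∀ i, (A i).Nonempty → Conn G (T i : Set V)

/-- A separation of `res G C X₁` (`L ∪ Z` is the small side, `Z` the separator) with `Z` smaller than the part of `X₁`
in `L ∪ Z`; the big side contains the big component `D` of the graph without `allA A ∪ Z`. -/
structure Bad {m : ℕ} (G : SimpleGraph V) (S C : Finset V) (A : Fin m → Finset V)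
    (X₁ L Z : Finset V) : Prop where
  dis : Disjoint L Z
  sub : L ∪ Z ⊆ C ∪ X₁
  far : ∀ u, u ∈ L → ∀ v, (res G C X₁).Adj u v → v ∈ L ∪ Z
  big : ∃ D : Finset V, Conn G (D : Set V) ∧ Big S D ∧ Disjoint D (allA A ∪ Z) ∧ Disjoint D L ∧
    ∀ u, u ∈ D → ∀ v, G.Adj u v → v ∈ D ∪ (allA A ∪ Z)
  lt : Z.card < (X₁ ∩ (L ∪ Z)).card

/-- **The mesh.** -/
structure Mesh (G : SimpleGraph V) (S : Finset V) (m k : ℕ) (C : Finset V)
    (T A : Fin m → Finset V) : Prop where
  card : ∀ i, (A i).card = k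
  sub : ∀ i, A i ⊆ T i
  out : ∀ i, Disjoint (T i) C
  dis : ∀ i j, i ≠ j → Disjoint (T i) (T j)
  con : ∀ i, Conn G (T i : Set V)
  link : ∀ i j, i ≠ j → ∃ (a b : Finset V) (x : V → V), a ⊆ C ∧ b ⊆ C ∧
    (∀ y, y ∈ a → x y ∈ A i ∧ G.Adj (x y) y) ∧ (∀ y, y ∈ a → ∀ y', y' ∈ a → x y = x y' → y = y') ∧
    (∀ y, y ∈ b → ∃ z, z ∈ A j ∧ G.Adj y z) ∧ ∃ n p, Lkg (ins G C) a b k n p
  deep : ∀ X₁, X₁ ⊆ allA A → ∀ Z : Finset V, Z.card < X₁.card →
    ∃ D : Finset V, Conn G (D : Set V) ∧ Big S D ∧ Disjoint Z D ∧ (D ∩ X₁).Nonempty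

/-- **Woven structure**: `R` disjoint paths (rows) and `D` disjoint connected sets `U d`, every `U d` meets every row,
and only in the positions `c i d, ..., c i (d + 1) - 1` of the row `i`. -/
structure Wov (G : SimpleGraph V) (A B : Finset V) (R D : ℕ) (n : Fin R → ℕ) (p : Fin R → ℕ → V)
    (U : ℕ → Finset V) (c : Fin R → ℕ → ℕ) : Prop where
  lkg : Lkg G A B R n p
  conn : ∀ d, d < D → Conn G (U d : Set V)
  dis : ∀ d, d < D → ∀ e, e < D → d ≠ e → Disjoint (U d) (U e)
  lt : ∀ i d, d < D → c i d < c i (d + 1)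
  le : ∀ i d, d ≤ D → c i d ≤ n i
  meet : ∀ i d, d < D → ∃ s, s ≤ n i ∧ p i s ∈ U d
  only : ∀ i d, d < D → ∀ s, s ≤ n i → p i s ∈ U d → c i d ≤ s ∧ s < c i (d + 1)

/-- `K` connects `R₁` and `R₂`: `K` is empty and they touch, or `K` is connected and touches both. -/
def Rung (G : SimpleGraph V) (R₁ R₂ K : Finset V) : Prop :=
  (K = ∅ ∧ Tch G (R₁ : Set V) (R₂ : Set V)) ∨
    (Conn G (K : Set V) ∧ Tch G (R₁ : Set V) (K : Set V) ∧ Tch G (K : Set V) (R₂ : Set V))

/-- The vertices of all rows. -/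
def rws {R : ℕ} (n : Fin R → ℕ) (p : Fin R → ℕ → V) : Finset V :=
  Finset.univ.biUnion fun i => seg (p i) 0 (n i + 1)

/-- The connection graph of the rows inside `U`. -/
def Gam (G : SimpleGraph V) {R : ℕ} (n : Fin R → ℕ) (p : Fin R → ℕ → V) (U : Finset V) :
    SimpleGraph (Fin R) where
  Adj i j := i ≠ j ∧ ∃ K : Finset V, K ⊆ U \ rws n p ∧
    (Rung G (seg (p i) 0 (n i + 1) ∩ U) (seg (p j) 0 (n j + 1) ∩ U) K ∨
      Rung G (seg (p j) 0 (n j + 1) ∩ U) (seg (p i) 0 (n i + 1) ∩ U) K)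
  symm := ⟨fun _ _ h => ⟨h.1.symm, by
    obtain ⟨K, hK, h1⟩ := h.2
    exact ⟨K, hK, h1.symm⟩⟩⟩
  loopless := ⟨fun _ h => h.1 rfl⟩

/-- **Ladders**: rows `p 0, ..., p (r - 1)` starting in `A`, positions `c i d`, disjoint sets `U d` (`d < D`) containing
rungs between consecutive rows which avoid all rows. -/
structure Lad (G : SimpleGraph V) (A : Finset V) (r D : ℕ) (n : ℕ → ℕ) (p : ℕ → ℕ → V)
    (U : ℕ → Finset V) (c : ℕ → ℕ → ℕ) : Prop where
  inj : ∀ i, i < r → ∀ s, s ≤ n i → ∀ t, t ≤ n i → p i s = p i t → s = t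
  adj : ∀ i, i < r → ∀ s, s < n i → G.Adj (p i s) (p i (s + 1))
  head : ∀ i, i < r → p i 0 ∈ A
  dis : ∀ i, i < r → ∀ j, j < r → i ≠ j → ∀ s, s ≤ n i → ∀ t, t ≤ n j → p i s ≠ p j t
  udis : ∀ d, d < D → ∀ e, e < D → d ≠ e → Disjoint (U d) (U e)
  lt : ∀ i, i < r → ∀ d, d < D → c i d < c i (d + 1)
  le : ∀ i, i < r → ∀ d, d ≤ D → c i d ≤ n i
  rung : ∀ i, i + 1 < r → ∀ d, d < D → ∃ K : Finset V, K ⊆ U d ∧
    (∀ j, j < r → Disjoint K (seg (p j) 0 (n j + 1))) ∧
    Rung G (seg (p i) (c i d) (c i (d + 1))) (seg (p (i + 1)) (c (i + 1) d) (c (i + 1) (d + 1))) K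

end defs

section lemmas

variable {V : Type} [DecidableEq V] {G : SimpleGraph V}

theorem mem_seg {p : ℕ → V} {a b : ℕ} {v : V} : v ∈ seg p a b ↔ ∃ s, a ≤ s ∧ s < b ∧ p s = v := by
  unfold seg
  simp only [Finset.mem_image, Finset.mem_Ico]
  constructor
  · rintro ⟨s, ⟨h1, h2⟩, h3⟩
    exact ⟨s, h1, h2, h3⟩
  · rintro ⟨s, h1, h2, h3⟩
    exact ⟨s, ⟨h1, h2⟩, h3⟩

theorem mem_allA {m : ℕ} {A : Fin m → Finset V} {v : V} : v ∈ allA A ↔ ∃ i, v ∈ A i := by
  simp [allA]

theorem mem_rws {R : ℕ} {n : Fin R → ℕ} {p : Fin R → ℕ → V} {v : V} :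
    v ∈ rws n p ↔ ∃ i s, s ≤ n i ∧ p i s = v := by
  simp only [rws, Finset.mem_biUnion, Finset.mem_univ, true_and, mem_seg]
  constructor
  · rintro ⟨i, s, -, h2, h3⟩
    exact ⟨i, s, by omega, h3⟩
  · rintro ⟨i, s, h2, h3⟩
    exact ⟨i, s, Nat.zero_le _, by omega, h3⟩

/-- Two big sets meet. -/
theorem Big.inter {S C D : Finset V} (hC : Big S C) (hD : Big S D) : (C ∩ D).Nonempty := by
  by_contra h
  rw [Finset.not_nonempty_iff_eq_empty] at h
  have h1 : Disjoint (S ∩ C) (S ∩ D) := by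
    rw [Finset.disjoint_left]
    intro v hv hv'
    have : v ∈ C ∩ D := Finset.mem_inter.2 ⟨(Finset.mem_inter.1 hv).2, (Finset.mem_inter.1 hv').2⟩
    rw [h] at this
    exact Finset.notMem_empty v this
  have h2 : (S ∩ C).card + (S ∩ D).card ≤ S.card := by
    rw [← Finset.card_union_of_disjoint h1]
    exact Finset.card_le_card (Finset.union_subset Finset.inter_subset_left
      Finset.inter_subset_left)
  unfold Big at hC hD
  omega

theorem Big.mono {S C D : Finset V} (hC : Big S C) (h : C ⊆ D) : Big S D := by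
  unfold Big at hC ⊢
  have : (S ∩ C).card ≤ (S ∩ D).card :=
    Finset.card_le_card (Finset.inter_subset_inter_left h)
  omega

/-- A connected set avoiding `X` which meets the closed set `C` is contained in `C`. -/
theorem sub_of_closed {C D X : Finset V} (hC : ∀ u, u ∈ C → ∀ v, G.Adj u v → v ∈ C ∪ X)
    (hD : Conn G (D : Set V)) (hX : Disjoint X D) (h : (C ∩ D).Nonempty) : D ⊆ C := by
  have h1 : ((C ∩ D : Finset V) : Set V) = (D : Set V) := by
    apply hD.eq_of_nb
    · intro v hv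
      exact Finset.mem_coe.2 (Finset.mem_inter.1 (Finset.mem_coe.1 hv)).2
    · obtain ⟨v, hv⟩ := h
      exact ⟨v, Finset.mem_coe.2 hv⟩
    · intro v hv hv'
      obtain ⟨h2, a, ha, hav⟩ := hv'
      have ha' := Finset.mem_inter.1 (Finset.mem_coe.1 ha)
      have h3 := hC a ha'.1 v hav
      rcases Finset.mem_union.1 h3 with h4 | h4
      · exact h2 (Finset.mem_coe.2 (Finset.mem_inter.2 ⟨h4, Finset.mem_coe.1 hv⟩))
      · exact Finset.disjoint_left.1 hX h4 (Finset.mem_coe.1 hv)
  intro v hv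
  have h2 : v ∈ ((C ∩ D : Finset V) : Set V) := by
    rw [h1]; exact Finset.mem_coe.2 hv
  exact (Finset.mem_inter.1 (Finset.mem_coe.1 h2)).1

/-- A path from `A` to `B` meets every separator. -/
theorem Pth.cross {A B L X : Finset V} {n : ℕ} {p : ℕ → V} (hp : Pth G A B n p)
    (hc : Cut G A B L X) : ∃ i, i ≤ n ∧ p i ∈ X := by
  by_contra h
  push Not at h
  have h1 : ∀ i, i ≤ n → p i ∈ L := by
    intro i
    induction i with
    | zero =>
      intro h2
      rcases Finset.mem_union.1 (hc.head hp.head) with h3 | h3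
      · exact h3
      · exact absurd h3 (h 0 h2)
    | succ i ih =>
      intro h2
      rcases Finset.mem_union.1 (hc.far _ (ih (by omega)) _ (hp.adj i (by omega))) with h3 | h3
      · exact h3
      · exact absurd h3 (h (i + 1) h2)
  exact Finset.disjoint_left.1 hc.last hp.last (h1 n le_rfl)

/-- `k` disjoint paths: every separator has at least `k` vertices. -/
theorem Lkg.card_le {A B L X : Finset V} {k : ℕ} {n : Fin k → ℕ} {p : Fin k → ℕ → V}
    (hp : Lkg G A B k n p) (hc : Cut G A B L X) : k ≤ X.card := by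
  have h1 : ∀ i : Fin k, ∃ s, s ≤ n i ∧ p i s ∈ X := fun i => (hp.pth i).cross hc
  choose s hs hX using h1
  have h2 : Function.Injective fun i : Fin k => p i (s i) := by
    intro i j hij
    by_contra hne
    exact hp.dis i j hne _ (hs i) _ (hs j) hij
  calc k = (Finset.univ : Finset (Fin k)).card := by simp
    _ = (Finset.univ.image fun i : Fin k => p i (s i)).card :=
      (Finset.card_image_of_injective _ h2).symm
    _ ≤ X.card := by
      apply Finset.card_le_card
      intro v hv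
      obtain ⟨i, -, rfl⟩ := Finset.mem_image.1 hv
      exact hX i

theorem Pth.mono {G' : SimpleGraph V} {A B A' B' : Finset V} {n : ℕ} {p : ℕ → V}
    (hp : Pth G A B n p) (hG : ∀ u v, G.Adj u v → G'.Adj u v) (hA : A ⊆ A') (hB : B ⊆ B') :
    Pth G' A' B' n p :=
  ⟨hp.inj, fun i hi => hG _ _ (hp.adj i hi), hA hp.head, hB hp.last⟩

theorem Lkg.mono {G' : SimpleGraph V} {A B A' B' : Finset V} {k k' : ℕ} {n : Fin k → ℕ}
    {p : Fin k → ℕ → V} (hp : Lkg G A B k n p) (hG : ∀ u v, G.Adj u v → G'.Adj u v)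
    (hA : A ⊆ A') (hB : B ⊆ B') (h : k' ≤ k) :
    Lkg G' A' B' k' (fun i => n (Fin.castLE h i)) (fun i => p (Fin.castLE h i)) :=
  ⟨fun i => (hp.pth _).mono hG hA hB, fun i j hij => hp.dis _ _
    (fun hh => hij (Fin.castLE_injective h hh))⟩

theorem Lkg.sel {A B : Finset V} {k k' : ℕ} {n : Fin k → ℕ}
    {p : Fin k → ℕ → V} (hp : Lkg G A B k n p) (f : Fin k' → Fin k) (hf : Function.Injective f) :
    Lkg G A B k' (fun i => n (f i)) (fun i => p (f i)) :=
  ⟨fun i => hp.pth _, fun i j hij => hp.dis _ _ (fun hh => hij (hf hh))⟩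

/-- A nonempty segment of a path is connected. -/
theorem conn_seg {p : ℕ → V} {a b : ℕ} (hab : a < b) (h : ∀ i, a ≤ i → i + 1 < b →
    G.Adj (p i) (p (i + 1))) : Conn G (seg p a b : Set V) := by
  induction b with
  | zero => omega
  | succ b ih =>
    by_cases hb : a < b
    · have h1 := ih hb (fun i h1 h2 => h i h1 (by omega))
      have h2 : ((seg p a (b + 1) : Finset V) : Set V) = insert (p b) (seg p a b : Set V) := by
        ext v
        simp only [Finset.mem_coe, mem_seg, Set.mem_insert_iff]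
        constructor
        · rintro ⟨s, h3, h4, h5⟩
          rcases Nat.lt_or_ge s b with h6 | h6
          · exact Or.inr ⟨s, h3, h6, h5⟩
          · have : s = b := by omega
            subst this
            exact Or.inl h5.symm
        · rintro (h3 | ⟨s, h3, h4, h5⟩)
          · exact ⟨b, by omega, by omega, h3.symm⟩
          · exact ⟨s, h3, by omega, h5⟩
      rw [h2]
      apply h1.insert
      refine ⟨p (b - 1), Finset.mem_coe.2 (mem_seg.2 ⟨b - 1, by omega, by omega, rfl⟩), ?_⟩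
      have h3 := h (b - 1) (by omega) (by omega)
      rwa [show b - 1 + 1 = b by omega] at h3
    · have h1 : a = b := by omega
      subst h1
      have h2 : ((seg p a (a + 1) : Finset V) : Set V) = {p a} := by
        ext v
        simp only [Finset.mem_coe, mem_seg, Set.mem_singleton_iff]
        constructor
        · rintro ⟨s, h3, h4, h5⟩
          have : s = a := by omega
          subst this
          exact h5.symm
        · intro h3
          exact ⟨a, le_rfl, by omega, h3.symm⟩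
      rw [h2]
      exact Conn.singleton G _

end lemmas

end Pool.Agent.MPd439b2.GT
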