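import Pool.Agent.Lib.MP_d439b2_co.GT.SpecG

/-!
# MP_d439b2_co, the grid theorem: a bad separation with a linkage
-/

set_option autoImplicit false

namespace Pool.Agent.MPd439b2.GT

open Pool.Agent.MPd439b2

/-- **A bad separation with a linkage.** -/
theorem pExtB (hMen : SMen) (hBigC : SBigC) : SExtB := by
  intro V _ _ G S m k hHav C T A hC X₁ hX₁ hbad
  classical
  -- the minimal bad pair
  have hex : ∃ n, ∃ L Z : Finset V, Bad G S C A X₁ L Z ∧ Z.card = n := by
    obtain ⟨L, Z, h⟩ := hbad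
    exact ⟨Z.card, L, Z, h, rfl⟩
  obtain ⟨L, Z, hLZ, hZn⟩ := Nat.find_spec hex
  have hmin : ∀ L' Z' : Finset V, Bad G S C A X₁ L' Z' → Z.card ≤ Z'.card := by
    intro L' Z' h'
    rw [hZn]
    exact Nat.find_min' hex ⟨L', Z', h', rfl⟩
  refine ⟨L, Z, hLZ, ?_⟩
  apply hMen V (ins (res G C X₁) (L ∪ Z)) (X₁ ∩ (L ∪ Z)) Z Z.card
  intro L₁ Z₁ hcut
  by_contra hlt
  push Not at hlt
  have hallA : (allA A).card ≤ m * k := by
    unfold allA
    refine (Finset.card_biUnion_le).trans ?_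
    refine (Finset.sum_le_card_nsmul _ _ k fun i _ => hC.card i).trans ?_
    simp
  have hX₁c : (X₁ ∩ (L ∪ Z)).card ≤ m * k :=
    (Finset.card_le_card (Finset.inter_subset_left.trans hX₁)).trans hallA
  have hZ₁c : (Z₁ ∩ (L ∪ Z)).card ≤ Z₁.card := Finset.card_le_card Finset.inter_subset_left
  have hZlt := hLZ.lt
  -- edges leaving the new small side
  have hfar : ∀ u, u ∈ L₁ ∩ (L ∪ Z) → ∀ v, (res G C X₁).Adj u v →
      v ∈ (L₁ ∩ (L ∪ Z)) ∪ (Z₁ ∩ (L ∪ Z)) := by
    intro u hu v huv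
    obtain ⟨hu1, hu2⟩ := Finset.mem_inter.1 hu
    have huZ : u ∉ Z := fun h => Finset.disjoint_left.1 hcut.last h hu1
    have huL : u ∈ L := by
      rcases Finset.mem_union.1 hu2 with h | h
      · exact h
      · exact absurd h huZ
    have hvP : v ∈ L ∪ Z := hLZ.far u huL v huv
    have hadj : (ins (res G C X₁) (L ∪ Z)).Adj u v := ⟨huv, hu2, hvP⟩
    rcases Finset.mem_union.1 (hcut.far u hu1 v hadj) with h | h
    · exact Finset.mem_union_left _ (Finset.mem_inter.2 ⟨h, hvP⟩)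
    · exact Finset.mem_union_right _ (Finset.mem_inter.2 ⟨h, hvP⟩)
  have hnew : Bad G S C A X₁ (L₁ ∩ (L ∪ Z)) (Z₁ ∩ (L ∪ Z)) := by
    refine ⟨?_, ?_, hfar, ?_, ?_⟩
    · exact Disjoint.mono Finset.inter_subset_left Finset.inter_subset_left hcut.dis
    · exact (Finset.union_subset Finset.inter_subset_right Finset.inter_subset_right).trans
        hLZ.sub
    · have hcard : (allA A ∪ (Z₁ ∩ (L ∪ Z))).card < 2 * (m * k) := by
        have := Finset.card_union_le (allA A) (Z₁ ∩ (L ∪ Z))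
        omega
      obtain ⟨D₁, hD₁c, hD₁d, hD₁b, hD₁f⟩ := hBigC V G S _ hHav _ hcard
      obtain ⟨D, hDc, hDb, hDd, hDL, hDf⟩ := hLZ.big
      have hCclosed : ∀ u, u ∈ C → ∀ v, G.Adj u v → v ∈ C ∪ allA A := by
        intro u hu v huv
        by_cases hv : v ∈ C
        · exact Finset.mem_union_left _ hv
        · exact Finset.mem_union_right _ (mem_allA.2 ((hC.nbr v).1 ⟨hv, u, hu, huv⟩))
      have hD₁C : D₁ ⊆ C := by
        apply sub_of_closed hCclosed hD₁c
        · exact Disjoint.mono_left Finset.subset_union_left hD₁d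
        · exact hC.big.inter hD₁b
      refine ⟨D₁, hD₁c, hD₁b, hD₁d.symm, ?_, hD₁f⟩
      rw [Finset.disjoint_left]
      intro a ha haL
      have hcl : ∀ u, u ∈ D₁ ∩ (L₁ ∩ (L ∪ Z)) → ∀ v, G.Adj u v →
          v ∈ (D₁ ∩ (L₁ ∩ (L ∪ Z))) ∪ D₁ᶜ := by
        intro u hu v huv
        obtain ⟨hu1, hu2⟩ := Finset.mem_inter.1 hu
        by_cases hv : v ∈ D₁
        · have hr : (res G C X₁).Adj u v :=
            ⟨huv, Finset.mem_union_left _ (hD₁C hu1), Finset.mem_union_left _ (hD₁C hv),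
              Or.inl (hD₁C hu1)⟩
          rcases Finset.mem_union.1 (hfar u hu2 v hr) with h | h
          · exact Finset.mem_union_left _ (Finset.mem_inter.2 ⟨hv, h⟩)
          · exact absurd hv (Finset.disjoint_left.1 hD₁d (Finset.mem_union_right _ h))
        · exact Finset.mem_union_right _ (Finset.mem_compl.2 hv)
      have hsub : D₁ ⊆ D₁ ∩ (L₁ ∩ (L ∪ Z)) := by
        apply sub_of_closed hcl hD₁c
        · rw [Finset.disjoint_left]
          intro v hv hv'
          exact (Finset.mem_compl.1 hv) hv'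
        · exact ⟨a, Finset.mem_inter.2 ⟨Finset.mem_inter.2 ⟨ha, haL⟩, ha⟩⟩
      obtain ⟨w, hw⟩ := hD₁b.inter hDb
      obtain ⟨hw1, hw2⟩ := Finset.mem_inter.1 hw
      have hwP := (Finset.mem_inter.1 (Finset.mem_inter.1 (hsub hw1)).2).2
      rcases Finset.mem_union.1 hwP with h | h
      · exact Finset.disjoint_left.1 hDL hw2 h
      · exact Finset.disjoint_left.1 hDd hw2 (Finset.mem_union_right _ h)
    · have hsub : X₁ ∩ (L ∪ Z) ⊆ X₁ ∩ ((L₁ ∩ (L ∪ Z)) ∪ (Z₁ ∩ (L ∪ Z))) := by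
        intro v hv
        obtain ⟨hv1, hv2⟩ := Finset.mem_inter.1 hv
        refine Finset.mem_inter.2 ⟨hv1, ?_⟩
        rcases Finset.mem_union.1 (hcut.head hv) with h | h
        · exact Finset.mem_union_left _ (Finset.mem_inter.2 ⟨h, hv2⟩)
        · exact Finset.mem_union_right _ (Finset.mem_inter.2 ⟨h, hv2⟩)
      have := Finset.card_le_card hsub
      omega
  have := hmin _ _ hnew
  omega

end Pool.Agent.MPd439b2.GT
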