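import Pool.Agent.Lib.MP_d439b2_co.GT.SpecG

/-!
# MP_d439b2_co, the grid theorem: links of the mesh
-/

set_option autoImplicit false

namespace Pool.Agent.MPd439b2.GT

open Pool.Agent.MPd439b2

section

variable {V : Type} [Fintype V] [DecidableEq V] {G : SimpleGraph V}

omit [Fintype V] in
private theorem Link_card {m k : ℕ} {A : Fin m → Finset V} (hA : ∀ i, (A i).card = k) :
    (allA A).card ≤ m * k := by
  unfold allA
  calc (Finset.univ.biUnion A).card ≤ ∑ i : Fin m, (A i).card := Finset.card_biUnion_le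
    _ = m * k := by simp [hA]

omit [Fintype V] in
private theorem Link_surj {k : ℕ} {B : Finset V} (hB : B.card = k) (f : Fin k → V)
    (hf : Function.Injective f) (hfB : ∀ s, f s ∈ B) (v : V) (hv : v ∈ B) : ∃ s, f s = v := by
  have h1 : Finset.univ.image f = B := by
    apply Finset.eq_of_subset_of_card_le
    · intro w hw
      obtain ⟨s, -, rfl⟩ := Finset.mem_image.1 hw
      exact hfB s
    · rw [Finset.card_image_of_injective _ hf, hB]
      simp
  rw [← h1] at hv
  obtain ⟨s, -, hs⟩ := Finset.mem_image.1 hv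
  exact ⟨s, hs⟩

private theorem Link_cut (h2 : SBigC) (S : Finset V) (m k : ℕ)
    (hH : Hav G S (2 * (m * k))) (C : Finset V) (T A : Fin m → Finset V)
    (hC : Cfg G S m k C T A) (hA : ∀ i, (A i).card = k)
    (hbad : ∀ X₁ : Finset V, X₁ ⊆ allA A → ∀ L Z, ¬ Bad G S C A X₁ L Z) (i j : Fin m)
    (L X : Finset V) (hcut : Cut (res G C (A i ∪ A j)) (A i) (A j) L X) :
    k ≤ X.card := by
  by_contra hcon
  have hX : X.card < k := by omega
  have hX₁ : A i ∪ A j ⊆ allA A := by
    intro v hv
    rcases Finset.mem_union.1 hv with hv | hv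
    · exact mem_allA.2 ⟨i, hv⟩
    · exact mem_allA.2 ⟨j, hv⟩
  have hm : 1 ≤ m := by
    have := i.isLt
    omega
  have hcard : (allA A ∪ X).card < 2 * (m * k) := by
    have e1 := Finset.card_union_le (allA A) X
    have e2 := Link_card hA
    have e3 : 1 * k ≤ m * k := Nat.mul_le_mul_right k hm
    omega
  obtain ⟨D, hDc, hDX, hDb, hDf⟩ := h2 V G S _ hH (allA A ∪ X) hcard
  have hDA : Disjoint (allA A) D := (Finset.disjoint_union_left.1 hDX).1
  have hDX' : Disjoint X D := (Finset.disjoint_union_left.1 hDX).2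
  have hCcl : ∀ u, u ∈ C → ∀ v, G.Adj u v → v ∈ C ∪ allA A := by
    intro u hu v huv
    by_cases hv : v ∈ C
    · exact Finset.mem_union_left _ hv
    · exact Finset.mem_union_right _ (mem_allA.2 ((hC.nbr v).1 ⟨hv, u, hu, huv⟩))
  have hDC : D ⊆ C := sub_of_closed hCcl hDc hDA (hC.big.inter hDb)
  -- `D` is on one side
  have hside : D ⊆ L ∨ Disjoint D L := by
    by_contra hno
    push Not at hno
    obtain ⟨hn1, hn2⟩ := hno
    have hne : (((D ∩ L : Finset V) : Set V)).Nonempty := by
      rw [Finset.not_disjoint_iff] at hn2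
      obtain ⟨v, hv, hv'⟩ := hn2
      exact ⟨v, Finset.mem_coe.2 (Finset.mem_inter.2 ⟨hv, hv'⟩)⟩
    have hne' : ((D ∩ L : Finset V) : Set V) ≠ (D : Set V) := by
      intro h
      apply hn1
      intro v hv
      have : v ∈ ((D ∩ L : Finset V) : Set V) := by
        rw [h]
        exact Finset.mem_coe.2 hv
      exact (Finset.mem_inter.1 (Finset.mem_coe.1 this)).2
    obtain ⟨b, hb, a, ha, hab⟩ := hDc.2 _ (Finset.coe_subset.2 Finset.inter_subset_left) hne hne'
    have hb' := Finset.mem_inter.1 (Finset.mem_coe.1 hb)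
    have haD : a ∈ D := Finset.mem_coe.1 ha.1
    have haL : a ∉ L := fun h => ha.2 (Finset.mem_coe.2 (Finset.mem_inter.2 ⟨haD, h⟩))
    have h3 := hcut.far b hb'.2 a ⟨hab, Finset.mem_union_left _ (hDC hb'.1),
      Finset.mem_union_left _ (hDC haD), Or.inl (hDC hb'.1)⟩
    rcases Finset.mem_union.1 h3 with h3 | h3
    · exact haL h3
    · exact Finset.disjoint_left.1 hDX' h3 haD
  have hZcl : ∀ u, u ∈ D → ∀ v, G.Adj u v →
      v ∈ D ∪ (allA A ∪ (X ∩ (C ∪ (A i ∪ A j)))) := by
    intro u hu v huv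
    rcases Finset.mem_union.1 (hDf u hu v huv) with h | h
    · exact Finset.mem_union_left _ h
    · rcases Finset.mem_union.1 h with h | h
      · exact Finset.mem_union_right _ (Finset.mem_union_left _ h)
      · by_cases hv : v ∈ C
        · exact Finset.mem_union_right _ (Finset.mem_union_right _
            (Finset.mem_inter.2 ⟨h, Finset.mem_union_left _ hv⟩))
        · exact Finset.mem_union_right _ (Finset.mem_union_left _
            (mem_allA.2 ((hC.nbr v).1 ⟨hv, u, hDC hu, huv⟩)))
  have hDZ : Disjoint D (allA A ∪ (X ∩ (C ∪ (A i ∪ A j)))) := by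
    rw [Finset.disjoint_union_right]
    refine ⟨hDA.symm, ?_⟩
    exact (hDX'.mono_left Finset.inter_subset_left).symm
  have hZc : (X ∩ (C ∪ (A i ∪ A j))).card < k :=
    (Finset.card_le_card Finset.inter_subset_left).trans_lt hX
  rcases hside with hs | hs
  · apply hbad _ hX₁ ((C ∪ (A i ∪ A j)) \ (L ∪ X)) (X ∩ (C ∪ (A i ∪ A j)))
    refine ⟨?_, ?_, ?_, ⟨D, hDc, hDb, hDZ, ?_, hZcl⟩, ?_⟩
    · rw [Finset.disjoint_left]
      intro v hv hv'
      exact (Finset.mem_sdiff.1 hv).2 (Finset.mem_union_right _ (Finset.mem_inter.1 hv').1)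
    · exact Finset.union_subset Finset.sdiff_subset Finset.inter_subset_right
    · intro u hu v huv
      by_cases hvX : v ∈ X
      · exact Finset.mem_union_right _ (Finset.mem_inter.2 ⟨hvX, huv.2.2.1⟩)
      · refine Finset.mem_union_left _ (Finset.mem_sdiff.2 ⟨huv.2.2.1, ?_⟩)
        intro hv
        rcases Finset.mem_union.1 hv with hv | hv
        · exact (Finset.mem_sdiff.1 hu).2 (hcut.far v hv u huv.symm)
        · exact hvX hv
    · rw [Finset.disjoint_left]
      intro v hv hv'
      exact (Finset.mem_sdiff.1 hv').2 (Finset.mem_union_left _ (hs hv))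
    · refine hZc.trans_le ?_
      rw [← hA j]
      apply Finset.card_le_card
      intro v hv
      have hvP : v ∈ C ∪ (A i ∪ A j) :=
        Finset.mem_union_right _ (Finset.mem_union_right _ hv)
      refine Finset.mem_inter.2 ⟨Finset.mem_union_right _ hv, ?_⟩
      by_cases hvX : v ∈ X
      · exact Finset.mem_union_right _ (Finset.mem_inter.2 ⟨hvX, hvP⟩)
      · refine Finset.mem_union_left _ (Finset.mem_sdiff.2 ⟨hvP, ?_⟩)
        intro h
        rcases Finset.mem_union.1 h with h | h
        · exact Finset.disjoint_left.1 hcut.last hv h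
        · exact hvX h
  · apply hbad _ hX₁ (L ∩ (C ∪ (A i ∪ A j))) (X ∩ (C ∪ (A i ∪ A j)))
    refine ⟨?_, ?_, ?_, ⟨D, hDc, hDb, hDZ, ?_, hZcl⟩, ?_⟩
    · exact hcut.dis.mono Finset.inter_subset_left Finset.inter_subset_left
    · exact Finset.union_subset Finset.inter_subset_right Finset.inter_subset_right
    · intro u hu v huv
      rcases Finset.mem_union.1 (hcut.far u (Finset.mem_inter.1 hu).1 v huv) with h | h
      · exact Finset.mem_union_left _ (Finset.mem_inter.2 ⟨h, huv.2.2.1⟩)
      · exact Finset.mem_union_right _ (Finset.mem_inter.2 ⟨h, huv.2.2.1⟩)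
    · exact hs.mono_right Finset.inter_subset_left
    · refine hZc.trans_le ?_
      rw [← hA i]
      apply Finset.card_le_card
      intro v hv
      have hvP : v ∈ C ∪ (A i ∪ A j) :=
        Finset.mem_union_right _ (Finset.mem_union_left _ hv)
      refine Finset.mem_inter.2 ⟨Finset.mem_union_left _ hv, ?_⟩
      rcases Finset.mem_union.1 (hcut.head hv) with h | h
      · exact Finset.mem_union_left _ (Finset.mem_inter.2 ⟨h, hvP⟩)
      · exact Finset.mem_union_right _ (Finset.mem_inter.2 ⟨h, hvP⟩)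

end

theorem pLink (h1 : SMen) (h2 : SBigC) : SLink := by
  intro V _ _ G S m k hH C T A hC hA hbad i j hij
  have hiC : ∀ i' : Fin m, Disjoint (A i') C := fun i' => (hC.out i').mono_left (hC.sub i')
  have hdis : Disjoint (A i) (A j) := (hC.dis i j hij).mono (hC.sub i) (hC.sub j)
  obtain ⟨n, p, hp⟩ := h1 V (res G C (A i ∪ A j)) (A i) (A j) k
    (fun L X hcut => Link_cut h2 S m k hH C T A hC hA hbad i j L X hcut)
  -- first and last vertices
  have hfst : ∀ s t, t ≤ n s → p s t ∈ A i → t = 0 := by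
    intro s t ht hv
    obtain ⟨s', hs'⟩ := Link_surj (hA i) (fun s => p s 0) (fun s s' hss => by
      by_contra hne
      exact hp.dis s s' hne 0 (Nat.zero_le _) 0 (Nat.zero_le _) hss)
      (fun s => (hp.pth s).head) _ hv
    by_cases hss : s = s'
    · subst hss
      exact (hp.pth s).inj t ht 0 (Nat.zero_le _) hs'.symm
    · exact absurd hs'.symm (hp.dis s s' hss t ht 0 (Nat.zero_le _))
  have hlst : ∀ s t, t ≤ n s → p s t ∈ A j → t = n s := by
    intro s t ht hv
    obtain ⟨s', hs'⟩ := Link_surj (hA j) (fun s => p s (n s)) (fun s s' hss => by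
      by_contra hne
      exact hp.dis s s' hne _ le_rfl _ le_rfl hss)
      (fun s => (hp.pth s).last) _ hv
    by_cases hss : s = s'
    · subst hss
      exact (hp.pth s).inj t ht (n s) le_rfl hs'.symm
    · exact absurd hs'.symm (hp.dis s s' hss t ht _ le_rfl)
  have hmid : ∀ s t, 0 < t → t < n s → p s t ∈ C := by
    intro s t h0 ht
    have h3 := (hp.pth s).adj t ht
    rcases Finset.mem_union.1 h3.2.1 with h | h
    · exact h
    · rcases Finset.mem_union.1 h with h | h
      · have := hfst s t ht.le h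
        omega
      · have := hlst s t ht.le h
        omega
  have hn1 : ∀ s, 2 ≤ n s := by
    intro s
    by_contra hlt
    have hne0 : n s ≠ 0 := by
      intro h0
      have h3 := (hp.pth s).last
      rw [h0] at h3
      exact Finset.disjoint_left.1 hdis (hp.pth s).head h3
    have h1' : n s = 1 := by omega
    have h3 := (hp.pth s).adj 0 (by omega)
    have h4 := (hp.pth s).last
    rw [h1'] at h4
    rcases h3.2.2.2 with h5 | h5
    · exact Finset.disjoint_left.1 (hiC i) (hp.pth s).head h5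
    · exact Finset.disjoint_left.1 (hiC j) h4 h5
  classical
  let x : V → V := fun y => if h : ∃ s, p s 1 = y then p h.choose 0 else y
  have hx : ∀ y, (∃ s, p s 1 = y) → ∃ s, p s 1 = y ∧ x y = p s 0 := by
    intro y h
    refine ⟨h.choose, h.choose_spec, ?_⟩
    exact dif_pos h
  refine ⟨Finset.univ.image fun s => p s 1, Finset.univ.image fun s => p s (n s - 1), x,
    ?_, ?_, ?_, ?_, ?_, fun s => n s - 2, fun s t => p s (t + 1), ?_, ?_⟩
  · intro v hv
    obtain ⟨s, -, rfl⟩ := Finset.mem_image.1 hv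
    have := hn1 s
    exact hmid s 1 (by omega) (by omega)
  · intro v hv
    obtain ⟨s, -, rfl⟩ := Finset.mem_image.1 hv
    have := hn1 s
    exact hmid s (n s - 1) (by omega) (by omega)
  · intro y hy
    obtain ⟨s, -, hs⟩ := Finset.mem_image.1 hy
    obtain ⟨s', hs', hxy⟩ := hx y ⟨s, hs⟩
    have := hn1 s'
    rw [hxy, ← hs']
    exact ⟨(hp.pth s').head, ((hp.pth s').adj 0 (by omega)).1⟩
  · intro y hy y' hy' hxx
    obtain ⟨s, -, hs⟩ := Finset.mem_image.1 hy
    obtain ⟨s', -, hs'⟩ := Finset.mem_image.1 hy'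
    obtain ⟨t, ht, hxy⟩ := hx y ⟨s, hs⟩
    obtain ⟨t', ht', hxy'⟩ := hx y' ⟨s', hs'⟩
    have h3 : t = t' := by
      by_contra hne
      exact hp.dis t t' hne 0 (Nat.zero_le _) 0 (Nat.zero_le _)
        (hxy.symm.trans (hxx.trans hxy'))
    rw [← ht, ← ht', h3]
  · intro y hy
    obtain ⟨s, -, rfl⟩ := Finset.mem_image.1 hy
    have h3 := hn1 s
    have h4 := (hp.pth s).adj (n s - 1) (by omega)
    rw [show n s - 1 + 1 = n s by omega] at h4
    exact ⟨p s (n s), (hp.pth s).last, h4.1⟩
  · intro s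
    have h3 := hn1 s
    refine ⟨?_, ?_, ?_, ?_⟩
    · intro t ht t' ht' htt
      have := (hp.pth s).inj (t + 1) (by omega) (t' + 1) (by omega) htt
      omega
    · intro t ht
      exact ⟨((hp.pth s).adj (t + 1) (by omega)).1, hmid s (t + 1) (by omega) (by omega),
        hmid s (t + 1 + 1) (by omega) (by omega)⟩
    · exact Finset.mem_image.2 ⟨s, Finset.mem_univ _, rfl⟩
    · refine Finset.mem_image.2 ⟨s, Finset.mem_univ _, ?_⟩
      change p s (n s - 1) = p s (n s - 2 + 1)
      rw [show n s - 2 + 1 = n s - 1 by omega]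
  · intro s s' hss t ht t' ht'
    have h3 := hn1 s
    have h4 := hn1 s'
    exact hp.dis s s' hss (t + 1) (by omega) (t' + 1) (by omega)

end Pool.Agent.MPd439b2.GT
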